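import Pool.Agent.R919.FF.Ind
import Pool.Agent.W437.HD.Fixed

/-!
# Independence of the Weil numbers of ordinary elliptic curves
-/

set_option autoImplicit false

open scoped TensorProduct

universe w

namespace Pool.Agent.R919.FF

section character

variable {G V : Type*} [Group G] [AddCommGroup V] [Module ℚ V] {I : Type w}

/-- Independence of characters. -/
lemma char_indep (χ : I → G →* ℚ) (F : Finset I)
    (hχ : ∀ i ∈ F, ∀ j ∈ F, i ≠ j → ∃ τ, χ i τ ≠ χ j τ) :
    ∀ v : I → V, (∀ τ, ∑ i ∈ F, χ i τ • v i = 0) → ∀ i ∈ F, v i = 0 := by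
  classical
  induction F using Finset.induction_on with
  | empty => intro v _ i hi; exact absurd hi (Finset.notMem_empty i)
  | insert a F ha ih =>
    intro v h
    have h1 : ∀ j ∈ F, v j = 0 := by
      intro j hj
      have hja : a ≠ j := fun h => ha (h ▸ hj)
      obtain ⟨τ, hτ⟩ := hχ a (Finset.mem_insert_self a F) j (Finset.mem_insert_of_mem hj) hja
      have h2 : (χ j τ - χ a τ) • v j = 0 := by
        refine ih (fun i hi j hj => hχ i (Finset.mem_insert_of_mem hi) j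
          (Finset.mem_insert_of_mem hj)) (fun i => (χ i τ - χ a τ) • v i) (fun ρ => ?_) j hj
        have h3 := h (ρ * τ)
        have h4 := h ρ
        rw [Finset.sum_insert ha] at h3 h4
        have h5 : ∑ i ∈ F, χ i ρ • (χ i τ - χ a τ) • v i =
            (χ a (ρ * τ) • v a + ∑ i ∈ F, χ i (ρ * τ) • v i) -
              χ a τ • (χ a ρ • v a + ∑ i ∈ F, χ i ρ • v i) := by
          have h6 : ∑ i ∈ F, χ i ρ • (χ i τ - χ a τ) • v i =
              ∑ i ∈ F, χ i (ρ * τ) • v i - ∑ i ∈ F, χ a τ • χ i ρ • v i := by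
            rw [← Finset.sum_sub_distrib]
            refine Finset.sum_congr rfl fun i _ => ?_
            rw [map_mul, smul_smul, smul_smul, ← sub_smul]
            congr 1
            ring
          rw [h6, ← Finset.smul_sum, smul_add, map_mul, smul_smul, mul_comm (χ a τ)]
          abel
        rw [h5, h3, h4, smul_zero, sub_zero]
      rcases smul_eq_zero.1 h2 with h3 | h3
      · exact absurd (sub_eq_zero.1 h3).symm hτ
      · exact h3
    have h2 : v a = 0 := by
      have h3 := h 1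
      rw [Finset.sum_insert ha, Finset.sum_eq_zero (fun i hi => by rw [h1 i hi, smul_zero]),
        add_zero, map_one, one_smul] at h3
      exact h3
    intro i hi
    rcases Finset.mem_insert.1 hi with rfl | hi
    · exact h2
    · exact h1 i hi

end character

section action

variable {q : ℂˣ}

/-- The action of an automorphism of the complex numbers. -/
noncomputable def actQ (τ : ℂ ≃+* ℂ) (hq : τ (q : ℂ) = q) : QL q →ₗ[ℚ] QL q :=
  Submodule.mapQ _ _ (LinearMap.baseChange ℚ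
    (AddMonoidHom.toIntLinearMap (MonoidHom.toAdditive (Units.map (τ : ℂ →* ℂ))))) (by
    rw [Submodule.span_le]
    rintro _ rfl
    rw [SetLike.mem_coe, Submodule.mem_comap, LinearMap.baseChange_tmul]
    have h1 : Units.map (τ : ℂ →* ℂ) q = q := Units.ext hq
    have h2 : (AddMonoidHom.toIntLinearMap (MonoidHom.toAdditive (Units.map (τ : ℂ →* ℂ))))
        (Additive.ofMul q) = Additive.ofMul q := congrArg Additive.ofMul h1
    rw [h2]
    exact Submodule.mem_span_singleton_self _)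

lemma actQ_cls (τ : ℂ ≃+* ℂ) (hq : τ (q : ℂ) = q) (u : ℂˣ) :
    actQ τ hq (cls q u) = cls q (Units.map (τ : ℂ →* ℂ) u) := by
  rw [cls, cls, actQ, Submodule.mapQ_apply, LinearMap.baseChange_tmul]
  rfl

end action

section sign

/-- The sign of an automorphism on a square root. -/
noncomputable def sgn {δ : ℂ} {D : ℤ} (hδ : δ ^ 2 = D) (hδ0 : δ ≠ 0) : (ℂ ≃+* ℂ) →* ℚ := by
  classical
  have key : ∀ τ : ℂ ≃+* ℂ, τ δ = ((if τ δ = δ then (1 : ℚ) else -1 : ℚ) : ℂ) * δ := by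
    intro τ
    have h1 : (τ δ) ^ 2 = δ ^ 2 := by
      rw [← map_pow, hδ, map_intCast]
    split_ifs with h
    · rw [h]; simp
    · rcases sq_eq_sq_iff_eq_or_eq_neg.1 h1 with h2 | h2
      · exact absurd h2 h
      · rw [h2]; simp
  exact
    { toFun := fun τ => if τ δ = δ then 1 else -1
      map_one' := if_pos rfl
      map_mul' := fun τ ρ => by
        have h1 := key (τ * ρ)
        have h2 : (τ * ρ) δ = τ (ρ δ) := rfl
        have h3 : τ (ρ δ) = ((if τ δ = δ then (1 : ℚ) else -1 : ℚ) : ℂ) *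
            ((if ρ δ = δ then (1 : ℚ) else -1 : ℚ) : ℂ) * δ := by
          have e := congrArg τ (key ρ)
          rw [map_mul, map_ratCast, key τ] at e
          rw [e]
          ring
        have h4 : ((if (τ * ρ) δ = δ then (1 : ℚ) else -1 : ℚ) : ℂ) =
            ((if τ δ = δ then (1 : ℚ) else -1 : ℚ) : ℂ) *
            ((if ρ δ = δ then (1 : ℚ) else -1 : ℚ) : ℂ) := by
          apply mul_right_cancel₀ hδ0
          rw [← h1, h2, h3]
        exact_mod_cast h4 }

lemma sgn_apply {δ : ℂ} {D : ℤ} (hδ : δ ^ 2 = D) (hδ0 : δ ≠ 0) (τ : ℂ ≃+* ℂ) :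
    (τ δ = δ ∧ sgn hδ hδ0 τ = 1) ∨ (τ δ = -δ ∧ sgn hδ hδ0 τ = -1) := by
  classical
  have h1 : (τ δ) ^ 2 = δ ^ 2 := by
    rw [← map_pow, hδ, map_intCast]
  have h0 : sgn hδ hδ0 τ = if τ δ = δ then 1 else -1 := rfl
  by_cases h : τ δ = δ
  · left
    rw [h0, if_pos h]
    exact ⟨h, rfl⟩
  · right
    rw [h0, if_neg h]
    rcases sq_eq_sq_iff_eq_or_eq_neg.1 h1 with h2 | h2
    · exact absurd h2 h
    · exact ⟨h2, rfl⟩

/-- Different quadratic fields have different signs. -/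
lemma sgn_ne {δ δ' : ℂ} {D D' : ℤ} (hδ : δ ^ 2 = D) (hδ0 : δ ≠ 0) (hδ' : δ' ^ 2 = D')
    (hδ0' : δ' ≠ 0) (h : ¬ IsSquare (D * D')) :
    ∃ τ, sgn hδ hδ0 τ ≠ sgn hδ' hδ0' τ := by
  by_contra hcon
  push Not at hcon
  have h1 : ∀ τ : ℂ ≃+* ℂ, τ (δ * δ') = δ * δ' := by
    intro τ
    rcases sgn_apply hδ hδ0 τ with ⟨h1, h2⟩ | ⟨h1, h2⟩ <;>
      rcases sgn_apply hδ' hδ0' τ with ⟨h3, h4⟩ | ⟨h3, h4⟩
    · rw [map_mul, h1, h3]
    · have := hcon τ
      rw [h2, h4] at this
      norm_num at this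
    · have := hcon τ
      rw [h2, h4] at this
      norm_num at this
    · rw [map_mul, h1, h3, neg_mul_neg]
  have h2 : ∃ r : ℚ, δ * δ' = r := by
    by_contra hne
    push Not at hne
    obtain ⟨τ, hτ⟩ := Pool.Agent.W437.HD.exists_move hne
    exact hτ (h1 τ)
  obtain ⟨r, hr⟩ := h2
  apply h
  have h3 : ((D * D' : ℤ) : ℚ) = r * r := by
    have h4 : ((D * D' : ℤ) : ℂ) = ((r * r : ℚ) : ℂ) := by
      push_cast
      rw [← hr, ← hδ, ← hδ']
      ring
    exact_mod_cast h4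
  rw [← Rat.isSquare_intCast_iff]
  exact ⟨r, h3⟩

end sign

section main

variable {p : ℕ} {hp : (p : ℂ) ≠ 0} {I : Type w}

/-- The classes of the Weil numbers in different quadratic fields are independent. -/
theorem weil_indep {a : I → ℤ} {e : I → ℕ} {α β : I → ℂˣ}
    (hsum : ∀ i, (α i : ℂ) + β i = a i) (hprod : ∀ i, (α i : ℂ) * β i = (p : ℂ) ^ e i)
    (hne : ∀ i, (α i : ℂ) ≠ β i)
    (hD : ∀ i j, i ≠ j → ¬ IsSquare ((a i ^ 2 - 4 * (p : ℤ) ^ e i) *
      (a j ^ 2 - 4 * (p : ℤ) ^ e j)))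
    (F : Finset I) (r : I → ℚ) (h : ∑ i ∈ F, r i • cls (pu p hp) (α i) = 0) :
    ∀ i ∈ F, r i • cls (pu p hp) (α i) = 0 := by
  have hδ : ∀ i, ((α i : ℂ) - β i) ^ 2 = ((a i ^ 2 - 4 * (p : ℤ) ^ e i : ℤ) : ℂ) := by
    intro i
    push_cast
    rw [← hsum i, ← hprod i]
    ring
  have hδ0 : ∀ i, (α i : ℂ) - β i ≠ 0 := fun i => sub_ne_zero.2 (hne i)
  have hcls : ∀ i, cls (pu p hp) (β i) = -cls (pu p hp) (α i) := by
    intro i
    have h1 : cls (pu p hp) (α i * β i) = 0 := by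
      rw [cls_zero_iff]
      refine ⟨1, one_pos, ((e i : ℕ) : ℤ), ?_⟩
      rw [pow_one, zpow_natCast, Units.val_mul, hprod]
    rw [cls_mul] at h1
    exact eq_neg_of_add_eq_zero_right h1
  refine char_indep (fun i => sgn (hδ i) (hδ0 i)) F (fun i _ j _ hij =>
    sgn_ne (hδ i) (hδ0 i) (hδ j) (hδ0 j) (hD i j hij)) (fun i => r i • cls (pu p hp) (α i))
    fun τ => ?_
  have hq : τ ((pu p hp : ℂˣ) : ℂ) = (pu p hp : ℂˣ) := by
    change τ (p : ℂ) = p
    exact map_natCast τ p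
  have h1 := congrArg (actQ τ hq) h
  rw [map_zero, map_sum] at h1
  rw [← h1]
  refine Finset.sum_congr rfl fun i _ => ?_
  rw [map_smul, actQ_cls, smul_comm]
  congr 1
  rcases sgn_apply (hδ i) (hδ0 i) τ with ⟨h2, h3⟩ | ⟨h2, h3⟩
  · rw [h3, one_smul]
    congr 1
    apply Units.ext
    have h4 : τ (α i : ℂ) + τ (β i : ℂ) = α i + β i := by
      rw [← map_add, hsum, map_intCast]
    rw [map_sub] at h2
    have h5 : (2 : ℂ) * τ (α i : ℂ) = 2 * (α i : ℂ) := by linear_combination h4 + h2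
    exact (mul_left_cancel₀ two_ne_zero h5).symm
  · rw [h3, neg_one_smul, ← hcls]
    congr 1
    apply Units.ext
    have h4 : τ (α i : ℂ) + τ (β i : ℂ) = α i + β i := by
      rw [← map_add, hsum, map_intCast]
    rw [map_sub] at h2
    have h5 : (2 : ℂ) * τ (α i : ℂ) = 2 * (β i : ℂ) := by linear_combination h4 + h2
    exact (mul_left_cancel₀ two_ne_zero h5).symm

/-- The independence of the groups generated by the eigenvalues. -/
theorem independentModP_of_weil {a : I → ℤ} {e : I → ℕ} {α β : I → ℂˣ}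
    (hsum : ∀ i, (α i : ℂ) + β i = a i) (hprod : ∀ i, (α i : ℂ) * β i = (p : ℂ) ^ e i)
    (hne : ∀ i, (α i : ℂ) ≠ β i)
    (hD : ∀ i j, i ≠ j → ¬ IsSquare ((a i ^ 2 - 4 * (p : ℤ) ^ e i) *
      (a j ^ 2 - 4 * (p : ℤ) ^ e j)))
    (hp : (p : ℂ) ≠ 0) {S : I → Set ℂ}
    (hS : ∀ i, ∀ z ∈ S i, PPower p z ∨ z = α i ∨ z = β i) :
    IndependentModP p fun i => mulSpan (S i) := by
  intro F γ hγ hprodγ
  have h1 : ∀ i ∈ F, ∃ r : ℚ, cls (pu p hp) (γ i) = r • cls (pu p hp) (α i) := by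
    intro i hi
    have h2 := mulSpan_cls (q := pu p hp) (hγ i hi)
    have h3 : vS (pu p hp) (S i) ≤ Submodule.span ℚ {cls (pu p hp) (α i)} := by
      rw [vS, Submodule.span_le]
      rintro _ ⟨z, hz, rfl⟩
      rcases hS i z hz with h4 | h4 | h4
      · rw [SetLike.mem_coe, cls_zero_iff.2 h4]
        exact Submodule.zero_mem _
      · have h5 : z = α i := Units.ext h4
        rw [h5]
        exact Submodule.mem_span_singleton_self _
      · have h5 : z = β i := Units.ext h4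
        have h6 : cls (pu p hp) (α i * β i) = 0 := by
          rw [cls_zero_iff]
          refine ⟨1, one_pos, ((e i : ℕ) : ℤ), ?_⟩
          rw [pow_one, zpow_natCast, Units.val_mul, hprod]
        rw [cls_mul] at h6
        rw [h5, SetLike.mem_coe, eq_neg_of_add_eq_zero_right h6]
        exact Submodule.neg_mem _ (Submodule.mem_span_singleton_self _)
    obtain ⟨r, hr⟩ := Submodule.mem_span_singleton.1 (h3 h2)
    exact ⟨r, hr.symm⟩
  classical
  choose! r hr using h1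
  have h2 : ∑ i ∈ F, r i • cls (pu p hp) (α i) = 0 := by
    rw [← (cls_zero_iff (hp := hp)).2 hprodγ, cls_prod]
    exact Finset.sum_congr rfl fun i hi => (hr i hi).symm
  intro i hi
  rw [← cls_zero_iff (hp := hp), hr i hi]
  exact weil_indep hsum hprod hne hD F r h2 i hi

/-- Ordinary Weil numbers. -/
theorem not_ppower (hpr : p.Prime) {a : ℤ} {e : ℕ} (he : 0 < e) {α β : ℂ} (hsum : α + β = a)
    (hprod : α * β = (p : ℂ) ^ e) (hnorm : ‖α‖ ^ 2 = (p : ℝ) ^ e) (ha : ¬ (p : ℤ) ∣ a) :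
    ¬ PPower p α := by
  rintro ⟨M, hM, c, hc⟩
  have hp1 : (1 : ℝ) < p := by exact_mod_cast hpr.one_lt
  have hp0 : (p : ℂ) ≠ 0 := Nat.cast_ne_zero.2 hpr.ne_zero
  -- the exponent
  have h1 : 2 * c = e * M := by
    have h2 := congrArg (fun x : ℂ => ‖x‖ ^ 2) hc
    simp only [norm_pow, norm_zpow, Complex.norm_natCast] at h2
    rw [← pow_mul, mul_comm M 2, pow_mul, hnorm, ← zpow_natCast, ← zpow_natCast,
      ← zpow_natCast, ← zpow_mul, ← zpow_mul] at h2
    have h3 := zpow_right_injective₀ (zero_lt_one.trans hp1) hp1.ne' h2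
    push_cast at h3
    linarith
  have hc0 : 0 < c := by
    have h2 : (0 : ℤ) < e * M := by positivity
    omega
  -- the second root
  have h2 : β ^ M = (p : ℂ) ^ c := by
    have h3 : α ^ M * β ^ M = (p : ℂ) ^ c * (p : ℂ) ^ c := by
      rw [← mul_pow, hprod, ← pow_mul, ← zpow_natCast, ← zpow_add₀ hp0]
      congr 1
      push_cast
      omega
    rw [hc] at h3
    exact mul_left_cancel₀ (zpow_ne_zero c hp0) h3
  -- the recurrence
  have h3 : ∀ n : ℕ, ∃ s t : ℤ, (s : ℂ) = α ^ (n + 1) + β ^ (n + 1) ∧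
      (t : ℂ) = α ^ (n + 2) + β ^ (n + 2) ∧ (p : ℤ) ∣ s - a ^ (n + 1) ∧
        (p : ℤ) ∣ t - a ^ (n + 2) := by
    intro n
    induction n with
    | zero =>
      refine ⟨a, a ^ 2 - 2 * (p : ℤ) ^ e, ?_, ?_, ?_, ?_⟩
      · rw [zero_add, pow_one, pow_one, hsum]
      · push_cast
        rw [← hsum, ← hprod]
        ring
      · rw [zero_add, pow_one, sub_self]
        exact dvd_zero _
      · rw [zero_add]
        have h4 : (p : ℤ) ∣ (p : ℤ) ^ e := dvd_pow_self _ he.ne'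
        have h5 : a ^ 2 - 2 * (p : ℤ) ^ e - a ^ 2 = -(2 * (p : ℤ) ^ e) := by ring
        rw [h5]
        exact (Dvd.dvd.mul_left h4 2).neg_right
    | succ n ih =>
      obtain ⟨s, t, h4, h5, h6, h7⟩ := ih
      refine ⟨t, a * t - (p : ℤ) ^ e * s, h5, ?_, h7, ?_⟩
      · push_cast
        rw [h4, h5, ← hsum, ← hprod]
        ring
      · have h8 : (p : ℤ) ∣ (p : ℤ) ^ e := dvd_pow_self _ he.ne'
        have h9 : a * t - (p : ℤ) ^ e * s - a ^ (n + 1 + 2) =
            a * (t - a ^ (n + 2)) - (p : ℤ) ^ e * s := by ring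
        rw [h9]
        exact dvd_sub (Dvd.dvd.mul_left h7 a) (Dvd.dvd.mul_right h8 s)
  obtain ⟨s, t, h4, -, h6, -⟩ := h3 (M - 1)
  rw [Nat.sub_add_cancel hM] at h4 h6
  rw [hc, h2] at h4
  obtain ⟨d, rfl⟩ := Int.eq_ofNat_of_zero_le hc0.le
  have h5 : s = 2 * (p : ℤ) ^ d := by
    have : (s : ℂ) = ((2 * (p : ℤ) ^ d : ℤ) : ℂ) := by
      rw [h4]
      push_cast
      rw [zpow_natCast]
      ring
    exact_mod_cast this
  have h7 : (p : ℤ) ∣ s := by
    rw [h5]
    refine Dvd.dvd.mul_left (dvd_pow_self _ ?_) 2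
    omega
  have h8 : (p : ℤ) ∣ a ^ M := by
    have := dvd_sub h7 h6
    rwa [sub_sub_cancel] at this
  exact ha ((Nat.prime_iff_prime_int.1 hpr).dvd_of_dvd_pow h8)

end main

end Pool.Agent.R919.FF
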