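import Pool.Agent.R919.FF.TateEll

/-!
# The rank of the eigenvalues of an abelian variety
-/

set_option autoImplicit false
set_option linter.unusedSectionVars false

open CategoryTheory AlgebraicGeometry Module
open scoped TensorProduct

universe u v w

namespace Pool.Agent.R919.FF

open Pool.Agent.H914 Pool.Agent.W534 VarClass Obj WeilCohomology Pool.Agent.H281R3.HT
open Pool.Agent.Y163 (HBasis)
open Pool.Agent.R940 (IsEig gen_semi gen_bilin frob_mul' frob_one' repr_zero root_charpoly
  exists_ebasis)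
open Pool.Agent.R936 (exists_dual)
open Pool.Agent.Y133.Half (spanCycles_of_algSpan)

variable {k : Type u} [Field k] {𝒱 : VarClass k} {ops : CycleOps 𝒱}
  {W : WeilCohomology.{u, v} ops} {X Y Z U A : 𝒱.Obj} {p : ℕ} {Φ : FrobSystem W p}
  {σ : W.K →+* ℂ} [Fact p.Prime]

section lin

/-- A finite family of vectors closed under negation spans a space of dimension at most half of the
number of its members. -/
lemma two_mul_finrank {V L : Type*} [AddCommGroup V] [Module ℚ V] [Finite L] (c : L → V)
    (h : ∀ l, ∃ l', c l' = -c l) :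
    2 * Module.finrank ℚ (Submodule.span ℚ (Set.range c)) ≤ Nat.card L := by
  classical
  have hft : Fintype L := Fintype.ofFinite L
  obtain ⟨b, hb1, hb2, hb3⟩ := exists_linearIndependent ℚ (Set.range c)
  have hbfin : b.Finite := (Set.finite_range c).subset hb1
  have : Fintype b := hbfin.fintype
  have h1 : Module.finrank ℚ (Submodule.span ℚ (Set.range c)) = Fintype.card b := by
    rw [← hb2]
    have h2 := finrank_span_eq_card (R := ℚ) hb3
    rwa [Subtype.range_coe] at h2
  rw [h1, Nat.card_eq_fintype_card]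
  choose f hf using fun v : b => hb1 v.2
  choose f' hf' using fun v : b => h (f v)
  have hne : ∀ v : b, (v : V) ≠ 0 := fun v => hb3.ne_zero v
  have hnn : ∀ v w : b, (v : V) ≠ -(w : V) := by
    intro v w hvw
    by_cases hvw' : v = w
    · subst hvw'
      have h2 : (2 : ℚ) • (v : V) = 0 := by
        rw [two_smul]
        nth_rewrite 1 [hvw]
        rw [neg_add_cancel]
      rcases smul_eq_zero.1 h2 with h3 | h3
      · norm_num at h3
      · exact hne v h3
    · have hli : LinearIndependent ℚ ![(v : V), (w : V)] := by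
        have h0 := hb3.comp ![v, w] (by
          intro a a' haa
          fin_cases a <;> fin_cases a'
          · rfl
          · exact absurd haa hvw'
          · exact absurd haa.symm hvw'
          · rfl)
        have e : (Subtype.val ∘ ![v, w] : Fin 2 → V) = ![(v : V), (w : V)] := by
          funext a
          fin_cases a <;> rfl
        rwa [e] at h0
      have h2 := LinearIndependent.pair_iff.1 hli 1 1 (by
        rw [one_smul, one_smul, hvw, neg_add_cancel])
      exact one_ne_zero h2.1
  have hinj : Function.Injective (fun x : b × Bool => if x.2 then f x.1 else f' x.1) := by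
    rintro ⟨v, s⟩ ⟨w, t⟩ hvw
    cases s <;> cases t <;> simp only [if_true, if_false, Bool.false_eq_true] at hvw
    · have h2 := congrArg c hvw
      rw [hf', hf', hf, hf, neg_inj] at h2
      rw [Subtype.ext h2]
    · have h2 := congrArg c hvw
      rw [hf', hf, hf] at h2
      exact absurd h2.symm (hnn w v)
    · have h2 := congrArg c hvw
      rw [hf', hf, hf] at h2
      exact absurd h2 (hnn v w)
    · have h2 := congrArg c hvw
      rw [hf, hf] at h2
      rw [Subtype.ext h2]
  have h3 := Fintype.card_le_of_injective _ hinj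
  rw [Fintype.card_prod, Fintype.card_bool] at h3
  omega

end lin

section

variable {ι : Type v} [Finite ι] {B : HBasis W A ι} {lam : ι → W.K}

/-- The span of the classes of the letters of degree one. -/
noncomputable def v1 (σ : W.K →+* ℂ) (hB : IsEig Φ B lam) : Submodule ℚ (QL (pu p (pC Φ))) :=
  Submodule.span ℚ (Set.range fun l : {l : ι // B.deg l = 1} => cls (pu p (pC Φ)) (ul σ hB l.1))

omit [Finite ι] in
lemma gr_eq_span (B : HBasis W A ι) [Finite ι] (i : ℕ) :
    W.gr A i = Submodule.span W.K (Set.range fun l : {l : ι // B.deg l = i} => B.b l.1) := by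
  have hft : Fintype ι := Fintype.ofFinite ι
  apply le_antisymm
  · intro x hx
    rw [← B.b.sum_repr x]
    refine Submodule.sum_mem _ fun l _ => ?_
    by_cases h : B.deg l = i
    · exact Submodule.smul_mem _ _ (Submodule.subset_span ⟨⟨l, h⟩, rfl⟩)
    · rw [repr_zero (W.isInternal A).submodule_iSupIndep B.b B.deg B.mem hx h, zero_smul]
      exact Submodule.zero_mem _
  · rw [Submodule.span_le]
    rintro _ ⟨l, rfl⟩
    have := B.mem l.1
    rwa [l.2] at this

lemma card_deg (B : HBasis W A ι) (i : ℕ) :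
    Nat.card {l : ι // B.deg l = i} = Module.finrank W.K (W.gr A i) := by
  classical
  have hft : Fintype ι := Fintype.ofFinite ι
  rw [gr_eq_span B i, Nat.card_eq_fintype_card]
  exact (finrank_span_eq_card (B.b.linearIndependent.comp (fun l : {l : ι // B.deg l = i} => l.1)
    Subtype.val_injective)).symm

/-- The classes of all letters are generated by the classes of the letters of degree one. -/
lemma cls_mem_v1 (hB : IsEig Φ B lam) (hgen : Algebra.adjoin W.K (W.gr A 1 : Set (W.H A)) = ⊤)
    (l : ι) : cls (pu p (pC Φ)) (ul σ hB l) ∈ v1 σ hB := by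
  set s : Set (W.H A) := Set.range fun l : {l : ι // B.deg l = 1} => B.b l.1 with hs
  have h1 : (Algebra.adjoin W.K s).toSubmodule = ⊤ := by
    rw [← Algebra.adjoin_span, hs, ← gr_eq_span B 1, hgen, Algebra.top_toSubmodule]
  rw [Algebra.adjoin_eq_span] at h1
  -- the words are generalised eigenvectors
  have h2 : ∀ w ∈ Submonoid.closure s, ∃ (μ : W.K) (u : ℂˣ), (u : ℂ) = σ μ ∧
      w ∈ (frob Φ A 1).maxGenEigenspace μ ∧ cls (pu p (pC Φ)) u ∈ v1 σ hB := by
    intro w hw
    induction hw using Submonoid.closure_induction with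
    | mem w hw =>
      obtain ⟨l, rfl⟩ := hw
      exact ⟨lam l.1, ul σ hB l.1, rfl, hB l.1, Submodule.subset_span ⟨l, rfl⟩⟩
    | one =>
      refine ⟨1, 1, by rw [map_one, Units.val_one], ?_, by rw [cls_one]; exact Submodule.zero_mem _⟩
      rw [Module.End.mem_maxGenEigenspace]
      refine ⟨1, ?_⟩
      rw [pow_one, LinearMap.sub_apply, LinearMap.smul_apply, Module.End.one_apply, one_smul,
        frob_one', sub_self]
    | mul x y _ _ hx hy =>
      obtain ⟨μ, u, hu, h3, h4⟩ := hx
      obtain ⟨ν, t, ht, h5, h6⟩ := hy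
      refine ⟨μ * ν, u * t, by rw [map_mul, Units.val_mul, hu, ht], ?_, by
        rw [cls_mul]; exact Submodule.add_mem _ h4 h6⟩
      exact gen_bilin (β := LinearMap.mul W.K (W.H A)) (fun a b => (frob_mul' Φ _ a b).symm) h3 h5
  have h3 : ∃ w ∈ Submonoid.closure s, w ∈ (frob Φ A 1).maxGenEigenspace (lam l) ∧
      ∃ u : ℂˣ, (u : ℂ) = σ (lam l) ∧ cls (pu p (pC Φ)) u ∈ v1 σ hB := by
    by_contra hcon
    push Not at hcon
    have h4 : (⊤ : Submodule W.K (W.H A)) ≤ ⨆ μ ≠ lam l, (frob Φ A 1).maxGenEigenspace μ := by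
      rw [← h1, Submodule.span_le]
      intro w hw
      obtain ⟨μ, u, hu, h5, h6⟩ := h2 w hw
      have hne : μ ≠ lam l := by
        rintro rfl
        exact hcon w hw h5 u hu h6
      exact (le_iSup₂_of_le (f := fun μ (_ : μ ≠ lam l) => (frob Φ A 1).maxGenEigenspace μ) μ hne
        le_rfl) h5
    have h5 := Module.End.independent_maxGenEigenspace (frob Φ A 1) (lam l)
    exact B.b.ne_zero l ((Submodule.disjoint_def.1 h5) _ (hB l) (h4 Submodule.mem_top))
  obtain ⟨-, -, -, u, hu, h4⟩ := h3
  have h5 : ul σ hB l = u := Units.ext hu.symm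
  rw [h5]
  exact h4

/-- The partner of a letter of degree one. -/
lemma exists_partner (hB : IsEig Φ B lam) {D : A.Cycles} (hD : A.IsCyc 1 D)
    (hHL : HardLefschetz W A D) {l : ι} (hl : B.deg l = 1) :
    ∃ m, B.deg m = 1 ∧ cls (pu p (pC Φ)) (ul σ hB m) = -cls (pu p (pC Φ)) (ul σ hB l) := by
  have hft : Fintype ι := Fintype.ofFinite ι
  obtain ⟨n, h1, h2, h3⟩ := exists_dual hB l
  have hdim : 1 ≤ A.dim := by omega
  obtain ⟨x, hx, hx'⟩ := (hHL 1 hdim).2 (B.b n) (by
    have := B.mem n
    rwa [show B.deg n = 2 * A.dim - 1 by omega] at this)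
  -- expand `x`
  have h4 : ∃ m, B.deg m = 1 ∧
      W.tr A (((LinearMap.mulLeft W.K (W.cl A D)) ^ (A.dim - 1)) (B.b m) * B.b l) ≠ 0 := by
    by_contra hcon
    push Not at hcon
    apply h1
    rw [← hx', ← B.b.sum_repr x, map_sum, Finset.sum_mul, map_sum]
    refine Finset.sum_eq_zero fun m _ => ?_
    by_cases hm : B.deg m = 1
    · rw [map_smul, smul_mul_assoc, map_smul, hcon m hm, smul_zero]
    · rw [repr_zero (W.isInternal A).submodule_iSupIndep B.b B.deg B.mem hx hm, zero_smul,
        map_zero, zero_mul, map_zero]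
  obtain ⟨m, hm, h5⟩ := h4
  obtain ⟨s, hs, h6⟩ := Φ.cyc hD
  -- the eigenvalue of the product
  have h7 : ∀ r : ℕ, ((LinearMap.mulLeft W.K (W.cl A D)) ^ r) (B.b m) ∈
      (frob Φ A s).maxGenEigenspace ((card Φ A s : W.K) ^ r * lam m ^ s) := by
    intro r
    induction r with
    | zero =>
      rw [pow_zero, pow_zero, one_mul, Module.End.one_apply]
      exact basis_gen hB s m
    | succ r ih =>
      rw [pow_succ' (LinearMap.mulLeft W.K (W.cl A D)) r, Module.End.mul_apply,
        LinearMap.mulLeft_apply, pow_succ' (card Φ A s : W.K) r, mul_assoc]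
      refine gen_bilin (β := LinearMap.mul W.K (W.H A)) (fun a b => (frob_mul' Φ _ a b).symm) ?_ ih
      rw [Module.End.mem_maxGenEigenspace]
      refine ⟨1, ?_⟩
      rw [pow_one, LinearMap.sub_apply, LinearMap.smul_apply, Module.End.one_apply, frob_apply, h6,
        sub_eq_zero]
      congr 1
      rw [W534.card]
      push_cast
      rw [mul_one]
  have h8 : ((LinearMap.mulLeft W.K (W.cl A D)) ^ (A.dim - 1)) (B.b m) * B.b l ∈
      (frob Φ A s).maxGenEigenspace
        ((card Φ A s : W.K) ^ (A.dim - 1) * lam m ^ s * lam l ^ s) :=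
    gen_bilin (β := LinearMap.mul W.K (W.H A)) (fun a b => (frob_mul' Φ _ a b).symm) (h7 _)
      (basis_gen hB s l)
  have h9 : (card Φ A s : W.K) ^ (A.dim - 1) * lam m ^ s * lam l ^ s =
      (card Φ A s : W.K) ^ A.dim := by
    set q : W.K := (card Φ A s : W.K) ^ A.dim with hq
    set μ := (card Φ A s : W.K) ^ (A.dim - 1) * lam m ^ s * lam l ^ s with hμ
    have h10 : W.tr A (((LinearMap.mulLeft W.K (W.cl A D)) ^ (A.dim - 1)) (B.b m) * B.b l) ∈
        (q • (1 : Module.End W.K W.K)).maxGenEigenspace μ := by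
      refine gen_semi (f := frob Φ A s) (θ := W.tr A) (fun x => ?_) h8
      rw [LinearMap.smul_apply, Module.End.one_apply, frob_apply, tr_iter, smul_eq_mul, hq,
        W534.card]
      push_cast
      rw [← pow_mul]
    obtain ⟨N, hN⟩ := (Module.End.mem_maxGenEigenspace _ _ _).1 h10
    have hE : q • (1 : Module.End W.K W.K) - μ • (1 : Module.End W.K W.K) =
        (q - μ) • (1 : Module.End W.K W.K) := (_root_.sub_smul _ _ _).symm
    rw [hE, _root_.smul_pow, one_pow, LinearMap.smul_apply, Module.End.one_apply,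
      smul_eq_mul] at hN
    rcases mul_eq_zero.1 hN with h11 | h11
    · by_contra hne
      exact pow_ne_zero N (sub_ne_zero.2 (Ne.symm hne)) h11
    · exact absurd h11 h5
  refine ⟨m, hm, ?_⟩
  have hc0 : (card Φ A s : W.K) ≠ 0 := card_ne Φ s
  have h10 : lam m ^ s * lam l ^ s = (card Φ A s : W.K) := by
    apply mul_left_cancel₀ (pow_ne_zero (A.dim - 1) hc0)
    rw [← mul_assoc, h9, ← pow_succ, Nat.sub_add_cancel hdim]
  have h11 : cls (pu p (pC Φ)) (ul σ hB m * ul σ hB l) = 0 := by
    rw [cls_zero_iff, Units.val_mul]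
    refine ppower_of_pow hs ⟨1, one_pos, ((Φ.e A * s : ℕ) : ℤ), ?_⟩
    have h12 : ((ul σ hB m : ℂ) * (ul σ hB l : ℂ)) ^ s = σ (lam m ^ s * lam l ^ s) := by
      rw [mul_pow, map_mul, map_pow, map_pow]
      rfl
    rw [pow_one, h12, h10, map_natCast, zpow_natCast, W534.card]
    push_cast
    rfl
  rw [cls_mul] at h11
  exact eq_neg_of_add_eq_zero_left h11

end

/-- **The rank of an abelian variety is at most its dimension.** -/
theorem finrank_abelian [IsAlgClosed W.K] {g : ℕ} (hA : IsAbelian W A g) :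
    Module.finrank ℚ (vZ Φ σ A) ≤ g := by
  obtain ⟨ι, hfin, B, lam, hB⟩ := exists_ebasis Φ A
  obtain ⟨D, hD, hHL⟩ := hA.lef
  have h1 : vZ Φ σ A ≤ v1 σ hB := by
    rw [vZ, vS, Submodule.span_le]
    rintro _ ⟨z, ⟨i, hi⟩, rfl⟩
    obtain ⟨l, hl⟩ := exists_letter hB hi
    have h2 : z = ul σ hB l := Units.ext hl.symm
    rw [h2]
    exact cls_mem_v1 hB (Algebra.eq_top_iff.2 hA.gen) l
  have h2 : 2 * Module.finrank ℚ (v1 σ hB) ≤ 2 * g := by
    rw [← show Module.finrank W.K (W.gr A 1) = 2 * g from hA.betti, ← card_deg B 1]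
    refine two_mul_finrank _ fun l => ?_
    obtain ⟨m, hm, h3⟩ := exists_partner (σ := σ) hB hD hHL l.2
    exact ⟨⟨m, hm⟩, h3⟩
  have h3 : FiniteDimensional ℚ (v1 σ hB) := FiniteDimensional.span_of_finite ℚ (Set.finite_range _)
  have h4 := Submodule.finrank_mono h1
  omega

end Pool.Agent.R919.FF
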