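import Pool.Agent.R919.FF.Abel

/-!
# Products of abelian varieties with ordinary elliptic curves over finite fields
-/

set_option autoImplicit false
set_option linter.unusedSectionVars false

open CategoryTheory AlgebraicGeometry Module
open scoped TensorProduct

universe u v w

namespace Pool.Agent.R919.FF

open Pool.Agent.H914 Pool.Agent.W534 VarClass Obj WeilCohomology Pool.Agent.H281R3.HT
open Pool.Agent.Y163 (HBasis)
open Pool.Agent.R940 (IsEig repr_zero root_charpoly exists_ebasis)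
open Pool.Agent.R936 (exists_dual)
open Pool.Agent.Y133.Half (spanCycles_of_algSpan)
open Pool.Agent.W536.RR (algSpan_map algSpan_mul one_mem_algSpan algSpan_push)

variable {k : Type u} [Field k] {𝒱 : VarClass k} {ops : CycleOps 𝒱}
  {W : WeilCohomology.{u, v} ops} {X Y Z U A : 𝒱.Obj} {p : ℕ} {Φ : FrobSystem W p}
  {σ : W.K →+* ℂ} [Fact p.Prime]

lemma one_mem_span : (1 : W.H X) ∈ spanCycles W X (0 : ℕ) := by
  refine spanCycles_of_algSpan one_mem_algSpan ?_
  exact W.one_mem X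

/-- The algebraic classes on curves. -/
lemma hasAll_curve [IsAlgClosed W.K] (hdim : X.dim = 1) (hS : Sat Φ σ X)
    (h1 : (1 : W.H X) ≠ 0) : HasAll W X := by
  obtain ⟨ι, hfin, B, lam, hB⟩ := exists_ebasis Φ X
  have hft : Fintype ι := Fintype.ofFinite ι
  have h2 : ∃ l, W.tr X (B.b l) ≠ 0 := by
    by_contra hcon
    push Not at hcon
    apply h1
    apply W.nondeg
    intro y
    rw [one_mul, ← B.b.sum_repr y, map_sum]
    exact Finset.sum_eq_zero fun l _ => by rw [map_smul, hcon, smul_zero]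
  obtain ⟨l, hl⟩ := h2
  have hdeg : B.deg l = 2 := by
    by_contra hne
    exact hl (W.tr_eq_zero (B.mem l) (by omega))
  obtain ⟨m, h3, h4, -⟩ := exists_dual hB l
  have h5 := tr_rel hB h3
  rw [lam_deg_zero hB (by omega), one_mul, hdim, pow_one] at h5
  have h6 : B.b l ∈ algSpan W X := by
    refine hS 1 one_pos (lam l) ?_ (hB l)
    rw [h5, map_natCast]
    refine ⟨1, one_pos, ((Φ.e X : ℕ) : ℤ), ?_⟩
    rw [pow_one, zpow_natCast]
    push_cast
    rfl
  have h7 : B.b l ∈ spanCycles W X (1 : ℕ) := by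
    refine spanCycles_of_algSpan h6 ?_
    have := B.mem l
    rwa [hdeg] at this
  intro i hi
  rw [hdim] at hi ⊢
  obtain rfl | rfl : i = 0 ∨ i = 1 := by omega
  · exact ⟨1, one_mem_span, B.b l, h7, by rwa [one_mul]⟩
  · exact ⟨B.b l, h7, 1, one_mem_span, by rwa [mul_one]⟩

lemma OrdinaryElliptic.one_ne {a : ℤ} (h : OrdinaryElliptic Φ σ X a) : (1 : W.H X) ≠ 0 := by
  intro h0
  have hdeg : (frobPoly Φ σ X 1 1).natDegree = 2 := by
    rw [h.frob]
    compute_degree!
  rw [frobPoly_eq, Polynomial.natDegree_map, LinearMap.charpoly_natDegree] at hdeg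
  have h1 : W.gr X 1 = ⊥ := by
    rw [eq_bot_iff]
    intro x _
    rw [Submodule.mem_bot, ← one_mul x, h0, zero_mul]
  rw [h1, finrank_bot] at hdeg
  omega

section

variable {I : Type w} {E : I → 𝒱.Obj} {a : I → ℤ} {F : Finset I} {Q : 𝒱.Obj}

lemma hasAll_power (h : HasAll W X) : ∀ n, HasAll W (power X n)
  | 0 => h
  | n + 1 => h.prod (hasAll_power h n)

lemma hasAll_mixed (h : ∀ i, HasAll W (E i)) (hQ : IsMixed E F Q) : HasAll W Q := by
  induction hQ with
  | one i n => exact hasAll_power (h i) n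
  | cons i n F Q hi hQ ih => exact (hasAll_power (h i) n).prod ih

/-- The few members which are not independent of a given variety. -/
theorem exists_few' [IsAlgClosed W.K] {X : I → 𝒱.Obj}
    (hind : IndependentModP p fun i => mulSpan (eigenvalues Φ σ (X i))) {U : 𝒱.Obj} {R : ℕ}
    (hU : Module.finrank ℚ (vZ Φ σ U) ≤ R) :
    ∃ S : Finset I, S.card ≤ R ∧ ∀ (F : Finset I) (Q : 𝒱.Obj), IsMixed X F Q → Disjoint F S →
      ∀ V : 𝒱.Obj, GeneratedBy Φ σ U V → Disjoint (vZ Φ σ Q) (vZ Φ σ V) := by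
  have h1 : iSupIndep fun i => vZ Φ σ (X i) := iSupIndep_of hind
  have hfin : (eigenvalues Φ σ U).Finite := eigenvalues_finite Φ σ U
  have : Finite (eigenvalues Φ σ U) := hfin
  have hfd : FiniteDimensional ℚ (vZ Φ σ U) := vS_finite
  obtain ⟨S, hS, hS'⟩ := pivot (fun i => vZ Φ σ (X i)) h1 (vZ Φ σ U) R Set.univ
    ((Submodule.finrank_mono inf_le_left).trans hU)
  refine ⟨S, hS, fun F Q hQ hFS V hV => ?_⟩
  have h2 : vZ Φ σ Q ≤ ⨆ i ∈ Set.univ \ (S : Set I), vZ Φ σ (X i) := by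
    refine (vZ_mixed hQ).trans (iSup₂_le fun i hi => ?_)
    exact le_iSup₂_of_le (f := fun i (_ : i ∈ Set.univ \ (S : Set I)) => vZ Φ σ (X i)) i
      ⟨Set.mem_univ _, fun h => Finset.disjoint_left.1 hFS hi h⟩ le_rfl
  exact Disjoint.mono h2 (generated_le hV) (disjoint_iff.2 hS').symm

end

/-- **The Tate conjecture for the products of an abelian variety of dimension `g` with the powers of
all but `g` ordinary elliptic curves.** -/
theorem final_abelian (W : WeilCohomology.{u, v} ops) [IsAlgClosed W.K] (σ : W.K →+* ℂ)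
    (p : ℕ) (hp : p.Prime) (Φ : FrobSystem W p) (hRH : ∀ Z : 𝒱.Obj, RiemannHyp Φ σ Z)
    {I : Type w} (E : I → 𝒱.Obj) (a : I → ℤ) (hE : EllipticFamily Φ σ E a) :
    (∀ (A : 𝒱.Obj) (g : ℕ), IsAbelian W A g → SplitOff Φ σ E A g) ∧
    ∀ (U : 𝒱.Obj) (R : ℕ), RankModLe p (eigenvalues Φ σ U) R → SplitOff Φ σ E U R := by
  obtain ⟨hE, hD⟩ := hE
  have : Fact p.Prime := ⟨hp⟩
  have hind := independent_of_elliptic hRH hE hD
  have hsat : ∀ i n, Sat Φ σ (power (E i) n) := fun i n =>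
    sat_of_pole (hRH _) (tatePowers_of_curve hRH ((hE i).maximal (hRH _)) n).1
      (tatePowers_of_curve hRH ((hE i).maximal (hRH _)) n).2
  have h1 : iSupIndep fun i => vZ Φ σ (E i) := iSupIndep_of hind
  have hall : ∀ i, HasAll W (E i) := fun i => hasAll_curve (hE i).dim (hsat i 0) (hE i).one_ne
  have key : ∀ (U : 𝒱.Obj) (R : ℕ), Module.finrank ℚ (vZ Φ σ U) ≤ R →
      ∃ S : Finset I, S.card ≤ R ∧
      ∀ (F : Finset I) (Q : 𝒱.Obj), IsMixed E F Q → Disjoint F S →
        (∀ n, TateIff Φ Q (power U n)) ∧ ∀ V, GeneratedBy Φ σ U V → TateIff Φ Q V := by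
    intro U R hU
    obtain ⟨S, hS, h2⟩ := exists_few' hind hU
    refine ⟨S, hS, fun F Q hQ hFS => ?_⟩
    have h3 : ∀ V, GeneratedBy Φ σ U V → TateIff Φ Q V := fun V hV =>
      tateIff_of hRH (sat_mixed h1 hsat hQ) (hasAll_mixed hall hQ) (h2 F Q hQ hFS V hV)
    exact ⟨fun n => h3 _ (generated_power U n), h3⟩
  exact ⟨fun A g hA => key A g (finrank_abelian hA), fun U R hU =>
    key U R (finrank_vS (eigenvalues_finite Φ σ U) hU)⟩

end Pool.Agent.R919.FF
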