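import Pool.Agent.R919.FF.Word2

/-!
# Powers of curves whose Frobenius eigenvalues have maximal rank
-/

set_option autoImplicit false
set_option linter.unusedSectionVars false

open CategoryTheory AlgebraicGeometry Module
open scoped TensorProduct

universe u v w

namespace Pool.Agent.R919.FF

open Pool.Agent.H914 Pool.Agent.W534 VarClass Obj WeilCohomology Pool.Agent.H281R3.HT
open Pool.Agent.Y163 (HBasis)
open Pool.Agent.R940 (IsEig gen_semi gen_bilin frob_mul' repr_zero root_charpoly exists_ebasis)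
open Pool.Agent.R936 (exists_dual)
open Pool.Agent.W536.RR (algSpan_map algSpan_mul one_mem_algSpan)

variable {k : Type u} [Field k] {𝒱 : VarClass k} {ops : CycleOps 𝒱}
  {W : WeilCohomology.{u, v} ops} {X Y Z U : 𝒱.Obj} {p : ℕ} {Φ : FrobSystem W p}
  {σ : W.K →+* ℂ} [Fact p.Prime]

/-- There are no eigenvalues of odd weight. -/
lemma Sat.no_odd [IsAlgClosed W.K] (h : Sat Φ σ Z) {i : ℕ} (hi : Odd i) {z : ℂ}
    (hz : (frobPoly Φ σ Z 1 i).IsRoot z) : ¬ PPower p z := by
  intro hp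
  rw [frobPoly_eq] at hz
  have hmon : ((frobOn Φ Z 1 i).charpoly.map σ).Monic := (LinearMap.charpoly_monic _).map σ
  have h0 : z ∈ ((frobOn Φ Z 1 i).charpoly.map σ).roots :=
    (Polynomial.mem_roots hmon.ne_zero).2 hz
  rw [(IsAlgClosed.splits (frobOn Φ Z 1 i).charpoly).roots_map σ, Multiset.mem_map] at h0
  obtain ⟨ν, hν, rfl⟩ := h0
  have h1 : (frobOn Φ Z 1 i).HasEigenvalue ν :=
    (Module.End.hasEigenvalue_iff_isRoot_charpoly _ _).2 (Polynomial.isRoot_of_mem_roots hν)
  obtain ⟨v, hv⟩ := h1.exists_hasEigenvector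
  have hv1 : frob Φ Z 1 (v : W.H Z) = ν • (v : W.H Z) :=
    congrArg Subtype.val (Module.End.mem_eigenspace_iff.1 hv.1)
  have h2 : (v : W.H Z) ∈ (frob Φ Z 1).maxGenEigenspace ν := by
    rw [Module.End.mem_maxGenEigenspace]
    refine ⟨1, ?_⟩
    rw [pow_one, LinearMap.sub_apply, LinearMap.smul_apply, Module.End.one_apply, hv1, sub_self]
  have h3 : (v : W.H Z) ∈ algSpan W Z := h 1 one_pos ν hp h2
  have h4 : algSpan W Z ≤ ⨆ j ≠ i, W.gr Z j := by
    refine Submodule.span_le.2 fun c hc => ?_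
    obtain ⟨j, hj⟩ := Set.mem_iUnion.1 hc
    obtain ⟨y, hy, rfl⟩ := hj
    have hne : 2 * j ≠ i := by
      rintro rfl
      exact (Nat.not_even_iff_odd.2 hi) (even_two_mul j)
    exact (le_iSup₂_of_le (f := fun j (_ : j ≠ i) => W.gr Z j) (2 * j) hne le_rfl) (W.cl_mem hy)
  have h5 := (W.isInternal Z).submodule_iSupIndep i
  exact hv.2 (Subtype.ext ((Submodule.disjoint_def.1 h5) _ v.2 (h4 h3)))

lemma tatePowers_of_sat [IsAlgClosed W.K] (hRH : ∀ Z : 𝒱.Obj, RiemannHyp Φ σ Z)
    (h : ∀ n, Sat Φ σ (power X n)) : TatePowers Φ σ X := fun n =>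
  ⟨fun _ hj => (h n).pole (hRH _) hj, fun _ hi _ hz => (h n).no_odd hi hz⟩

section

variable {ι : Type v} [Finite ι] {B : HBasis W X ι} {lam : ι → W.K}

lemma norm_lam (hRH : RiemannHyp Φ σ X) (hB : IsEig Φ B lam) (l : ι) :
    ‖σ (lam l)‖ ^ 2 = ((p ^ Φ.e X : ℕ) : ℝ) ^ B.deg l := by
  have h1 := hRH 1 one_pos (B.deg l) (σ (lam l)) (by
    rw [frobPoly_eq]
    exact (root_charpoly hB l).map)
  rw [h1, W534.card, mul_one]

lemma deg_eq_of_lam (hRH : RiemannHyp Φ σ X) (hB : IsEig Φ B lam) {l m : ι}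
    (h : lam m = lam l) : B.deg m = B.deg l := by
  have h1 := norm_lam hRH hB l
  have h2 := norm_lam hRH hB m
  rw [h, h1] at h2
  have hp1 : (1 : ℝ) < ((p ^ Φ.e X : ℕ) : ℝ) := by
    exact_mod_cast Nat.one_lt_pow (Φ.e_pos X).ne' (Fact.out : p.Prime).one_lt
  exact (pow_right_injective₀ (zero_lt_one.trans hp1) hp1.ne' h2).symm

lemma unique_deg_zero {l m : ι} (hl : B.deg l = 0) (hm : B.deg m = 0) : m = l := by
  classical
  by_contra hne
  have h1 : ∀ n, B.deg n = 0 → ∃ c : W.K, B.b n = c • 1 := by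
    intro n hn
    have h2 := B.mem n
    rw [hn, W.gr_zero, Submodule.mem_span_singleton] at h2
    obtain ⟨c, hc⟩ := h2
    exact ⟨c, hc.symm⟩
  obtain ⟨c, hc⟩ := h1 l hl
  obtain ⟨d, hd⟩ := h1 m hm
  have hc0 : c ≠ 0 := by
    rintro rfl
    rw [zero_smul] at hc
    exact B.b.ne_zero l hc
  have h2 : B.b m = (d * c⁻¹) • B.b l := by
    rw [hc, hd, smul_smul, mul_assoc, inv_mul_cancel₀ hc0, mul_one]
  have h3 := congrArg (fun x => B.b.repr x m) h2
  simp only [map_smul, Module.Basis.repr_self, Finsupp.smul_apply, Finsupp.single_eq_same,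
    smul_eq_mul] at h3
  rw [Finsupp.single_eq_of_ne hne, mul_zero] at h3
  exact one_ne_zero h3

lemma lam_deg_zero (hB : IsEig Φ B lam) {l : ι} (hl : B.deg l = 0) : lam l = 1 := by
  by_contra hne
  have h2 := B.mem l
  rw [hl, W.gr_zero, Submodule.mem_span_singleton] at h2
  obtain ⟨c, hc⟩ := h2
  have h1 : B.b l ∈ (frob Φ X 1).maxGenEigenspace 1 := by
    rw [Module.End.mem_maxGenEigenspace]
    refine ⟨1, ?_⟩
    rw [pow_one, LinearMap.sub_apply, LinearMap.smul_apply, Module.End.one_apply, one_smul, ← hc,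
      map_smul, R940.frob_one', sub_self]
  have h3 := repr_zero (Module.End.independent_maxGenEigenspace (frob Φ X 1)) B.b lam hB h1 hne
  rw [Module.Basis.repr_self, Finsupp.single_eq_same] at h3
  exact one_ne_zero h3

lemma mem_frobOn (hB : IsEig Φ B lam) (l : ι) : (⟨B.b l, B.mem l⟩ : W.gr X (B.deg l)) ∈
    (frobOn Φ X 1 (B.deg l)).maxGenEigenspace (lam l) := by
  obtain ⟨n, hn⟩ := (Module.End.mem_maxGenEigenspace _ _ _).1 (hB l)
  rw [Module.End.mem_maxGenEigenspace]
  refine ⟨n, Subtype.ext ?_⟩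
  have key : ∀ (n : ℕ) (w : W.gr X (B.deg l)),
      ((((frobOn Φ X 1 (B.deg l) - lam l • 1) ^ n) w : W.gr X (B.deg l)) : W.H X) =
        ((frob Φ X 1 - lam l • 1) ^ n) (w : W.H X) := by
    intro n
    induction n with
    | zero => intro w; rfl
    | succ n ih =>
      intro w
      rw [pow_succ, pow_succ, Module.End.mul_apply, Module.End.mul_apply, ih]
      rfl
  rw [key]
  exact hn

/-- Different letters of the same degree with the same eigenvalue. -/
lemma unique_of_nodup (hB : IsEig Φ B lam) {l m : ι} (hdeg : B.deg m = B.deg l)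
    (hlam : lam m = lam l) (hnd : (frobPoly Φ σ X 1 (B.deg l)).roots.Nodup) : m = l := by
  classical
  by_contra hne
  set V := (frobOn Φ X 1 (B.deg l)).maxGenEigenspace (lam l) with hV
  have h1 : (⟨B.b l, B.mem l⟩ : W.gr X (B.deg l)) ∈ V := mem_frobOn hB l
  have h2 : (⟨B.b m, hdeg ▸ B.mem m⟩ : W.gr X (B.deg l)) ∈ V := by
    have h3 := mem_frobOn hB m
    rw [hlam] at h3
    have h4 : ∀ (d : ℕ) (hd : B.deg m = d) (hmem : B.b m ∈ W.gr X d),
        (⟨B.b m, hmem⟩ : W.gr X d) ∈ (frobOn Φ X 1 d).maxGenEigenspace (lam l) := by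
      intro d hd hmem
      subst hd
      exact h3
    exact h4 _ hdeg _
  have h3 : LinearIndependent W.K ![(⟨⟨B.b l, B.mem l⟩, h1⟩ : V),
      (⟨⟨B.b m, hdeg ▸ B.mem m⟩, h2⟩ : V)] := by
    refine LinearIndependent.of_comp ((W.gr X (B.deg l)).subtype ∘ₗ V.subtype) ?_
    have e1 : (⇑((W.gr X (B.deg l)).subtype ∘ₗ V.subtype) ∘ ![(⟨⟨B.b l, B.mem l⟩, h1⟩ : V),
        (⟨⟨B.b m, hdeg ▸ B.mem m⟩, h2⟩ : V)]) = B.b ∘ ![l, m] := by
      funext a
      fin_cases a <;> rfl
    rw [e1]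
    refine B.b.linearIndependent.comp _ ?_
    intro a b hab
    fin_cases a <;> fin_cases b
    · rfl
    · exact absurd hab.symm hne
    · exact absurd hab hne
    · rfl
  have h4 : 2 ≤ Module.finrank W.K V := by
    have := h3.fintype_card_le_finrank
    simpa using this
  rw [hV, LinearMap.finrank_maxGenEigenspace_eq] at h4
  rw [frobPoly_eq] at hnd
  have h5 := Multiset.nodup_iff_count_le_one.1 hnd (σ (lam l))
  rw [Polynomial.count_roots, ← Polynomial.eq_rootMultiplicity_map σ.injective] at h5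
  omega

/-- **Powers of curves of maximal rank.** -/
theorem tatePowers_of_curve [IsAlgClosed W.K] (hRH : ∀ Z : 𝒱.Obj, RiemannHyp Φ σ Z)
    (h : MaximalRankCurve Φ σ X) : TatePowers Φ σ X := by
  refine tatePowers_of_sat hRH fun n => ?_
  obtain ⟨ι, hfin, B, lam, hB⟩ := exists_ebasis Φ X
  obtain ⟨g, x, hfree, hroots⟩ := h.free
  have hdim := h.dim
  have hdeg : ∀ l, B.deg l ≤ 2 := by
    intro l
    by_contra hcon
    push Not at hcon
    have h1 := B.mem l
    rw [W.gr_eq_bot X _ (by omega)] at h1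
    exact B.b.ne_zero l ((Submodule.mem_bot _).1 h1)
  have hone : ∀ l, B.deg l = 1 → (frobPoly Φ σ X 1 1).IsRoot (σ (lam l)) := by
    intro l hl
    have key : ∀ d, B.deg l = d → (frobPoly Φ σ X 1 d).IsRoot (σ (lam l)) := by
      rintro d rfl
      rw [frobPoly_eq]
      exact (root_charpoly hB l).map
    exact key 1 hl
  -- degree one
  have hnp : ∀ l, B.deg l = 1 → ¬ PPower p (σ (lam l)) := by
    intro l hl hpp
    have h0 : cls (pu p (pC Φ)) (ul σ hB l) = 0 := cls_zero_iff.2 hpp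
    obtain ⟨i, hi⟩ := hroots _ (hone l hl)
    have h1 : cls (pu p (pC Φ)) (x i) = 0 := by
      rcases hi with hi | hi
      · have h2 : ul σ hB l = x i := Units.ext hi
        rw [← h2, h0]
      · have h2 : cls (pu p (pC Φ)) (ul σ hB l * x i) = 0 := by
          rw [cls_zero_iff, Units.val_mul]
          refine ⟨1, one_pos, ((Φ.e X : ℕ) : ℤ), ?_⟩
          rw [pow_one, zpow_natCast]
          exact hi
        rw [cls_mul, h0, zero_add] at h2
        exact h2
    have h3 : (Pi.single i 1 : Fin g → ℤ) = 0 := by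
      apply hfree
      rw [← cls_zero_iff (hp := pC Φ), ← h1]
      congr 1
      rw [Finset.prod_eq_single i (fun j _ hj => by rw [Pi.single_eq_of_ne hj, zpow_zero])
        (fun h => absurd (Finset.mem_univ i) h), Pi.single_eq_same, zpow_one]
    have h4 := congrFun h3 i
    rw [Pi.single_eq_same, Pi.zero_apply] at h4
    exact one_ne_zero h4
  -- degree zero
  have halg0 : ∀ l, B.deg l = 0 → B.b l ∈ algSpan W X := by
    intro l hl
    have h2 := B.mem l
    rw [hl, W.gr_zero, Submodule.mem_span_singleton] at h2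
    obtain ⟨c, hc⟩ := h2
    rw [← hc]
    exact Submodule.smul_mem _ _ one_mem_algSpan
  -- degree two
  have hdual2 : ∀ l, B.deg l = 2 → ∃ m, B.deg m = 0 ∧ W.tr X (B.b m * B.b l) ≠ 0 := by
    intro l hl
    obtain ⟨m, h1, h2, -⟩ := exists_dual hB l
    exact ⟨m, by omega, h1⟩
  have hlam2 : ∀ l, B.deg l = 2 → lam l = ((p ^ Φ.e X : ℕ) : W.K) := by
    intro l hl
    obtain ⟨m, hm, h1⟩ := hdual2 l hl
    have h2 := tr_rel hB h1
    rw [lam_deg_zero hB hm, one_mul, hdim, pow_one] at h2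
    exact h2
  have halg2 : ∀ l, B.deg l = 2 → B.b l ∈ algSpan W X := by
    intro l hl
    obtain ⟨m, hm, h1⟩ := hdual2 l hl
    have h2 : lam l * lam m = (((p ^ Φ.e X) ^ X.dim : ℕ) : W.K) := by
      rw [mul_comm]
      exact tr_rel hB h1
    have h3 := pair_alg hB (l := m) (m := l) (fun n hn =>
      unique_deg_zero hm ((deg_eq_of_lam (hRH X) hB hn).trans hm)) h2
    have h4 := algSpan_map (Obj.lift (𝟙 X) (𝟙 X)) h3
    rw [ext, map_mul, ← W.map_comp, ← W.map_comp, Obj.lift_fst, Obj.lift_snd, W.map_id,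
      W.map_id] at h4
    have h5 := B.mem m
    rw [hm, W.gr_zero, Submodule.mem_span_singleton] at h5
    obtain ⟨c, hc⟩ := h5
    have hc0 : c ≠ 0 := by
      rintro rfl
      rw [zero_smul] at hc
      exact B.b.ne_zero m hc.symm
    rw [← hc, mul_smul_comm, mul_one] at h4
    have h6 := Submodule.smul_mem _ c⁻¹ h4
    rwa [smul_smul, inv_mul_cancel₀ hc0, one_smul] at h6
  have hpp : ∀ l, B.deg l ≠ 1 → PPower p (σ (lam l)) := by
    intro l hl
    have hl' : B.deg l = 0 ∨ B.deg l = 2 := by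
      have := hdeg l
      omega
    rcases hl' with hl' | hl'
    · rw [lam_deg_zero hB hl', map_one]
      exact ⟨1, one_pos, 0, by simp⟩
    · rw [hlam2 l hl', map_natCast]
      refine ⟨1, one_pos, ((Φ.e X : ℕ) : ℤ), ?_⟩
      rw [pow_one, zpow_natCast]
      push_cast
      rfl
  refine sat_power_of_rank hB (fun l hl => ?_) (fun l m hl hlm => ?_) x hfree (fun l => ?_) n
  · have hl' : B.deg l = 0 ∨ B.deg l = 2 := by
      have h1 := hdeg l
      have h2 : B.deg l ≠ 1 := fun h1 => hnp l h1 hl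
      omega
    rcases hl' with hl' | hl'
    · exact halg0 l hl'
    · exact halg2 l hl'
  · have h1 : B.deg l = 1 := by
      by_contra hne
      exact hl (hpp l hne)
    refine unique_of_nodup (σ := σ) hB (deg_eq_of_lam (hRH X) hB hlm) hlm ?_
    rw [h1]
    exact h.nodup
  · by_cases h1 : B.deg l = 1
    · right
      obtain ⟨i, hi⟩ := hroots _ (hone l h1)
      refine ⟨i, ?_⟩
      rw [hdim, pow_one]
      exact hi
    · exact Or.inl (hpp l h1)

end

end Pool.Agent.R919.FF
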