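import Pool.Agent.W534.PoleDefs

/-!
# Families of varieties over finite fields with independent Frobenius eigenvalues: definitions
-/

set_option autoImplicit false

open CategoryTheory AlgebraicGeometry

universe u v w

namespace Pool.Agent.R919.FF

open Pool.Agent.H914 Pool.Agent.W534 VarClass Obj WeilCohomology

/-- A power of `z` with a positive exponent is an integral power of `p`. -/
def PPower (p : ℕ) (z : ℂ) : Prop :=
  ∃ M : ℕ, 0 < M ∧ ∃ c : ℤ, z ^ M = (p : ℂ) ^ c

/-- The multiplicative group generated by the nonzero elements of the set `S`. -/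
def mulSpan (S : Set ℂ) : Subgroup ℂˣ := Subgroup.closure {z : ℂˣ | (z : ℂ) ∈ S}

/-- The multiplicative group generated by `S` has rank at most `R` modulo the numbers a power of which
is a power of `p`: for any `R + 1` elements of `S` some product of powers, with integral
exponents not all equal to zero, is such a number. -/
def RankModLe (p : ℕ) (S : Set ℂ) (R : ℕ) : Prop :=
  ∀ x : Fin (R + 1) → ℂ, (∀ i, x i ∈ S) →
    ∃ a : Fin (R + 1) → ℤ, a ≠ 0 ∧ PPower p (∏ i, x i ^ a i)

/-- The groups `G i` are independent modulo the numbers a power of which is a power of `p`: if the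
product of finitely many elements of different groups `G i` is such a number, then each factor
is such a number. -/
def IndependentModP {I : Type w} (p : ℕ) (G : I → Subgroup ℂˣ) : Prop :=
  ∀ (F : Finset I) (γ : I → ℂˣ), (∀ i ∈ F, γ i ∈ G i) → PPower p ((∏ i ∈ F, γ i : ℂˣ) : ℂ) →
    ∀ i ∈ F, PPower p (γ i : ℂ)

variable {k : Type u} [Field k] {𝒱 : VarClass k} {ops : CycleOps 𝒱}

/-- The eigenvalues of the Frobenius endomorphism of `X` on the cohomology groups of `X`, as complex
numbers. -/
def eigenvalues {W : WeilCohomology.{u, v} ops} {p : ℕ} (Φ : FrobSystem W p) (σ : W.K →+* ℂ)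
    (X : 𝒱.Obj) : Set ℂ :=
  {z | ∃ i, (frobPoly Φ σ X 1 i).IsRoot z}

/-- The eigenvalues of the Frobenius endomorphism on the cohomology of `V` are generated by those of
`U`, up to powers of `p` and up to roots. -/
def GeneratedBy {W : WeilCohomology.{u, v} ops} {p : ℕ} (Φ : FrobSystem W p) (σ : W.K →+* ℂ)
    (U V : 𝒱.Obj) : Prop :=
  ∀ z ∈ eigenvalues Φ σ V, ∃ M : ℕ, 0 < M ∧ ∃ γ ∈ mulSpan (eigenvalues Φ σ U),
    PPower p (z ^ M * (γ : ℂ))

/-- The product `X × (X × ⋯ × X)` of `n + 1` copies of `X`. -/
noncomputable def power (X : 𝒱.Obj) : ℕ → 𝒱.Obj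
  | 0 => X
  | n + 1 => X.prod (power X n)

/-- The products `X i₁ ^ n₁ × (X i₂ ^ n₂ × ⋯ × X iₘ ^ nₘ)` with `nⱼ ≥ 1` and pairwise different
`i₁, ..., iₘ`; here `F = {i₁, ..., iₘ}`. -/
inductive IsMixed {I : Type w} (X : I → 𝒱.Obj) : Finset I → 𝒱.Obj → Prop
  | one (i : I) (n : ℕ) : IsMixed X {i} (power (X i) n)
  | cons (i : I) (n : ℕ) (F : Finset I) (Q : 𝒱.Obj) (hi : i ∉ F) (hQ : IsMixed X F Q) :
      IsMixed X (Finset.cons i F hi) ((power (X i) n).prod Q)

/-- For all powers of `X` the formula of Tate holds at all integers, and no power of an eigenvalue of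
the Frobenius endomorphism on a cohomology group of odd degree is a power of `p`. -/
def TatePowers {W : WeilCohomology.{u, v} ops} {p : ℕ} (Φ : FrobSystem W p) (σ : W.K →+* ℂ)
    (X : 𝒱.Obj) : Prop :=
  ∀ n : ℕ, (∀ j ≤ (power X n).dim, PoleFormula Φ σ (power X n) j) ∧
    ∀ i, Odd i → ∀ z, (frobPoly Φ σ (power X n) 1 i).IsRoot z → ¬ PPower p z

/-- `X` is a curve (of dimension one), the eigenvalues of the Frobenius endomorphism on `H^1(X)` are
simple, and they have maximal rank modulo `p`: they are among the numbers `x i` and `q / x i`, where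
`q` is the number of elements of the field and the `x i` are multiplicatively independent modulo
the powers of `p`. -/
structure MaximalRankCurve {W : WeilCohomology.{u, v} ops} {p : ℕ} (Φ : FrobSystem W p)
    (σ : W.K →+* ℂ) (X : 𝒱.Obj) : Prop where
  /-- the dimension is one -/
  dim : X.dim = 1
  /-- the eigenvalues are simple -/
  nodup : (frobPoly Φ σ X 1 1).roots.Nodup
  /-- the eigenvalues have maximal rank -/
  free : ∃ (g : ℕ) (x : Fin g → ℂˣ),
    (∀ a : Fin g → ℤ, PPower p ((∏ i, x i ^ a i : ℂˣ) : ℂ) → a = 0) ∧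
    ∀ z, (frobPoly Φ σ X 1 1).IsRoot z → ∃ i, z = x i ∨ z * x i = (p : ℂ) ^ Φ.e X

/-- `X` is a curve (of dimension one), and the characteristic polynomial of the Frobenius
endomorphism over the field with `q` elements on `H^1(X)` is `T ^ 2 - a T + q` with an integer `a`
which is not divisible by `p`; for an elliptic curve this means that it is ordinary, with trace of
Frobenius `a`. -/
structure OrdinaryElliptic {W : WeilCohomology.{u, v} ops} {p : ℕ} (Φ : FrobSystem W p)
    (σ : W.K →+* ℂ) (X : 𝒱.Obj) (a : ℤ) : Prop where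
  /-- the dimension is one -/
  dim : X.dim = 1
  /-- the characteristic polynomial of Frobenius -/
  frob : frobPoly Φ σ X 1 1 = Polynomial.X ^ 2 - Polynomial.C (a : ℂ) * Polynomial.X +
    Polynomial.C ((p : ℂ) ^ Φ.e X)
  /-- the trace is prime to the characteristic -/
  ord : ¬ (p : ℤ) ∣ a

/-- The `X i` are varieties with independent Frobenius eigenvalues, each of which is a curve of
maximal rank, or a variety such that the formula of Tate holds for all its powers; or the `X i` are
ordinary elliptic curves with pairwise different quadratic fields, the fields generated by the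
square roots of `a ^ 2 - 4 q`. -/
def IndependentFamily {W : WeilCohomology.{u, v} ops} {p : ℕ} (Φ : FrobSystem W p)
    (σ : W.K →+* ℂ) {I : Type w} (X : I → 𝒱.Obj) : Prop :=
  (IndependentModP p (fun i => mulSpan (eigenvalues Φ σ (X i))) ∧
    ∀ i, TatePowers Φ σ (X i) ∨ MaximalRankCurve Φ σ (X i)) ∨
  ∃ a : I → ℤ, (∀ i, OrdinaryElliptic Φ σ (X i) (a i)) ∧
    ∀ i j, i ≠ j → ¬ IsSquare ((a i ^ 2 - 4 * (p : ℤ) ^ Φ.e (X i)) *
      (a j ^ 2 - 4 * (p : ℤ) ^ Φ.e (X j)))

end Pool.Agent.R919.FF
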