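import Pool.Agent.R919.FF.Def
import Pool.Agent.H281R3.HT.Defs

/-!
# Polarized products of the powers of different members of a family: definitions
-/

set_option autoImplicit false

open CategoryTheory AlgebraicGeometry

universe u v w

namespace Pool.Agent.R919.FF

open Pool.Agent.H914 Pool.Agent.W534 VarClass Obj WeilCohomology Pool.Agent.H281R3.HT

variable {k : Type u} [Field k] {𝒱 : VarClass k} {ops : CycleOps 𝒱}

/-- `D` is a divisor on `X` of positive degree which satisfies the hard Lefschetz theorem, and `X` is
a curve (of dimension at most one), or the standard conjecture of Hodge type holds for `X` and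
`D`. -/
structure IsHodgePol (W : WeilCohomology.{u, v} ops) (X : 𝒱.Obj) (D : X.Cycles) : Prop where
  /-- it is a divisor -/
  div : X.IsCyc 1 D
  /-- hard Lefschetz -/
  hardLef : HardLefschetz W X D
  /-- the degree is positive -/
  degree : 0 < X.V.degCycle (divPow ops D X.dim X.V.fundCycle)
  /-- the standard conjecture of Hodge type -/
  hodge : X.dim ≤ 1 ∨ HodgeType W X D

/-- The products `X i₁ ^ n₁ × (X i₂ ^ n₂ × ⋯ × X iₘ ^ nₘ)` with `nⱼ ≥ 1` and pairwise different
`i₁, ..., iₘ`, and the divisors which are sums of pull-backs of divisors `Dⱼ` on the `X iⱼ ^ nⱼ`,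
which are polarizations for which the standard conjecture of Hodge type holds (as it does if
`X iⱼ ^ nⱼ` is a curve); here
`F = {i₁, ..., iₘ}`. -/
inductive IsMixedPol {I : Type w} (W : WeilCohomology.{u, v} ops) (X : I → 𝒱.Obj) :
    Finset I → Polarized 𝒱 → Prop
  | one (i : I) (n : ℕ) (D : (power (X i) n).Cycles) (hD : IsHodgePol W (power (X i) n) D) :
      IsMixedPol W X {i} ⟨power (X i) n, D⟩
  | cons (i : I) (n : ℕ) (D : (power (X i) n).Cycles) (hD : IsHodgePol W (power (X i) n) D)
      (F : Finset I) (Q : Polarized 𝒱) (hi : i ∉ F) (hQ : IsMixedPol W X F Q) :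
      IsMixedPol W X (Finset.cons i F hi) (Polarized.prod ops ⟨power (X i) n, D⟩ Q)

/-- For the product `Q × T` with the sum of the pull-backs of the divisors `Q.D` and `T.D` the
standard conjecture of Hodge type holds if and only if it holds for `T`, and the same is true for the
conjecture `A` of Lefschetz type and for the conjecture `D` (homological equivalence is numerical
equivalence). -/
def StandardIff (W : WeilCohomology.{u, v} ops) (Q T : Polarized 𝒱) : Prop :=
  (HodgeType W (Q.prod ops T).X (Q.prod ops T).D ↔ HodgeType W T.X T.D) ∧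
  (LefschetzA W (Q.prod ops T).X (Q.prod ops T).D ↔ LefschetzA W T.X T.D) ∧
  (HomEqNum W (Q.prod ops T).X ↔ HomEqNum W T.X)

end Pool.Agent.R919.FF
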