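import Pool.Agent.R919.FF.Pole
import Pool.Agent.R919.FF.HodgeDef
import Pool.Agent.TH132.A.HMain

/-!
# The standard conjectures for products with independent Frobenius eigenvalues
-/

set_option autoImplicit false

open CategoryTheory AlgebraicGeometry Module
open scoped TensorProduct

universe u v w

namespace Pool.Agent.R919.FF

open Pool.Agent.H914 Pool.Agent.W534 VarClass Obj WeilCohomology Pool.Agent.H281R3.HT
  Pool.Agent.W552 Pool.Agent.TH132.A

variable {k : Type u} [Field k] {𝒱 : VarClass k} {ops : CycleOps 𝒱}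
  {W : WeilCohomology.{u, v} ops} {X U : 𝒱.Obj} {p : ℕ} {Φ : FrobSystem W p}
  {σ : W.K →+* ℂ} [Fact p.Prime]

omit [Fact p.Prime] in
/-- The conjecture of Hodge type is trivial for curves. -/
lemma hodgeType_of_dim {Y : 𝒱.Obj} {D : Y.Cycles} (hdim : Y.dim ≤ 1) (hD : Y.IsCyc 1 D)
    (hdeg : 0 < Y.V.degCycle (divPow ops D Y.dim Y.V.fundCycle)) : HodgeType W Y D := by
  intro j hj z hz _ hz0
  obtain rfl : j = 0 := by omega
  obtain ⟨q, rfl⟩ := cyc_zero hz
  have hq : q ≠ 0 := by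
    rintro rfl
    apply hz0
    rw [zero_smul, map_zero]
  rw [pow_zero, one_mul, mul_zero, Nat.sub_zero]
  have h1 : Y.IsCyc Y.dim (ops.mul (q • Y.V.fundCycle) (divPow ops D Y.dim
      (q • Y.V.fundCycle))) := by
    have h2 := ops.mul_mem hz (divPow_mem (ops := ops) hD Y.dim hz)
    rwa [zero_add, zero_add] at h2
  have h2 : Y.IsCyc Y.dim (divPow ops D Y.dim Y.V.fundCycle) := by
    have h3 := divPow_mem (ops := ops) hD Y.dim Y.V.fundCycle_mem
    rwa [zero_add] at h3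
  have h3 : ((Y.V.degCycle (ops.mul (q • Y.V.fundCycle) (divPow ops D Y.dim
      (q • Y.V.fundCycle))) : ℚ) : W.K) =
      ((q * q * Y.V.degCycle (divPow ops D Y.dim Y.V.fundCycle) : ℚ) : W.K) := by
    rw [← W.tr_cl h1, W.cl_mul, cl_divPow, W.cl_smul, W.cl_fund]
    push_cast
    rw [← W.tr_cl h2, cl_divPow, W.cl_fund, map_smul, smul_mul_assoc, one_mul, smul_smul,
      map_smul, smul_eq_mul]
  rw [Rat.cast_injective (α := W.K) h3]
  have h4 : 0 < q * q := mul_self_pos.2 hq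
  exact mul_pos h4 hdeg

omit [Fact p.Prime] in
lemma IsHodgePol.hodgeType {Y : 𝒱.Obj} {D : Y.Cycles} (h : IsHodgePol W Y D) :
    HodgeType W Y D := by
  rcases h.hodge with h1 | h1
  · exact hodgeType_of_dim h1 h.div h.degree
  · exact h1

section

variable {I : Type w} {X : I → 𝒱.Obj} {F : Finset I} {Q : Polarized 𝒱}

omit [Fact p.Prime] in
lemma IsMixedPol.isMixed (h : IsMixedPol W X F Q) : IsMixed X F Q.X := by
  induction h with
  | one i n D hD => exact IsMixed.one i n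
  | cons i n D hD F Q hi hQ ih => exact IsMixed.cons i n F Q.X hi ih

omit [Fact p.Prime] in
lemma IsMixedPol.lw (h : IsMixedPol W X F Q) : ∃ f, Lw W Q.X Q.D f := by
  induction h with
  | one i n D hD =>
    obtain ⟨f, tf, -⟩ := exists_lw hD.div hD.hardLef
    exact ⟨f, tf⟩
  | cons i n D hD F Q hi hQ ih =>
    obtain ⟨f, tf, -⟩ := exists_lw hD.div hD.hardLef
    obtain ⟨g, tg⟩ := ih
    exact ⟨_, tf.prod tg⟩

omit [Fact p.Prime] in
lemma IsMixedPol.one_ne (h : IsMixedPol W X F Q) : (1 : W.H Q.X) ≠ 0 := by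
  induction h with
  | one i n D hD => exact one_ne_of_deg hD.div hD.degree
  | cons i n D hD F Q hi hQ ih => exact one_prod_ne (one_ne_of_deg hD.div hD.degree) ih

/-- The standard conjecture of Hodge type for the mixed products. -/
theorem IsMixedPol.hodge [IsAlgClosed W.K] (hRH : ∀ Z : 𝒱.Obj, RiemannHyp Φ σ Z)
    (hind : iSupIndep fun i => vZ Φ σ (X i)) (hsat : ∀ i n, Sat Φ σ (power (X i) n))
    (h : IsMixedPol W X F Q) : HodgeType W Q.X Q.D := by
  induction h with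
  | one i n D hD => exact hD.hodgeType
  | cons i n D hD F Q hi hQ ih =>
    obtain ⟨f, tf, hf⟩ := exists_lw hD.div hD.hardLef
    obtain ⟨g₀, tg₀⟩ := hQ.lw
    obtain ⟨g, tg, hg⟩ := exists_lw tg₀.hD tg₀.hl
    have hX : Sat Φ σ (power (X i) n) := hsat i n
    have hdis : Disjoint (vZ Φ σ (power (X i) n)) (vZ Φ σ Q.X) := by
      refine Disjoint.mono (vZ_power (X i) n) (vZ_mixed hQ.isMixed) ?_
      refine (hind i).mono_right (iSup₂_le fun j hj => ?_)
      exact le_iSup₂_of_le (f := fun j (_ : j ≠ i) => vZ Φ σ (X j)) j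
        (fun h => hi (h ▸ hj)) le_rfl
    exact hodge_prod_of (fun z hz => tens_of_splits (hRH _) hX hdis hz) tf hf hD.hardLef
      (stable_of_lefschetzA tf.hD tf.sl2 (lefschetzA_of_D tf.hD hD.hardLef
        (hX.homEqNum (hRH _)))) hD.hodgeType tg hg ih

end

/-- The equivalences for the product with an arbitrary variety. -/
theorem standardIff [IsAlgClosed W.K] (hRH : ∀ Z : 𝒱.Obj, RiemannHyp Φ σ Z) {Q T : Polarized 𝒱}
    (hQ : ∃ f, Lw W Q.X Q.D f) (h1 : (1 : W.H Q.X) ≠ 0) (hH : HodgeType W Q.X Q.D)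
    (hX : Sat Φ σ Q.X) (hdis : Disjoint (vZ Φ σ Q.X) (vZ Φ σ T.X)) (hD : T.X.IsCyc 1 T.D)
    (hHL : HardLefschetz W T.X T.D) : StandardIff W Q T := by
  obtain ⟨f₀, F₀⟩ := hQ
  obtain ⟨f, F, hf⟩ := exists_lw F₀.hD F₀.hl
  obtain ⟨g, G, hg⟩ := exists_lw hD hHL
  have hDX : HomEqNum W Q.X := hX.homEqNum (hRH _)
  have hA : LefschetzA W Q.X Q.D := lefschetzA_of_D F.hD F.hl hDX
  have hS : ∀ z, AS W (Q.X.prod T.X) z → z ∈ tens W Q.X T.X := fun z hz =>
    tens_of_splits (hRH _) hX hdis hz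
  refine ⟨⟨fun h => hodge_of_prod F G hH h1 h, fun h => hodge_prod_of hS F hf F.hl
    (stable_of_lefschetzA F.hD F.sl2 hA) hH G hg h⟩, ?_, homEqNum_prod_iff hS hDX h1⟩
  refine lefschetzA_prod_iff (clSplit_of_tens hS) F.hD G.hD
    (SmVar.IsCyc.add (ops.pull_mem _ F.hD) (ops.pull_mem _ G.hD)) ?_ F.hl hHL hA h1
  have e : W.cl (Q.X.prod T.X) (ops.pull (fst Q.X T.X) Q.D + ops.pull (snd Q.X T.X) T.D) =
      W.map (fst Q.X T.X) (W.cl Q.X Q.D) + W.map (snd Q.X T.X) (W.cl T.X T.D) := by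
    rw [map_add, W.cl_pull, W.cl_pull]
  exact e

/-- **The standard conjecture of Hodge type for the products of all but few members of a family with
independent Frobenius eigenvalues with all varieties.** -/
theorem final_hodge (W : WeilCohomology.{u, v} ops) [IsAlgClosed W.K] (σ : W.K →+* ℂ)
    (p : ℕ) (hp : p.Prime) (Φ : FrobSystem W p) (hRH : ∀ Z : 𝒱.Obj, RiemannHyp Φ σ Z)
    {I : Type w} (X : I → 𝒱.Obj) (hfam : IndependentFamily Φ σ X) :
    (∀ (F : Finset I) (Q : Polarized 𝒱), IsMixedPol W X F Q →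
      HodgeType W Q.X Q.D ∧ HomEqNum W Q.X) ∧
    ∀ (U : 𝒱.Obj) (R : ℕ), RankModLe p (eigenvalues Φ σ U) R →
      ∃ S : Finset I, S.card ≤ R ∧ ∀ (F : Finset I) (Q : Polarized 𝒱), IsMixedPol W X F Q →
        Disjoint F S → ∀ T : Polarized 𝒱, GeneratedBy Φ σ U T.X → T.X.IsCyc 1 T.D →
          HardLefschetz W T.X T.D → StandardIff W Q T := by
  have : Fact p.Prime := ⟨hp⟩
  obtain ⟨hind, hX⟩ := hfam.out hRH
  have hsat : ∀ i n, Sat Φ σ (power (X i) n) := fun i n =>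
    sat_of_pole (hRH _) (hX i n).1 (hX i n).2
  have h1 : iSupIndep fun i => vZ Φ σ (X i) := iSupIndep_of hind
  refine ⟨fun F Q hQ => ⟨hQ.hodge hRH h1 hsat, (sat_mixed h1 hsat hQ.isMixed).homEqNum (hRH _)⟩,
    fun U R hU => ?_⟩
  obtain ⟨S, hS, h2⟩ := exists_few hind hU
  refine ⟨S, hS, fun F Q hQ hFS T hT hD hHL => ?_⟩
  exact standardIff hRH hQ.lw hQ.one_ne (hQ.hodge hRH h1 hsat) (sat_mixed h1 hsat hQ.isMixed)
    (h2 F Q.X hQ.isMixed hFS T.X hT) hD hHL

end Pool.Agent.R919.FF
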