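import Pool.Agent.R919.FF.AbelMain
import Pool.Agent.R919.FF.Hodge
import Pool.Agent.H914R2.PMid

/-!
# The standard conjecture of Hodge type for powers of ordinary elliptic curves
-/

set_option autoImplicit false
set_option linter.unusedSectionVars false

open CategoryTheory AlgebraicGeometry Module
open scoped TensorProduct

universe u v w

namespace Pool.Agent.R919.FF

open Pool.Agent.H914 Pool.Agent.W534 VarClass Obj WeilCohomology Pool.Agent.H281R3.HT
  Pool.Agent.W552 Pool.Agent.TH132.A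

variable {k : Type u} [Field k] {𝒱 : VarClass k} {ops : CycleOps 𝒱}
  {W : WeilCohomology.{u, v} ops} {X Y Z U : 𝒱.Obj} {p : ℕ} {Φ : FrobSystem W p}
  {σ : W.K →+* ℂ} [Fact p.Prime]

section curve

variable {D : X.Cycles}

omit [Fact p.Prime] in
lemma curve_deg (hdim : X.dim = 1) (hD : X.IsCyc 1 D)
    (hdeg : 0 < X.V.degCycle (divPow ops D X.dim X.V.fundCycle)) : W.tr X (W.cl X D) ≠ 0 := by
  have h2 : X.IsCyc X.dim (divPow ops D X.dim X.V.fundCycle) := by
    have h3 := divPow_mem (ops := ops) hD X.dim X.V.fundCycle_mem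
    rwa [zero_add] at h3
  have h4 := W.tr_cl h2
  rw [cl_divPow, W.cl_fund, hdim, pow_one, LinearMap.mulLeft_apply, mul_one] at h4
  rw [h4]
  rw [hdim] at hdeg
  exact_mod_cast hdeg.ne'

omit [Fact p.Prime] in
/-- Hard Lefschetz for curves. -/
lemma curve_hl (hdim : X.dim = 1) (hD : X.IsCyc 1 D)
    (hdeg : 0 < X.V.degCycle (divPow ops D X.dim X.V.fundCycle)) : HardLefschetz W X D := by
  refine hardLefschetz_of_inj hD fun i hi x hx h0 => ?_
  rw [hdim] at hi h0
  obtain rfl | rfl : i = 0 ∨ i = 1 := by omega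
  · rw [W.gr_zero, Submodule.mem_span_singleton] at hx
    obtain ⟨c, rfl⟩ := hx
    rw [Nat.sub_zero, pow_one, LinearMap.mulLeft_apply, mul_smul_comm, mul_one] at h0
    have h1 := congrArg (W.tr X) h0
    rw [map_smul, map_zero, smul_eq_mul] at h1
    rcases mul_eq_zero.1 h1 with h2 | h2
    · rw [h2, zero_smul]
    · exact absurd h2 (curve_deg hdim hD hdeg)
  · simpa using h0

omit [Fact p.Prime] in
/-- The transcendental cohomology of a curve. -/
lemma curve_trans (hdim : X.dim = 1) (hD : X.IsCyc 1 D)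
    (hdeg : 0 < X.V.degCycle (divPow ops D X.dim X.V.fundCycle)) :
    transcendental W X = W.gr X 1 := by
  apply le_antisymm
  · intro x hx
    have h0 : proj (W.isInternal X) 0 x = 0 := by
      have h1 := proj_trans 0 hx
      have h2 := proj_mem (W.isInternal X) 0 x
      rw [W.gr_zero, Submodule.mem_span_singleton] at h2
      obtain ⟨c, hc⟩ := h2
      rw [← hc] at h1 ⊢
      have h3 := mem_trans.1 h1 1 (W.cl X D) ⟨D, hD, rfl⟩
      rw [bil_apply, smul_mul_assoc, one_mul, map_smul, smul_eq_mul] at h3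
      rcases mul_eq_zero.1 h3 with h4 | h4
      · rw [h4, zero_smul]
      · exact absurd h4 (curve_deg hdim hD hdeg)
    have h2 : proj (W.isInternal X) 2 x = 0 := by
      have h1 := proj_trans 2 hx
      apply W.nondeg
      intro b
      refine gr_induction (W.isInternal X)
        (p := fun b => W.tr X (proj (W.isInternal X) 2 x * b) = 0) ?_ ?_ b
      · intro i b hb
        by_cases hi : i = 0
        · subst hi
          rw [W.gr_zero, Submodule.mem_span_singleton] at hb
          obtain ⟨c, rfl⟩ := hb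
          have h3 := mem_trans.1 h1 0 (1 : W.H X) ⟨X.V.fundCycle, X.V.fundCycle_mem, W.cl_fund X⟩
          rw [bil_apply] at h3
          rw [mul_smul_comm, map_smul, h3, smul_zero]
        · exact W.tr_eq_zero (W.mul_mem (proj_mem _ 2 x) hb) (by omega)
      · intro b b' hb hb'
        rw [mul_add, map_add, hb, hb', add_zero]
    have h3 := congrArg (fun G => G x) (sum_proj (W.isInternal X) (N := 3) (fun i hi =>
      W.gr_eq_bot X i (by omega)))
    simp only [LinearMap.sum_apply, Module.End.one_apply] at h3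
    rw [Finset.sum_range_succ, Finset.sum_range_succ, Finset.sum_range_one, h0, h2, zero_add,
      add_zero] at h3
    rw [← h3]
    exact proj_mem _ 1 x
  · intro x hx
    rw [mem_trans]
    intro j c hc
    exact bil_eq_zero hx (alg_gr hc) (by omega)

end curve

section ell

variable {a : ℤ} {D : X.Cycles}

/-- The characteristic polynomial of Frobenius. -/
lemma ell_charpoly (h : OrdinaryElliptic Φ σ X a) : (frobOn Φ X 1 1).charpoly =
    Polynomial.X ^ 2 - Polynomial.C (a : W.K) * Polynomial.X +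
      Polynomial.C ((p : W.K) ^ Φ.e X) := by
  apply Polynomial.map_injective σ σ.injective
  rw [← frobPoly_eq, h.frob]
  simp [Polynomial.map_pow]

omit [Fact p.Prime] in
lemma frobOn_coe (s i : ℕ) (x : W.gr X i) :
    ((frobOn Φ X s i x : W.gr X i) : W.H X) = W.map (W534.iter (Φ.Fr X) s) (x : W.H X) := rfl

lemma ell_rel (h : OrdinaryElliptic Φ σ X a) {x : W.H X} (hx : x ∈ W.gr X 1) :
    W.map (W534.iter (Φ.Fr X) 1) (W.map (W534.iter (Φ.Fr X) 1) x) -
      (a : W.K) • W.map (W534.iter (Φ.Fr X) 1) x + ((p : W.K) ^ Φ.e X) • x = 0 := by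
  have h1 := LinearMap.aeval_self_charpoly (frobOn Φ X 1 1)
  rw [ell_charpoly h] at h1
  have h2 := congrArg (fun G : Module.End W.K (W.gr X 1) => ((G ⟨x, hx⟩ : W.gr X 1) : W.H X)) h1
  simp only [map_add, map_sub, map_mul, map_pow, Polynomial.aeval_X, Polynomial.aeval_C,
    LinearMap.add_apply, LinearMap.sub_apply, Module.End.mul_apply, sq,
    Submodule.coe_add, Submodule.coe_sub, Submodule.coe_smul,
    frobOn_coe, LinearMap.zero_apply, Submodule.coe_zero, Algebra.algebraMap_eq_smul_one,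
    LinearMap.smul_apply, Module.End.one_apply, smul_pow, one_pow] at h2
  exact h2

omit [Fact p.Prime] in
lemma quad_ne (c d : ℚ) : (Polynomial.X ^ 2 - Polynomial.C c * Polynomial.X +
    Polynomial.C d : Polynomial ℚ) ≠ 0 := by
  have h : (Polynomial.X ^ 2 - Polynomial.C c * Polynomial.X +
    Polynomial.C d : Polynomial ℚ).Monic := by monicity!
  exact h.ne_zero

omit [Fact p.Prime] in
lemma aeval_quad {K V : Type*} [Field K] [CharZero K] [AddCommGroup V] [Module K V]
    (F : Module.End K V) (c d : ℚ) (x : V) :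
    Polynomial.aeval F ((Polynomial.X ^ 2 - Polynomial.C c * Polynomial.X +
      Polynomial.C d : Polynomial ℚ).map (algebraMap ℚ K)) x =
    F (F x) - (c : K) • F x + (d : K) • x := by
  simp [sq, Algebra.algebraMap_eq_smul_one, Polynomial.map_add, Polynomial.map_sub]

omit [Fact p.Prime] in
lemma aeval_lin {K V : Type*} [Field K] [CharZero K] [AddCommGroup V] [Module K V]
    (F : Module.End K V) (c : ℚ) (x : V) :
    Polynomial.aeval F ((Polynomial.X - Polynomial.C c : Polynomial ℚ).map (algebraMap ℚ K)) x =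
    F x - (c : K) • x := by
  simp [Algebra.algebraMap_eq_smul_one, Polynomial.map_sub]

/-- The Riemann hypothesis. -/
lemma ell_rh (hRH : RiemannHyp Φ σ X) (h : OrdinaryElliptic Φ σ X a) :
    Pool.Agent.H914.RiemannHypothesis W X (W534.iter (Φ.Fr X) 1) (p ^ Φ.e X) := by
  intro i
  have hpe : ((p ^ Φ.e X : ℕ) : ℝ) = (p : ℝ) ^ Φ.e X := by push_cast; rfl
  obtain rfl | rfl | rfl | hi : i = 0 ∨ i = 1 ∨ i = 2 ∨ 3 ≤ i := by omega
  · refine ⟨Polynomial.X - Polynomial.C 1, Polynomial.X_sub_C_ne_zero 1, fun x hx => ?_,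
      fun z hz => ?_⟩
    · rw [W.gr_zero, Submodule.mem_span_singleton] at hx
      obtain ⟨c, rfl⟩ := hx
      simp
    · have h1 : z = 1 := by simpa [sub_eq_zero] using hz
      rw [h1]
      simp
  · refine ⟨Polynomial.X ^ 2 - Polynomial.C (a : ℚ) * Polynomial.X +
      Polynomial.C ((p : ℚ) ^ Φ.e X), quad_ne _ _, fun x hx => ?_, fun z hz => ?_⟩
    · rw [← ell_rel h hx, aeval_quad]
      push_cast
      rfl
    · have h1 : (frobPoly Φ σ X 1 1).IsRoot z := by
        rw [h.frob, Polynomial.IsRoot.def]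
        simpa using hz
      have h2 := hRH 1 one_pos 1 z h1
      rw [h2, W534.card, mul_one]
  · refine ⟨Polynomial.X - Polynomial.C ((p : ℚ) ^ Φ.e X), Polynomial.X_sub_C_ne_zero _,
      fun x hx => ?_, fun z hz => ?_⟩
    · have h1 := Φ.deg (X := X) (c := x) (by rw [h.dim]; exact hx)
      rw [h.dim, mul_one] at h1
      have h2 : W.map (W534.iter (Φ.Fr X) 1) x = W.map (Φ.Fr X) x := by
        rw [W534.map_iter]
        rfl
      rw [aeval_lin]
      push_cast
      rw [← h1, ← h2]
      exact sub_self _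
    · have h1 : z = (p : ℂ) ^ Φ.e X := by simpa [sub_eq_zero] using hz
      rw [h1, hpe]
      simp
  · refine ⟨1, one_ne_zero, fun x hx => ?_, fun z hz => ?_⟩
    · rw [W.gr_eq_bot X i (by rw [h.dim]; omega), Submodule.mem_bot] at hx
      rw [hx, map_zero]
    · rw [map_one] at hz
      exact absurd hz one_ne_zero

/-- The eigenvalues of Frobenius in the coefficient field. -/
lemma ell_eig [IsAlgClosed W.K] (hRH : RiemannHyp Φ σ X) (h : OrdinaryElliptic Φ σ X a) :
    ∃ α β : W.K, α + β = a ∧ α * β = (p : W.K) ^ Φ.e X ∧ α ≠ β ∧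
      (∀ n : ℕ, 0 < n → ∀ m : ℕ, α ^ n ≠ (p : W.K) ^ m) ∧
      (∀ n : ℕ, 0 < n → ∀ m : ℕ, β ^ n ≠ (p : W.K) ^ m) ∧
      (frobOn Φ X 1 1).charpoly = (Polynomial.X - Polynomial.C α) *
        (Polynomial.X - Polynomial.C β) := by
  obtain ⟨α', β', hsum, hprod, hnp, hab, hroot, -⟩ := h.exists_weil hRH
  have hnp' : ¬ PPower p (β' : ℂ) := by
    rintro ⟨M, hM, c, hc⟩
    apply hnp
    refine ⟨M, hM, ((Φ.e X * M : ℕ) : ℤ) - c, ?_⟩
    have hp0 : (p : ℂ) ≠ 0 := Nat.cast_ne_zero.2 (Fact.out : p.Prime).ne_zero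
    have h1 : (α' : ℂ) ^ M * (β' : ℂ) ^ M = (p : ℂ) ^ (Φ.e X * M) := by
      rw [← mul_pow, hprod, pow_mul]
    rw [hc] at h1
    rw [zpow_sub₀ hp0, zpow_natCast, ← h1, mul_div_assoc, div_self (zpow_ne_zero _ hp0), mul_one]
  have hnroot : ∀ z : W.K, (frobPoly Φ σ X 1 1).IsRoot (σ z) → ∀ n : ℕ, 0 < n → ∀ m : ℕ,
      z ^ n ≠ (p : W.K) ^ m := by
    intro z hz n hn m h0
    have h1 : PPower p (σ z) := ⟨n, hn, (m : ℤ), by
      rw [← map_pow, h0, map_pow, map_natCast, zpow_natCast]⟩
    rcases (hroot _).1 hz with h2 | h2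
    · rw [h2] at h1; exact hnp h1
    · rw [h2] at h1; exact hnp' h1
  have hcp := ell_charpoly h
  have hdeg : (frobOn Φ X 1 1).charpoly.natDegree = 2 := by
    rw [hcp]
    compute_degree!
  obtain ⟨α, hα⟩ := IsAlgClosed.exists_root (frobOn Φ X 1 1).charpoly (by
    intro h0
    rw [Polynomial.degree_eq_natDegree (by
      intro h1
      rw [h1, Polynomial.natDegree_zero] at hdeg
      omega), hdeg] at h0
    norm_num at h0)
  set β : W.K := a - α with hβ
  have hs : α + β = a := by rw [hβ]; ring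
  have hpr : α * β = (p : W.K) ^ Φ.e X := by
    have h1 := hα
    rw [hcp, Polynomial.IsRoot.def] at h1
    simp only [Polynomial.eval_add, Polynomial.eval_sub, Polynomial.eval_pow, Polynomial.eval_X,
      Polynomial.eval_mul, Polynomial.eval_C] at h1
    rw [hβ]
    linear_combination -h1
  have hfac : (frobOn Φ X 1 1).charpoly = (Polynomial.X - Polynomial.C α) *
      (Polynomial.X - Polynomial.C β) := by
    rw [hcp, ← hs, ← hpr, Polynomial.C_add, Polynomial.C_mul]
    ring
  have hra : (frobPoly Φ σ X 1 1).IsRoot (σ α) := by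
    rw [frobPoly_eq]
    exact hα.map
  have hβr : (frobOn Φ X 1 1).charpoly.IsRoot β := by
    rw [hfac, Polynomial.IsRoot.def, Polynomial.eval_mul, Polynomial.eval_sub, Polynomial.eval_sub,
      Polynomial.eval_X, Polynomial.eval_C, Polynomial.eval_C, sub_self, mul_zero]
  have hrb : (frobPoly Φ σ X 1 1).IsRoot (σ β) := by
    rw [frobPoly_eq]
    exact hβr.map
  refine ⟨α, β, hs, hpr, ?_, hnroot α hra, hnroot β hrb, hfac⟩
  intro h0
  refine hnroot α hra 2 two_pos (Φ.e X) ?_
  rw [← hpr, ← h0, sq]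

end ell

end Pool.Agent.R919.FF
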