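import Pool.Agent.R919.FF.EPow

/-!
# The Frobenius endomorphisms of the powers of an elliptic curve
-/

set_option autoImplicit false
set_option linter.unusedSectionVars false

open CategoryTheory AlgebraicGeometry Module
open scoped TensorProduct

universe u v w

namespace Pool.Agent.R919.FF

open Pool.Agent.H914 Pool.Agent.W534 VarClass Obj WeilCohomology Pool.Agent.H281R3.HT
  Pool.Agent.W552 Pool.Agent.TH132.A

variable {k : Type u} [Field k] {𝒱 : VarClass k} {ops : CycleOps 𝒱}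
  {W : WeilCohomology.{u, v} ops} {X Y Z U E : 𝒱.Obj} {p : ℕ} {Φ : FrobSystem W p}
  {σ : W.K →+* ℂ}

section cmp

/-- The endomorphism of `T` is, up to powers, the Frobenius endomorphism. -/
def Cmp (Φ : FrobSystem W p) (E : 𝒱.Obj) (T : PolVar 𝒱) : Prop :=
  ∃ A B : ℕ, 0 < A ∧ 0 < B ∧ A * Φ.e T.X = B * Φ.e E ∧
    ∀ x, (W.map (Φ.Fr T.X))^[A] x = (W.map T.f)^[B] x

lemma cmp_aux {T : PolVar 𝒱} {Y : 𝒱.Obj} (g : Y ⟶ Y) (π : Y ⟶ T.X) (hg : g ≫ π = π ≫ T.f)
    {a b A B N : ℕ} (hab : W534.iter (Φ.Fr Y) a ≫ π = π ≫ W534.iter (Φ.Fr T.X) b)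
    (h : ∀ x, (W.map (Φ.Fr T.X))^[A] x = (W.map T.f)^[B] x) (x : W.H T.X) :
    (W.map (Φ.Fr Y))^[a * (A * N)] (W.map π x) = (W.map g)^[B * (b * N)] (W.map π x) := by
  have k1 : Function.Semiconj (W.map π) ((W.map (Φ.Fr T.X))^[b]) ((W.map (Φ.Fr Y))^[a]) := by
    intro y
    have h1 := congrArg (fun g => W.map g y) hab
    beta_reduce at h1
    rw [W.map_comp, W.map_comp, W534.map_iter, W534.map_iter] at h1
    exact h1.symm
  have l1 : Function.Semiconj (W.map π) (W.map T.f) (W.map g) := by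
    intro y
    have h1 := congrArg (fun g => W.map g y) hg
    beta_reduce at h1
    rw [W.map_comp, W.map_comp] at h1
    exact h1.symm
  have h2 := (k1.iterate_right (A * N)) x
  have h3 := (l1.iterate_right (B * (b * N))) x
  rw [← Function.iterate_mul, ← Function.iterate_mul] at h2
  rw [← h2, ← h3, show b * (A * N) = A * (b * N) by ring, Function.iterate_mul,
    Function.iterate_mul]
  have h4 : (W.map (Φ.Fr T.X))^[A] = (W.map T.f)^[B] := funext h
  rw [h4, ← Function.iterate_mul, ← Function.iterate_mul]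

lemma iterate_ext {Y Z : 𝒱.Obj} (g g' : Y.prod Z ⟶ Y.prod Z) (m m' : ℕ)
    (h1 : ∀ x, (W.map g)^[m] (W.map (fst Y Z) x) = (W.map g')^[m'] (W.map (fst Y Z) x))
    (h2 : ∀ x, (W.map g)^[m] (W.map (snd Y Z) x) = (W.map g')^[m'] (W.map (snd Y Z) x))
    (x : W.H (Y.prod Z)) : (W.map g)^[m] x = (W.map g')^[m'] x := by
  rw [← W534.map_iter, ← W534.map_iter]
  refine W.kunneth_induction (p := fun x : W.H (Y.prod Z) =>
    W.map (W534.iter g m) x = W.map (W534.iter g' m') x) ?_ ?_ x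
  · intro x y hx hy
    rw [map_add, map_add, hx, hy]
  · intro i j x _ y _
    rw [map_mul, map_mul, W534.map_iter, W534.map_iter, W534.map_iter, W534.map_iter, h1, h2]

lemma cmp_prod {P Q : PolVar 𝒱} (hP : Cmp Φ E P) (hQ : Cmp Φ E Q) : Cmp Φ E (P.prod ops Q) := by
  obtain ⟨A1, B1, hA1, hB1, he1, h1⟩ := hP
  obtain ⟨A2, B2, hA2, hB2, he2, h2⟩ := hQ
  obtain ⟨a, b, ha, hab, hc1⟩ := Φ.comm (fst P.X Q.X)
  obtain ⟨c, d, hc, hcd, hc2⟩ := Φ.comm (snd P.X Q.X)
  have hb : 0 < b := by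
    rcases Nat.eq_zero_or_pos b with h | h
    · have := Nat.mul_pos ha (Φ.e_pos (P.X.prod Q.X))
      rw [hab, h, zero_mul] at this
      omega
    · exact h
  have hd : 0 < d := by
    rcases Nat.eq_zero_or_pos d with h | h
    · have := Nat.mul_pos hc (Φ.e_pos (P.X.prod Q.X))
      rw [hcd, h, zero_mul] at this
      omega
    · exact h
  have hB : B1 * (b * (c * A2)) = B2 * (d * (a * A1)) := by
    apply Nat.eq_of_mul_eq_mul_right (Φ.e_pos E)
    calc B1 * (b * (c * A2)) * Φ.e E = (B1 * Φ.e E) * (b * c * A2) := by ring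
      _ = (A1 * Φ.e P.X) * (b * c * A2) := by rw [he1]
      _ = (b * Φ.e P.X) * (A1 * c * A2) := by ring
      _ = (a * Φ.e (P.X.prod Q.X)) * (A1 * c * A2) := by rw [hab]
      _ = (c * Φ.e (P.X.prod Q.X)) * (a * A1 * A2) := by ring
      _ = (d * Φ.e Q.X) * (a * A1 * A2) := by rw [hcd]
      _ = (A2 * Φ.e Q.X) * (a * A1 * d) := by ring
      _ = (B2 * Φ.e E) * (a * A1 * d) := by rw [he2]
      _ = _ := by ring
  refine ⟨a * (A1 * (c * A2)), B1 * (b * (c * A2)), by positivity, by positivity, ?_, ?_⟩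
  · calc a * (A1 * (c * A2)) * Φ.e (P.X.prod Q.X)
        = (a * Φ.e (P.X.prod Q.X)) * (c * A1 * A2) := by ring
      _ = (b * Φ.e P.X) * (c * A1 * A2) := by rw [hab]
      _ = (A1 * Φ.e P.X) * (b * c * A2) := by ring
      _ = (B1 * Φ.e E) * (b * c * A2) := by rw [he1]
      _ = _ := by ring
  · have k1 := fun x => cmp_aux (Φ := Φ) (N := c * A2) (P.prod ops Q).f (fst P.X Q.X)
      (Obj.lift_fst _ _) hc1 h1 x
    have k2 := fun x => cmp_aux (Φ := Φ) (N := a * A1) (P.prod ops Q).f (snd P.X Q.X)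
      (Obj.lift_snd _ _) hc2 h2 x
    rw [← hB, show c * (A2 * (a * A1)) = a * (A1 * (c * A2)) by ring] at k2
    exact iterate_ext (Φ.Fr (P.X.prod Q.X)) (P.prod ops Q).f _ _ k1 k2

lemma cmp_iterated (Φ : FrobSystem W p) {D : E.Cycles} {Q : PolVar 𝒱}
    (hQ : IsIteratedProduct ops (fun _ : Unit => (⟨E, D, W534.iter (Φ.Fr E) 1⟩ : PolVar 𝒱)) Q) :
    Cmp Φ E Q := by
  induction hQ with
  | base i =>
    refine ⟨1, 1, one_pos, one_pos, rfl, fun x => ?_⟩
    rw [Function.iterate_one, Function.iterate_one, W534.map_iter, Function.iterate_one]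
  | prod _ _ h1 h2 => exact cmp_prod h1 h2

lemma iterate_eigen {g : X ⟶ X} {c : W.K} {x : W.H X} (h : W.map g x = c • x) (n : ℕ) :
    (W.map g)^[n] x = c ^ n • x := by
  induction n with
  | zero => simp
  | succ n ih => rw [Function.iterate_succ_apply', ih, map_smul, h, smul_smul, pow_succ]

lemma cmp_frobenius {T : PolVar 𝒱} (h : Cmp Φ E T) :
    FrobeniusOnCycles W T.X T.f (p ^ Φ.e E) := by
  obtain ⟨A, B, hA, hB, he, h1⟩ := h
  intro j z hz
  obtain ⟨s, hs, h2⟩ := Φ.cyc hz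
  refine ⟨B * s, Nat.mul_pos hB hs, ?_⟩
  have h3 : ∀ m, W.cl T.X ((ops.pull T.f)^[m] z) = (W.map T.f)^[m] (W.cl T.X z) := by
    intro m
    induction m with
    | zero => rfl
    | succ m ih => rw [Function.iterate_succ_apply', W.cl_pull, ih, Function.iterate_succ_apply']
  have h4 : (W.map (Φ.Fr T.X))^[A] = (W.map T.f)^[B] := funext h1
  rw [h3, Function.iterate_mul, ← h4, ← Function.iterate_mul, mul_comm A s,
    Function.iterate_mul]
  have h5 := iterate_eigen h2 A
  have h6 : (W.map (W534.iter (Φ.Fr T.X) s) : W.H T.X → W.H T.X) = (W.map (Φ.Fr T.X))^[s] :=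
    funext fun x => W534.map_iter _ _ _
  rw [h6] at h5
  rw [h5]
  congr 1
  push_cast
  rw [← pow_mul, ← pow_mul]
  congr 1
  calc Φ.e T.X * s * j * A = (A * Φ.e T.X) * (s * j) := by ring
    _ = (B * Φ.e E) * (s * j) := by rw [he]
    _ = _ := by ring

end cmp

section spec

variable [Fact p.Prime] {a : ℤ} {D : X.Cycles}

lemma ell_restrict (h : ∀ x ∈ W.gr X 1, (W.map (W534.iter (Φ.Fr X) 1)).toLinearMap x ∈ W.gr X 1) :
    (W.map (W534.iter (Φ.Fr X) 1)).toLinearMap.restrict h = frobOn Φ X 1 1 := rfl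

lemma ell_squarefree [IsAlgClosed W.K] (hRH : RiemannHyp Φ σ X) (h : OrdinaryElliptic Φ σ X a)
    (hD : X.IsCyc 1 D) (hdeg : 0 < X.V.degCycle (divPow ops D X.dim X.V.fundCycle)) :
    SquarefreeSpectrum W X (W534.iter (Φ.Fr X) 1) := by
  rw [SquarefreeSpectrum, curve_trans h.dim hD hdeg]
  refine ⟨fun x hx => W.map_mem _ hx, ?_⟩
  rw [ell_restrict]
  obtain ⟨α, β, hs, hpr, hne, -, -, hfac⟩ := ell_eig hRH h
  rw [hfac]
  apply Polynomial.Separable.squarefree
  refine Polynomial.Separable.mul Polynomial.separable_X_sub_C Polynomial.separable_X_sub_C ?_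
  exact Polynomial.isCoprime_X_sub_C_of_isUnit_sub (sub_ne_zero.2 hne).isUnit

lemma ell_neat [IsAlgClosed W.K] (hRH : RiemannHyp Φ σ X) (h : OrdinaryElliptic Φ σ X a)
    (hD : X.IsCyc 1 D) (hdeg : 0 < X.V.degCycle (divPow ops D X.dim X.V.fundCycle)) :
    NeatSpectrum W (fun _ : Unit => (⟨X, D, W534.iter (Φ.Fr X) 1⟩ : PolVar 𝒱)) (p ^ Φ.e X) := by
  classical
  obtain ⟨α, β, hs, hpr, hne, hα, hβ, hfac⟩ := ell_eig hRH h
  have hp0 : (p : W.K) ≠ 0 := Nat.cast_ne_zero.2 (Fact.out : p.Prime).ne_zero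
  set ιK := algebraMap W.K (AlgebraicClosure W.K) with hι
  have hq0 : ((p : W.K)) ^ Φ.e X ≠ 0 := pow_ne_zero _ hp0
  have hα0 : α ≠ 0 := by
    rintro rfl
    rw [zero_mul] at hpr
    exact hq0 hpr.symm
  have hβ0 : β ≠ 0 := by
    rintro rfl
    rw [mul_zero] at hpr
    exact hq0 hpr.symm
  have key : ∀ z : AlgebraicClosure W.K, IsTransEigenvalue W
      (⟨X, D, W534.iter (Φ.Fr X) 1⟩ : PolVar 𝒱) z → z = ιK α ∨ z = ιK β := by
    intro z hz
    rw [IsTransEigenvalue, curve_trans h.dim hD hdeg] at hz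
    obtain ⟨h1, h2⟩ := hz
    rw [ell_restrict, hfac] at h2
    simpa [sub_eq_zero] using h2
  intro s hs1 m hm hprod
  -- the two kinds of elements
  have hdec : ∃ i j : ℕ, s = Multiset.replicate i ((), ιK α) + Multiset.replicate j ((), ιK β) := by
    clear hprod
    induction s using Multiset.induction_on with
    | empty => exact ⟨0, 0, by simp⟩
    | cons x s ih =>
      obtain ⟨i, j, hij⟩ := ih (fun y hy => hs1 y (Multiset.mem_cons_of_mem hy))
      have h1 := key x.2 (hs1 x (Multiset.mem_cons_self x s))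
      obtain ⟨⟨⟩, x2⟩ := x
      rcases h1 with h1 | h1
      · refine ⟨i + 1, j, ?_⟩
        change x2 = _ at h1
        rw [h1, hij, Multiset.replicate_succ, Multiset.cons_add]
      · refine ⟨i, j + 1, ?_⟩
        change x2 = _ at h1
        rw [h1, hij, Multiset.replicate_succ, Multiset.add_cons]
  obtain ⟨i, j, rfl⟩ := hdec
  have hn : ((Multiset.replicate i ((), ιK α) + Multiset.replicate j ((), ιK β)).map
      (fun x : Unit × AlgebraicClosure W.K => ((fun _ : Unit =>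
        (⟨X, D, W534.iter (Φ.Fr X) 1⟩ : PolVar 𝒱)) x.1).X.dim)).sum = i + j := by
    simp [h.dim]
  rw [hn] at hprod
  have h1 : (α ^ i * β ^ j) ^ (2 * m) = ((p : W.K) ^ Φ.e X) ^ (m * (i + j)) := by
    apply ιK.injective
    rw [map_pow, map_mul, map_pow, map_pow, map_pow, map_pow, map_natCast]
    rw [Multiset.map_add, Multiset.prod_add, Multiset.map_replicate, Multiset.map_replicate,
      Multiset.prod_replicate, Multiset.prod_replicate] at hprod
    push_cast at hprod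
    exact hprod
  have hij : i = j := by
    rcases lt_trichotomy i j with h2 | h2 | h2
    · exfalso
      obtain ⟨d, rfl⟩ := Nat.exists_eq_add_of_lt h2
      refine hβ (2 * m * (d + 1)) (by positivity) (Φ.e X * (m * (d + 1))) ?_
      have h3 : (α * β) ^ (i * (2 * m)) * β ^ (2 * m * (d + 1)) =
          (α ^ i * β ^ (i + d + 1)) ^ (2 * m) := by ring
      rw [h1, hpr] at h3
      apply mul_left_cancel₀ (pow_ne_zero (i * (2 * m)) hq0)
      rw [h3]
      ring
    · exact h2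
    · exfalso
      obtain ⟨d, rfl⟩ := Nat.exists_eq_add_of_lt h2
      refine hα (2 * m * (d + 1)) (by positivity) (Φ.e X * (m * (d + 1))) ?_
      have h3 : (α * β) ^ (j * (2 * m)) * α ^ (2 * m * (d + 1)) =
          (α ^ (j + d + 1) * β ^ j) ^ (2 * m) := by ring
      rw [h1, hpr] at h3
      apply mul_left_cancel₀ (pow_ne_zero (j * (2 * m)) hq0)
      rw [h3]
      ring
  subst hij
  refine ⟨Multiset.replicate i ((), ιK α), ?_⟩
  rw [Multiset.map_replicate]
  congr 2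
  refine Prod.ext rfl ?_
  change ιK β = ((p ^ Φ.e X : ℕ) : AlgebraicClosure W.K) ^ X.dim / ιK α
  rw [h.dim, pow_one, eq_div_iff (by rwa [Ne, map_eq_zero]), ← map_mul, mul_comm, hpr]
  push_cast
  rw [map_pow, map_natCast]

/-- **The standard conjectures for the iterated products of an ordinary elliptic curve with
itself.** -/
theorem ell_products [IsAlgClosed W.K] (hRH : RiemannHyp Φ σ X) (h : OrdinaryElliptic Φ σ X a)
    (hD : X.IsCyc 1 D) (hdeg : 0 < X.V.degCycle (divPow ops D X.dim X.V.fundCycle))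
    {Q : PolVar 𝒱}
    (hQ : IsIteratedProduct ops (fun _ : Unit => (⟨X, D, W534.iter (Φ.Fr X) 1⟩ : PolVar 𝒱)) Q) :
    HodgeType W Q.X Q.D ∧ HomEqNum W Q.X := by
  have hp := (Fact.out : p.Prime)
  refine (hodge_products_iff (W := W) (q := p ^ Φ.e X) (pow_ne_zero _ hp.ne_zero)
    (P := fun _ : Unit => (⟨X, D, W534.iter (Φ.Fr X) 1⟩ : PolVar 𝒱)) (fun _ => hD)
    (fun _ => curve_hl h.dim hD hdeg) (fun _ => ?_) (fun _ => ell_squarefree hRH h hD hdeg)
    (ell_neat hRH h hD hdeg) (fun Q hQ => cmp_frobenius (cmp_iterated Φ hQ))).1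
    (fun _ => ⟨ell_rh hRH h, hodgeType_of_dim (by rw [h.dim]) hD hdeg⟩) Q hQ
  change transcendental W X ≤ W.gr X X.dim
  rw [curve_trans h.dim hD hdeg, h.dim]

end spec

end Pool.Agent.R919.FF
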