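import Pool.Agent.R919.FF.TateDef
import Pool.Agent.R919.FF.HodgeDef
import Pool.Agent.R907.AniDefs

/-!
# The numerical Hodge standard conjecture for products with elliptic curves: definitions
-/

set_option autoImplicit false

open CategoryTheory AlgebraicGeometry

universe u v w

namespace Pool.Agent.R919.FF

open Pool.Agent.H914 Pool.Agent.W534 VarClass Obj WeilCohomology Pool.Agent.H281R3.HT
  Pool.Agent.R907

variable {k : Type u} [Field k] {𝒱 : VarClass k} {ops : CycleOps 𝒱}

/-- The sum of the pull-backs of the divisor `D` under the projections of `X × (X × ⋯ × X)`. -/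
noncomputable def powDiv (ops : CycleOps 𝒱) {X : 𝒱.Obj} (D : X.Cycles) :
    (n : ℕ) → (power X n).Cycles
  | 0 => D
  | n + 1 => ops.pull (fst X (power X n)) D + ops.pull (snd X (power X n)) (powDiv ops D n)

/-- `T` is a variety with a divisor which satisfies the hard Lefschetz theorem, and homological
equivalence is numerical equivalence on `T`. -/
structure IsNumPol (W : WeilCohomology.{u, v} ops) (T : Polarized 𝒱) : Prop where
  /-- it is a divisor -/
  div : T.X.IsCyc 1 T.D
  /-- hard Lefschetz -/
  hardLef : HardLefschetz W T.X T.D
  /-- homological equivalence is numerical equivalence -/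
  homNum : HomEqNum W T.X

/-- The numerical Hodge standard conjecture for `Q × T` is equivalent to the one for `T`, and
homological equivalence is numerical equivalence on `Q × T`. -/
def NumIff (W : WeilCohomology.{u, v} ops) (Q T : Polarized 𝒱) : Prop :=
  (NumHodge ops (Q.prod ops T) ↔ NumHodge ops T) ∧ HomEqNum W (Q.prod ops T).X

end Pool.Agent.R919.FF
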