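import Pool.Agent.R919.FF.EPow2
import Pool.Agent.R919.FF.NumDef

/-!
# The numerical Hodge standard conjecture for products with ordinary elliptic curves
-/

set_option autoImplicit false
set_option linter.unusedSectionVars false

open CategoryTheory AlgebraicGeometry Module
open scoped TensorProduct

universe u v w

namespace Pool.Agent.R919.FF

open Pool.Agent.H914 Pool.Agent.W534 VarClass Obj WeilCohomology Pool.Agent.H281R3.HT
  Pool.Agent.W552 Pool.Agent.TH132.A Pool.Agent.R907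

variable {k : Type u} [Field k] {𝒱 : VarClass k} {ops : CycleOps 𝒱}
  {W : WeilCohomology.{u, v} ops} {X Y Z U E : 𝒱.Obj} {p : ℕ} {Φ : FrobSystem W p}
  {σ : W.K →+* ℂ}

/-- The product of copies of an endomorphism. -/
noncomputable def powMap {X : 𝒱.Obj} (g : X ⟶ X) : (n : ℕ) → (power X n ⟶ power X n)
  | 0 => g
  | n + 1 => Obj.lift (fst X (power X n) ≫ g) (snd X (power X n) ≫ powMap g n)

lemma isIterated_power (g : X ⟶ X) (D : X.Cycles) : ∀ n,
    IsIteratedProduct ops (fun _ : Unit => (⟨X, D, g⟩ : PolVar 𝒱))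
      ⟨power X n, powDiv ops D n, powMap g n⟩
  | 0 => IsIteratedProduct.base ()
  | n + 1 => IsIteratedProduct.prod (IsIteratedProduct.base ()) (isIterated_power g D n)

lemma powDiv_mem {D : X.Cycles} (hD : X.IsCyc 1 D) : ∀ n, (power X n).IsCyc 1 (powDiv ops D n)
  | 0 => hD
  | n + 1 => SmVar.IsCyc.add (ops.pull_mem _ hD) (ops.pull_mem _ (powDiv_mem hD n))

/-- The degree is positive if the conjecture of Hodge type holds. -/
lemma degree_of_hodge {D : X.Cycles} (hD : X.IsCyc 1 D) (h1 : (1 : W.H X) ≠ 0)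
    (hH : HodgeType W X D) : 0 < X.V.degCycle (divPow ops D X.dim X.V.fundCycle) := by
  have h := hH 0 (Nat.zero_le _) X.V.fundCycle X.V.fundCycle_mem ?_ ?_
  · rw [pow_zero, one_mul, mul_zero, Nat.sub_zero] at h
    have h2 : X.IsCyc X.dim (divPow ops D X.dim X.V.fundCycle) := by
      have h3 := divPow_mem (ops := ops) hD X.dim X.V.fundCycle_mem
      rwa [zero_add] at h3
    have h3 : X.IsCyc X.dim (ops.mul X.V.fundCycle (divPow ops D X.dim X.V.fundCycle)) := by
      have h4 := ops.mul_mem X.V.fundCycle_mem h2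
      rwa [zero_add] at h4
    have h4 : ((X.V.degCycle (ops.mul X.V.fundCycle (divPow ops D X.dim X.V.fundCycle)) : ℚ) :
        W.K) = ((X.V.degCycle (divPow ops D X.dim X.V.fundCycle) : ℚ) : W.K) := by
      rw [← W.tr_cl h3, ← W.tr_cl h2, W.cl_mul, W.cl_fund, one_mul]
    rwa [Rat.cast_injective h4] at h
  · have h2 := divPow_mem (ops := ops) hD (X.dim - 2 * 0 + 1) X.V.fundCycle_mem
    have h3 := W.cl_mem h2
    rw [W.gr_eq_bot X _ (by omega), Submodule.mem_bot] at h3
    exact h3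
  · rw [W.cl_fund]
    exact h1

lemma lw_power {D : X.Cycles} (hD : X.IsCyc 1 D) (hHL : HardLefschetz W X D) :
    ∀ n, ∃ f, Lw W (power X n) (powDiv ops D n) f
  | 0 => by
    obtain ⟨f, tf, -⟩ := exists_lw hD hHL
    exact ⟨f, tf⟩
  | n + 1 => by
    obtain ⟨f, tf, -⟩ := exists_lw hD hHL
    obtain ⟨g, tg⟩ := lw_power hD hHL n
    exact ⟨_, tf.prod tg⟩

lemma one_power_ne (h1 : (1 : W.H X) ≠ 0) : ∀ n, (1 : W.H (power X n)) ≠ 0
  | 0 => h1
  | n + 1 => one_prod_ne h1 (one_power_ne h1 n)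

/-- **The powers of ordinary elliptic curves with the standard polarizations satisfy the standard
conjecture of Hodge type.** -/
theorem isHodgePol_power [IsAlgClosed W.K] [Fact p.Prime] (hRH : RiemannHyp Φ σ X) {a : ℤ}
    (h : OrdinaryElliptic Φ σ X a) {D : X.Cycles} (hD : X.IsCyc 1 D)
    (hdeg : 0 < X.V.degCycle (divPow ops D X.dim X.V.fundCycle)) (n : ℕ) :
    IsHodgePol W (power X n) (powDiv ops D n) := by
  have h1 := ell_products hRH h hD hdeg (isIterated_power (W534.iter (Φ.Fr X) 1) D n)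
  obtain ⟨f, hf⟩ := lw_power hD (curve_hl h.dim hD hdeg) n
  exact ⟨powDiv_mem hD n, hf.hl, degree_of_hodge (powDiv_mem hD n)
    (one_power_ne (one_ne_of_deg hD hdeg) n) h1.1, Or.inr h1.1⟩

/-- The numerical Hodge standard conjecture is the standard conjecture of Hodge type if
homological equivalence is numerical equivalence. -/
theorem numHodge_iff {T : Polarized 𝒱} (hD : T.X.IsCyc 1 T.D) (h : HomEqNum W T.X) :
    NumHodge ops T ↔ HodgeType W T.X T.D := by
  constructor
  · intro hN j hj z hz h0 hz0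
    refine hN j hj z ⟨hz, fun i w hi hw => ?_⟩ fun h2 => hz0 (h j (by omega) z hz h2)
    have h3 : T.X.IsCyc (j + (T.X.dim + 1 - 2 * j)) (divPow ops T.D (T.X.dim + 1 - 2 * j) z) :=
      divPow_mem (ops := ops) hD _ hz
    have h4 : T.X.IsCyc T.X.dim (ops.mul (divPow ops T.D (T.X.dim + 1 - 2 * j) z) w) := by
      have h5 := ops.mul_mem h3 hw
      rwa [show j + (T.X.dim + 1 - 2 * j) + i = T.X.dim by omega] at h5
    have h6 : ((T.X.V.degCycle (ops.mul (divPow ops T.D (T.X.dim + 1 - 2 * j) z) w) : ℚ) :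
        W.K) = ((0 : ℚ) : W.K) := by
      rw [← W.tr_cl h4, W.cl_mul, show T.X.dim + 1 - 2 * j = T.X.dim - 2 * j + 1 by omega, h0,
        zero_mul, map_zero, Rat.cast_zero]
    exact Rat.cast_injective h6
  · intro hH j hj z hz hz0
    refine hH j hj z hz.1 ?_ fun h2 => hz0 fun w hw => ?_
    · have h3 : T.X.IsCyc (j + (T.X.dim + 1 - 2 * j)) (divPow ops T.D (T.X.dim + 1 - 2 * j) z) :=
        divPow_mem (ops := ops) hD _ hz.1
      rw [show T.X.dim - 2 * j + 1 = T.X.dim + 1 - 2 * j by omega]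
      rcases Nat.eq_zero_or_pos j with rfl | hj0
      · have h4 := W.cl_mem h3
        rw [W.gr_eq_bot T.X _ (by omega), Submodule.mem_bot] at h4
        exact h4
      · refine h _ (by omega) _ h3 fun w hw => ?_
        refine hz.2 (j - 1) w (by omega) ?_
        rwa [show T.X.dim - (j + (T.X.dim + 1 - 2 * j)) = j - 1 by omega] at hw
    · have h4 : T.X.IsCyc T.X.dim (ops.mul z w) := by
        have h5 := ops.mul_mem hz.1 hw
        rwa [show j + (T.X.dim - j) = T.X.dim by omega] at h5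
      have h6 : ((T.X.V.degCycle (ops.mul z w) : ℚ) : W.K) = ((0 : ℚ) : W.K) := by
        rw [← W.tr_cl h4, W.cl_mul, h2, zero_mul, map_zero, Rat.cast_zero]
      exact Rat.cast_injective h6

/-- **The numerical Hodge standard conjecture for the products of an abelian variety of dimension `g`
with the powers of all but `g` ordinary elliptic curves.** -/
theorem final_num (W : WeilCohomology.{u, v} ops) [IsAlgClosed W.K] (σ : W.K →+* ℂ)
    (p : ℕ) (hp : p.Prime) (Φ : FrobSystem W p) (hRH : ∀ Z : 𝒱.Obj, RiemannHyp Φ σ Z)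
    {I : Type w} (E : I → 𝒱.Obj) (a : I → ℤ) (hE : EllipticFamily Φ σ E a) :
    (∀ (i : I) (D : (E i).Cycles), (E i).IsCyc 1 D →
      0 < (E i).V.degCycle (divPow ops D (E i).dim (E i).V.fundCycle) →
        ∀ n, IsHodgePol W (power (E i) n) (powDiv ops D n)) ∧
    (∀ (F : Finset I) (Q : Polarized 𝒱), IsMixedPol W E F Q → NumHodge ops Q) ∧
    ∀ (A : 𝒱.Obj) (g : ℕ), IsAbelian W A g → ∃ S : Finset I, S.card ≤ g ∧
      ∀ (F : Finset I) (Q : Polarized 𝒱), IsMixedPol W E F Q → Disjoint F S →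
        ∀ T : Polarized 𝒱, GeneratedBy Φ σ A T.X → IsNumPol W T → NumIff W Q T := by
  obtain ⟨hE, hD⟩ := hE
  have : Fact p.Prime := ⟨hp⟩
  have hind := independent_of_elliptic hRH hE hD
  have hsat : ∀ i n, Sat Φ σ (power (E i) n) := fun i n =>
    sat_of_pole (hRH _) (tatePowers_of_curve hRH ((hE i).maximal (hRH _)) n).1
      (tatePowers_of_curve hRH ((hE i).maximal (hRH _)) n).2
  have h1 : iSupIndep fun i => vZ Φ σ (E i) := iSupIndep_of hind
  refine ⟨fun i D hD hdeg n => isHodgePol_power (hRH _) (hE i) hD hdeg n, fun F Q hQ => ?_,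
    fun A g hA => ?_⟩
  · obtain ⟨f, hf⟩ := hQ.lw
    exact (numHodge_iff hf.hD ((sat_mixed h1 hsat hQ.isMixed).homEqNum (hRH _))).2
      (hQ.hodge hRH h1 hsat)
  · obtain ⟨S, hS, h2⟩ := exists_few' hind (finrank_abelian hA)
    refine ⟨S, hS, fun F Q hQ hFS T hT hTP => ?_⟩
    obtain ⟨f, hf⟩ := hQ.lw
    have h3 := standardIff hRH hQ.lw hQ.one_ne (hQ.hodge hRH h1 hsat)
      (sat_mixed h1 hsat hQ.isMixed) (h2 F Q.X hQ.isMixed hFS T.X hT) hTP.div hTP.hardLef
    have h4 : HomEqNum W (Q.prod ops T).X := h3.2.2.2 hTP.homNum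
    have h5 : (Q.prod ops T).X.IsCyc 1 (Q.prod ops T).D :=
      SmVar.IsCyc.add (ops.pull_mem _ hf.hD) (ops.pull_mem _ hTP.div)
    exact ⟨by rw [numHodge_iff h5 h4, numHodge_iff hTP.div hTP.homNum]; exact h3.1, h4⟩

end Pool.Agent.R919.FF
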