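import Pool.Agent.R919.FF.Ind
import Pool.Agent.R940.Main
import Pool.Agent.TH132.P.TateT
import Pool.Agent.Y133.Half.TateSS

/-!
# The classes of the eigenvalues of Frobenius on products
-/

set_option autoImplicit false

open CategoryTheory AlgebraicGeometry Module
open scoped TensorProduct

universe u v w

namespace Pool.Agent.R919.FF

open Pool.Agent.H914 Pool.Agent.W534 VarClass Obj WeilCohomology Pool.Agent.H281R3.HT
open Pool.Agent.Y163 (HBasis)
open Pool.Agent.R940 (IsEig repr_zero root_charpoly exists_ebasis)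
open Pool.Agent.TH132.P (exists_levels card_eq)

variable {k : Type u} [Field k] {𝒱 : VarClass k} {ops : CycleOps 𝒱}
  {W : WeilCohomology.{u, v} ops} {X Y Z : 𝒱.Obj} {p : ℕ} {Φ : FrobSystem W p}
  {σ : W.K →+* ℂ} [Fact p.Prime]

omit [Fact p.Prime] in
lemma pC (Φ : FrobSystem W p) : (p : ℂ) ≠ 0 := Nat.cast_ne_zero.2 Φ.p_pos.ne'

section Basis

variable {ι : Type v} {B : HBasis W Z ι} {lam : ι → W.K}

lemma lam_ne (hB : IsEig Φ B lam) (l : ι) : lam l ≠ 0 := by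
  intro h0
  obtain ⟨n, hn⟩ := (Module.End.mem_maxGenEigenspace _ _ _).1 (hB l)
  rw [h0, zero_smul, sub_zero] at hn
  have h1 := frob_pow_injective (Φ := Φ) (Z := Z) 1 n
  exact B.b.ne_zero l (h1 (by rw [hn, map_zero]))

lemma lam_mem (σ : W.K →+* ℂ) (hB : IsEig Φ B lam) (l : ι) : σ (lam l) ∈ eigenvalues Φ σ Z := by
  refine ⟨B.deg l, ?_⟩
  rw [frobPoly_eq]
  exact (root_charpoly hB l).map

lemma basis_gen (hB : IsEig Φ B lam) (s : ℕ) (l : ι) :
    B.b l ∈ (frob Φ Z s).maxGenEigenspace (lam l ^ s) := by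
  have h1 := gen_mono (frob Φ Z 1) (lam l) s (hB l)
  rwa [← frob_mul_eq, one_mul] at h1

/-- Each eigenvalue occurs for the basis. -/
lemma exists_lam [Finite ι] (hB : IsEig Φ B lam) {s : ℕ} {μ : W.K} {x : W.H Z}
    (hx : x ∈ (frob Φ Z s).maxGenEigenspace μ) (hx0 : x ≠ 0) : ∃ l, lam l ^ s = μ := by
  by_contra hcon
  push Not at hcon
  apply hx0
  apply B.b.ext_elem
  intro l
  rw [map_zero]
  exact repr_zero (Module.End.independent_maxGenEigenspace (frob Φ Z s)) B.b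
    (fun l => lam l ^ s) (fun l => basis_gen hB s l) hx (hcon l)

/-- The unit of a letter. -/
noncomputable def ul (σ : W.K →+* ℂ) (hB : IsEig Φ B lam) (l : ι) : ℂˣ :=
  Units.mk0 (σ (lam l)) (fun h => lam_ne hB l (σ.injective (by rw [h, map_zero])))

end Basis

/-- The span of the classes of the eigenvalues. -/
noncomputable def vZ (Φ : FrobSystem W p) (σ : W.K →+* ℂ) (Z : 𝒱.Obj) :
    Submodule ℚ (QL (pu p (pC Φ))) := vS (pu p (pC Φ)) (eigenvalues Φ σ Z)

lemma ul_mem {ι : Type v} {B : HBasis W Z ι} {lam : ι → W.K} (hB : IsEig Φ B lam) (l : ι) :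
    cls (pu p (pC Φ)) (ul σ hB l) ∈ vZ Φ σ Z := mem_vS (lam_mem σ hB l)

/-- A root of the Frobenius polynomial is the eigenvalue of a letter. -/
lemma exists_letter {ι : Type v} [Finite ι] {B : HBasis W Z ι} {lam : ι → W.K}
    [IsAlgClosed W.K] (hB : IsEig Φ B lam)
    {z : ℂ} {i : ℕ} (hz : (frobPoly Φ σ Z 1 i).IsRoot z) : ∃ l, σ (lam l) = z := by
  rw [frobPoly_eq] at hz
  have hmon : ((frobOn Φ Z 1 i).charpoly.map σ).Monic := (LinearMap.charpoly_monic _).map σ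
  have h0 : z ∈ ((frobOn Φ Z 1 i).charpoly.map σ).roots :=
    (Polynomial.mem_roots hmon.ne_zero).2 hz
  rw [(IsAlgClosed.splits (frobOn Φ Z 1 i).charpoly).roots_map σ, Multiset.mem_map] at h0
  obtain ⟨ν, hν, rfl⟩ := h0
  have h1 : (frobOn Φ Z 1 i).HasEigenvalue ν :=
    (Module.End.hasEigenvalue_iff_isRoot_charpoly _ _).2 (Polynomial.isRoot_of_mem_roots hν)
  obtain ⟨v, hv⟩ := h1.exists_hasEigenvector
  have hv1 : frob Φ Z 1 (v : W.H Z) = ν • (v : W.H Z) := by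
    have := congrArg Subtype.val (Module.End.mem_eigenspace_iff.1 hv.1)
    exact this
  have h2 : (v : W.H Z) ∈ (frob Φ Z 1).maxGenEigenspace ν := by
    rw [Module.End.mem_maxGenEigenspace]
    refine ⟨1, ?_⟩
    rw [pow_one, LinearMap.sub_apply, LinearMap.smul_apply, Module.End.one_apply, hv1, sub_self]
  obtain ⟨l, hl⟩ := exists_lam hB h2 (fun h => hv.2 (Subtype.ext h))
  exact ⟨l, by rw [← hl, pow_one]⟩

lemma eigenvalues_finite [IsAlgClosed W.K] (Φ : FrobSystem W p) (σ : W.K →+* ℂ) (Z : 𝒱.Obj) :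
    (eigenvalues Φ σ Z).Finite := by
  obtain ⟨ι, hfin, B, lam, hB⟩ := exists_ebasis Φ Z
  refine (Set.finite_range fun l => σ (lam l)).subset ?_
  rintro z ⟨i, hz⟩
  exact exists_letter hB hz

/-- Generalised eigenvectors on a product. -/
lemma gen_prod {ι κ : Type v} [Finite ι] [Finite κ] {B : HBasis W X ι} {B' : HBasis W Y κ}
    {lam : ι → W.K} {lam' : κ → W.K} (hB : IsEig Φ B lam) (hB' : IsEig Φ B' lam')
    {A b b' : ℕ} (hA : ∀ s, ∀ x : W.H X ⊗[W.K] W.H Y, frob Φ (X.prod Y) (A * s)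
      (kunnethMap (W.map (fst X Y)) (W.map (snd X Y)) x) = kunnethMap (W.map (fst X Y))
        (W.map (snd X Y)) (TensorProduct.map (frob Φ X (b * s)) (frob Φ Y (b' * s)) x))
    {s : ℕ} {μ : W.K} {z : W.H (X.prod Y)} (hz : z ∈ (frob Φ (X.prod Y) s).maxGenEigenspace μ) :
    z ∈ Submodule.span W.K {w | ∃ (l : ι) (m : κ),
      lam l ^ (b * s) * lam' m ^ (b' * s) = μ ^ A ∧ w = ext W (B.b l) (B'.b m)} := by
  classical
  have hft : Fintype ι := Fintype.ofFinite ι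
  have hft' : Fintype κ := Fintype.ofFinite κ
  set C : Basis (ι × κ) W.K (W.H (X.prod Y)) :=
    (B.b.tensorProduct B'.b).map (kappa W X Y) with hC
  have hC' : ∀ x : ι × κ, C x = ext W (B.b x.1) (B'.b x.2) := fun x => by
    rw [hC, Basis.map_apply, Basis.tensorProduct_apply', kappa_tmul]
    rfl
  have h1 : ∀ x : ι × κ, C x ∈ (frob Φ (X.prod Y) (A * s)).maxGenEigenspace
      (lam x.1 ^ (b * s) * lam' x.2 ^ (b' * s)) := by
    intro x
    rw [hC']
    have h2 := Pool.Agent.W458.MF.gen_mul (TensorProduct.mk W.K (W.H X) (W.H Y))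
      (T'' := TensorProduct.map (frob Φ X (b * s)) (frob Φ Y (b' * s)))
      (fun x y => TensorProduct.map_tmul _ _ x y) (basis_gen hB (b * s) x.1)
      (basis_gen hB' (b' * s) x.2)
    exact Pool.Agent.R940.gen_semi (θ := kunnethMap (W.map (fst X Y)) (W.map (snd X Y)))
      (g := frob Φ (X.prod Y) (A * s)) (fun x => hA s x) h2
  have h2 : z ∈ (frob Φ (X.prod Y) (A * s)).maxGenEigenspace (μ ^ A) := by
    have h3 := gen_mono (frob Φ (X.prod Y) s) μ A hz
    rwa [← frob_mul_eq, mul_comm s A] at h3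
  rw [← C.sum_repr z]
  refine Submodule.sum_mem _ fun x _ => ?_
  by_cases h3 : lam x.1 ^ (b * s) * lam' x.2 ^ (b' * s) = μ ^ A
  · exact Submodule.smul_mem _ _ (Submodule.subset_span ⟨x.1, x.2, h3, hC' x⟩)
  · rw [repr_zero (Module.End.independent_maxGenEigenspace (frob Φ (X.prod Y) (A * s))) C
      (fun x => lam x.1 ^ (b * s) * lam' x.2 ^ (b' * s)) h1 h2 h3, zero_smul]
    exact Submodule.zero_mem _

/-- The class of a product of powers. -/
lemma cls_rel {ι κ : Type v} {B : HBasis W X ι} {B' : HBasis W Y κ}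
    {lam : ι → W.K} {lam' : κ → W.K} (hB : IsEig Φ B lam) (hB' : IsEig Φ B' lam')
    {l : ι} {m : κ} {b b' A : ℕ} {μ : W.K} {u : ℂˣ} (hu : (u : ℂ) = σ μ)
    (h : lam l ^ b * lam' m ^ b' = μ ^ A) :
    (b : ℚ) • cls (pu p (pC Φ)) (ul σ hB l) + (b' : ℚ) • cls (pu p (pC Φ)) (ul σ hB' m) =
      (A : ℚ) • cls (pu p (pC Φ)) u := by
  have h1 : ul σ hB l ^ b * ul σ hB' m ^ b' = u ^ A := by
    apply Units.ext
    rw [Units.val_mul, Units.val_pow_eq_pow_val, Units.val_pow_eq_pow_val,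
      Units.val_pow_eq_pow_val, hu, ← map_pow, ← h, map_mul, map_pow, map_pow]
    rfl
  have h2 := congrArg (cls (pu p (pC Φ))) h1
  rw [cls_mul, cls_pow, cls_pow, cls_pow, ← Nat.cast_smul_eq_nsmul ℚ, ← Nat.cast_smul_eq_nsmul ℚ,
    ← Nat.cast_smul_eq_nsmul ℚ] at h2
  exact h2

/-- The eigenvalues of a product. -/
lemma vZ_prod [IsAlgClosed W.K] (X Y : 𝒱.Obj) : vZ Φ σ (X.prod Y) ≤ vZ Φ σ X ⊔ vZ Φ σ Y := by
  obtain ⟨ι, hfin, B, lam, hB⟩ := exists_ebasis Φ X
  obtain ⟨κ, hfin', B', lam', hB'⟩ := exists_ebasis Φ Y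
  obtain ⟨τ, hfin'', B'', lam'', hB''⟩ := exists_ebasis Φ (X.prod Y)
  obtain ⟨A, b, b', hA, hb, hb', -, -, h1⟩ := exists_levels Φ X Y
  rw [vZ, vS, Submodule.span_le]
  rintro _ ⟨u, ⟨i, hz⟩, rfl⟩
  obtain ⟨l, hl⟩ := exists_letter hB'' hz
  have h2 := gen_prod hB hB' h1 (basis_gen hB'' 1 l)
  have h3 : ∃ (a : ι) (m : κ), lam a ^ (b * 1) * lam' m ^ (b' * 1) = (lam'' l ^ 1) ^ A := by
    by_contra hcon
    push Not at hcon
    have h4 : {w | ∃ (a : ι) (m : κ), lam a ^ (b * 1) * lam' m ^ (b' * 1) = (lam'' l ^ 1) ^ A ∧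
        w = ext W (B.b a) (B'.b m)} = ∅ := by
      rw [Set.eq_empty_iff_forall_notMem]
      rintro w ⟨a, m, h5, -⟩
      exact hcon a m h5
    rw [h4, Submodule.span_empty, Submodule.mem_bot] at h2
    exact B''.b.ne_zero l h2
  obtain ⟨a, m, h4⟩ := h3
  rw [mul_one, mul_one, pow_one] at h4
  have h5 := cls_rel (u := u) hB hB' hl.symm h4
  have h6 : cls (pu p (pC Φ)) u = (A : ℚ)⁻¹ • ((A : ℚ) • cls (pu p (pC Φ)) u) := by
    rw [smul_smul, inv_mul_cancel₀ (by exact_mod_cast hA.ne'), one_smul]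
  rw [SetLike.mem_coe, h6, ← h5]
  refine Submodule.smul_mem _ _ (Submodule.add_mem _ ?_ ?_)
  · exact Submodule.smul_mem _ _ (Submodule.mem_sup_left (ul_mem hB a))
  · exact Submodule.smul_mem _ _ (Submodule.mem_sup_right (ul_mem hB' m))

lemma vZ_power [IsAlgClosed W.K] (X : 𝒱.Obj) (n : ℕ) : vZ Φ σ (power X n) ≤ vZ Φ σ X := by
  induction n with
  | zero => exact le_rfl
  | succ n ih => exact (vZ_prod X (power X n)).trans (sup_le le_rfl ih)

lemma vZ_mixed [IsAlgClosed W.K] {I : Type w} {X : I → 𝒱.Obj} {F : Finset I} {Q : 𝒱.Obj}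
    (h : IsMixed X F Q) : vZ Φ σ Q ≤ ⨆ i ∈ F, vZ Φ σ (X i) := by
  induction h with
  | one i n =>
    refine (vZ_power (X i) n).trans ?_
    exact le_iSup₂_of_le (f := fun j (_ : j ∈ ({i} : Finset I)) => vZ Φ σ (X j)) i
      (Finset.mem_singleton_self i) le_rfl
  | cons i n F Q hi hQ ih =>
    refine (vZ_prod _ _).trans (sup_le ?_ ?_)
    · refine (vZ_power (X i) n).trans ?_
      exact le_iSup₂_of_le (f := fun j (_ : j ∈ Finset.cons i F hi) => vZ Φ σ (X j)) i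
        (Finset.mem_cons_self i F) le_rfl
    · refine ih.trans (iSup₂_le fun j hj => ?_)
      exact le_iSup₂_of_le (f := fun j (_ : j ∈ Finset.cons i F hi) => vZ Φ σ (X j)) j
        (Finset.mem_cons_of_mem hj) le_rfl

end Pool.Agent.R919.FF
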