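import Pool.Agent.R919.FF.Curve
import Pool.Agent.R919.FF.Num

/-!
# Ordinary elliptic curves
-/

set_option autoImplicit false
set_option linter.unusedSectionVars false

open CategoryTheory AlgebraicGeometry Module
open scoped TensorProduct

universe u v w

namespace Pool.Agent.R919.FF

open Pool.Agent.H914 Pool.Agent.W534 VarClass Obj WeilCohomology Pool.Agent.H281R3.HT
open Pool.Agent.Y163 (HBasis)
open Pool.Agent.R940 (IsEig gen_semi gen_bilin frob_mul' repr_zero root_charpoly exists_ebasis)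
open Pool.Agent.R936 (exists_dual)

variable {k : Type u} [Field k] {𝒱 : VarClass k} {ops : CycleOps 𝒱}
  {W : WeilCohomology.{u, v} ops} {X Y Z U : 𝒱.Obj} {p : ℕ} {Φ : FrobSystem W p}
  {σ : W.K →+* ℂ} [Fact p.Prime]

/-- The eigenvalues of a curve. -/
lemma eigenvalues_curve [IsAlgClosed W.K] (hRH : RiemannHyp Φ σ X) (hdim : X.dim = 1) {z : ℂ}
    (hz : z ∈ eigenvalues Φ σ X) : PPower p z ∨ (frobPoly Φ σ X 1 1).IsRoot z := by
  obtain ⟨ι, hfin, B, lam, hB⟩ := exists_ebasis Φ X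
  obtain ⟨i, hi⟩ := hz
  obtain ⟨l, rfl⟩ := exists_letter hB hi
  have hdeg : B.deg l ≤ 2 := by
    by_contra hcon
    push Not at hcon
    have h1 := B.mem l
    rw [W.gr_eq_bot X _ (by omega)] at h1
    exact B.b.ne_zero l ((Submodule.mem_bot _).1 h1)
  have key : ∀ d, B.deg l = d → (frobPoly Φ σ X 1 d).IsRoot (σ (lam l)) := by
    rintro d rfl
    rw [frobPoly_eq]
    exact (root_charpoly hB l).map
  obtain h0 | h1 | h2 : B.deg l = 0 ∨ B.deg l = 1 ∨ B.deg l = 2 := by omega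
  · left
    rw [lam_deg_zero hB h0, map_one]
    exact ⟨1, one_pos, 0, by simp⟩
  · exact Or.inr (key 1 h1)
  · left
    obtain ⟨m, h3, h4, -⟩ := exists_dual hB l
    have h5 := tr_rel hB h3
    rw [lam_deg_zero hB (by omega), one_mul, hdim, pow_one] at h5
    rw [h5, map_natCast]
    refine ⟨1, one_pos, ((Φ.e X : ℕ) : ℤ), ?_⟩
    rw [pow_one, zpow_natCast]
    push_cast
    rfl

/-- The Weil numbers of an ordinary elliptic curve. -/
lemma OrdinaryElliptic.exists_weil (hRH : RiemannHyp Φ σ X) {a : ℤ}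
    (h : OrdinaryElliptic Φ σ X a) : ∃ α β : ℂˣ, (α : ℂ) + β = a ∧
      (α : ℂ) * β = (p : ℂ) ^ Φ.e X ∧ ¬ PPower p (α : ℂ) ∧ (α : ℂ) ≠ β ∧
        (∀ z, (frobPoly Φ σ X 1 1).IsRoot z ↔ z = α ∨ z = β) ∧
          (frobPoly Φ σ X 1 1).roots = {(α : ℂ), (β : ℂ)} := by
  have hp0 : (p : ℂ) ≠ 0 := Nat.cast_ne_zero.2 (Fact.out : p.Prime).ne_zero
  have hdeg : (frobPoly Φ σ X 1 1).natDegree = 2 := by
    rw [h.frob]
    compute_degree!
  obtain ⟨α, hα⟩ := IsAlgClosed.exists_root (frobPoly Φ σ X 1 1) (by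
    intro h0
    rw [Polynomial.degree_eq_natDegree (by
      intro h1
      rw [h1, Polynomial.natDegree_zero] at hdeg
      omega), hdeg] at h0
    norm_num at h0)
  set β : ℂ := a - α with hβ
  have hsum : α + β = a := by rw [hβ]; ring
  have hprod : α * β = (p : ℂ) ^ Φ.e X := by
    have h1 := hα
    rw [h.frob, Polynomial.IsRoot.def] at h1
    simp only [Polynomial.eval_add, Polynomial.eval_sub, Polynomial.eval_pow, Polynomial.eval_X,
      Polynomial.eval_mul, Polynomial.eval_C] at h1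
    rw [hβ]
    linear_combination -h1
  have hne0 : (p : ℂ) ^ Φ.e X ≠ 0 := pow_ne_zero _ hp0
  have hα0 : α ≠ 0 := by
    intro h0
    rw [h0, zero_mul] at hprod
    exact hne0 hprod.symm
  have hβ0 : β ≠ 0 := by
    intro h0
    rw [h0, mul_zero] at hprod
    exact hne0 hprod.symm
  have hnorm : ‖α‖ ^ 2 = (p : ℝ) ^ Φ.e X := by
    have h1 := hRH 1 one_pos 1 α hα
    rw [h1, W534.card, mul_one, pow_one]
    push_cast
    rfl
  have hnp : ¬ PPower p α := not_ppower (Fact.out : p.Prime) (Φ.e_pos X) hsum hprod hnorm h.ord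
  have hfac : frobPoly Φ σ X 1 1 = (Polynomial.X - Polynomial.C α) *
      (Polynomial.X - Polynomial.C β) := by
    rw [h.frob, ← hsum, ← hprod, Polynomial.C_add, Polynomial.C_mul]
    ring
  have hroots : (frobPoly Φ σ X 1 1).roots = {α, β} := by
    rw [hfac, Polynomial.roots_mul (mul_ne_zero (Polynomial.X_sub_C_ne_zero α)
      (Polynomial.X_sub_C_ne_zero β)), Polynomial.roots_X_sub_C, Polynomial.roots_X_sub_C]
    rfl
  have hab : α ≠ β := by
    intro h0
    apply hnp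
    refine ⟨2, two_pos, ((Φ.e X : ℕ) : ℤ), ?_⟩
    rw [zpow_natCast, ← hprod, ← h0, sq]
  refine ⟨Units.mk0 α hα0, Units.mk0 β hβ0, hsum, hprod, hnp, hab, fun z => ?_, hroots⟩
  rw [hfac, Polynomial.IsRoot.def, Polynomial.eval_mul, mul_eq_zero, Polynomial.eval_sub,
    Polynomial.eval_sub, Polynomial.eval_X, Polynomial.eval_C, Polynomial.eval_C, sub_eq_zero,
    sub_eq_zero]
  rfl

/-- Ordinary elliptic curves have maximal rank. -/
theorem OrdinaryElliptic.maximal (hRH : RiemannHyp Φ σ X) {a : ℤ}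
    (h : OrdinaryElliptic Φ σ X a) : MaximalRankCurve Φ σ X := by
  obtain ⟨α, β, -, hprod, hnp, hab, hroot, hroots⟩ := h.exists_weil hRH
  refine ⟨h.dim, ?_, 1, fun _ => α, fun b hb => ?_, fun z hz => ⟨0, ?_⟩⟩
  · rw [hroots]
    simpa using hab
  · rw [Fin.prod_univ_one, ← cls_zero_iff (hp := pC Φ), cls_zpow] at hb
    funext i
    rw [Subsingleton.elim i 0, Pi.zero_apply]
    by_contra hne
    rw [← Int.cast_smul_eq_zsmul ℚ] at hb
    rcases smul_eq_zero.1 hb with h1 | h1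
    · exact hne (by exact_mod_cast h1)
    · exact hnp (cls_zero_iff.1 h1)
  · rcases (hroot z).1 hz with h1 | h1
    · exact Or.inl h1
    · right
      rw [h1, mul_comm]
      exact hprod

/-- **Ordinary elliptic curves with different quadratic fields are independent.** -/
theorem independent_of_elliptic [IsAlgClosed W.K] (hRH : ∀ Z : 𝒱.Obj, RiemannHyp Φ σ Z)
    {I : Type w} {X : I → 𝒱.Obj} {a : I → ℤ} (h : ∀ i, OrdinaryElliptic Φ σ (X i) (a i))
    (hD : ∀ i j, i ≠ j → ¬ IsSquare ((a i ^ 2 - 4 * (p : ℤ) ^ Φ.e (X i)) *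
      (a j ^ 2 - 4 * (p : ℤ) ^ Φ.e (X j)))) :
    IndependentModP p fun i => mulSpan (eigenvalues Φ σ (X i)) := by
  choose α β hsum hprod hnp hab hroot hroots using fun i => (h i).exists_weil (hRH (X i))
  refine independentModP_of_weil hsum hprod hab hD (pC Φ) fun i z hz => ?_
  rcases eigenvalues_curve (hRH (X i)) (h i).dim hz with h1 | h1
  · exact Or.inl h1
  · exact Or.inr ((hroot i z).1 h1)

lemma IndependentFamily.out [IsAlgClosed W.K] (hRH : ∀ Z : 𝒱.Obj, RiemannHyp Φ σ Z)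
    {I : Type w} {X : I → 𝒱.Obj} (h : IndependentFamily Φ σ X) :
    (IndependentModP p fun i => mulSpan (eigenvalues Φ σ (X i))) ∧
      ∀ i, TatePowers Φ σ (X i) := by
  rcases h with ⟨h1, h2⟩ | ⟨a, h1, h2⟩
  · refine ⟨h1, fun i => ?_⟩
    rcases h2 i with h3 | h3
    · exact h3
    · exact tatePowers_of_curve hRH h3
  · exact ⟨independent_of_elliptic hRH h1 h2, fun i =>
      tatePowers_of_curve hRH ((h1 i).maximal (hRH (X i)))⟩

end Pool.Agent.R919.FF
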