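import Pool.Agent.R919.FF.Lin

/-!
# Ranks and independence as linear algebra
-/

set_option autoImplicit false

universe w

namespace Pool.Agent.R919.FF

/-- The prime number as a unit. -/
noncomputable def pu (p : ℕ) (hp : (p : ℂ) ≠ 0) : ℂˣ := Units.mk0 (p : ℂ) hp

variable {p : ℕ} {hp : (p : ℂ) ≠ 0}

lemma cls_zero_iff {z : ℂˣ} : cls (pu p hp) z = 0 ↔ PPower p (z : ℂ) := by
  rw [cls_eq_zero, PPower]
  refine exists_congr fun M => and_congr_right fun _ => exists_congr fun c => ?_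
  constructor
  · intro h
    have h1 := congrArg (fun x : ℂˣ => (x : ℂ)) h
    simp only [Units.val_pow_eq_pow_val, Units.val_zpow_eq_zpow_val] at h1
    exact h1
  · intro h
    apply Units.ext
    rw [Units.val_pow_eq_pow_val, Units.val_zpow_eq_zpow_val]
    exact h

/-- The span of the classes of the elements of a set. -/
noncomputable def vS (q : ℂˣ) (S : Set ℂ) : Submodule ℚ (QL q) :=
  Submodule.span ℚ (cls q '' {z : ℂˣ | (z : ℂ) ∈ S})

lemma mem_vS {q : ℂˣ} {S : Set ℂ} {z : ℂˣ} (h : (z : ℂ) ∈ S) : cls q z ∈ vS q S :=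
  Submodule.subset_span ⟨z, h, rfl⟩

lemma vS_mono {q : ℂˣ} {S S' : Set ℂ} (h : S ⊆ S') : vS q S ≤ vS q S' :=
  Submodule.span_mono (Set.image_mono fun _ hz => h hz)

instance vS_finite {q : ℂˣ} {S : Set ℂ} [hS : Finite S] : FiniteDimensional ℚ (vS q S) := by
  refine FiniteDimensional.span_of_finite ℚ (Set.Finite.image _ ?_)
  exact Set.Finite.preimage (Units.val_injective.injOn) (Set.toFinite S)

lemma finrank_vS {S : Set ℂ} (hS : S.Finite) {R : ℕ} (h : RankModLe p S R) :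
    Module.finrank ℚ (vS (pu p hp) S) ≤ R := by
  classical
  have : Finite S := hS
  set t : Set (QL (pu p hp)) := cls (pu p hp) '' {z : ℂˣ | (z : ℂ) ∈ S} with ht
  have htfin : t.Finite := by
    refine Set.Finite.image _ ?_
    exact Set.Finite.preimage (Units.val_injective.injOn) hS
  obtain ⟨b, hb1, hb2, hb3⟩ := exists_linearIndependent ℚ t
  have hbfin : b.Finite := htfin.subset hb1
  have : Fintype b := hbfin.fintype
  have h1 : Module.finrank ℚ (vS (pu p hp) S) = Fintype.card b := by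
    rw [vS, ← ht, ← hb2]
    have h2 := finrank_span_eq_card (R := ℚ) hb3
    rwa [Subtype.range_coe] at h2
  rw [h1]
  by_contra hcon
  push Not at hcon
  have hemb : Nonempty (Fin (R + 1) ↪ b) := by
    rw [Function.Embedding.nonempty_iff_card_le, Fintype.card_fin]
    omega
  obtain ⟨g⟩ := hemb
  have h3 : ∀ i : Fin (R + 1), ∃ z : ℂˣ, (z : ℂ) ∈ S ∧ cls (pu p hp) z = (g i : QL (pu p hp)) :=
    fun i => by
      obtain ⟨z, hz, hz'⟩ := hb1 (g i).2
      exact ⟨z, hz, hz'⟩
  choose z hz hz' using h3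
  obtain ⟨a, ha, ha'⟩ := h (fun i => (z i : ℂ)) hz
  have h4 : cls (pu p hp) (∏ i, z i ^ a i) = 0 := by
    rw [cls_zero_iff]
    have e1 : ((∏ i, z i ^ a i : ℂˣ) : ℂ) = ∏ i, (z i : ℂ) ^ a i := by
      push_cast
      rfl
    rw [e1]
    exact ha'
  rw [cls_prod] at h4
  have h5 : ∑ i, (a i : ℚ) • (g i : QL (pu p hp)) = 0 := by
    rw [← h4]
    refine Finset.sum_congr rfl fun i _ => ?_
    rw [cls_zpow, hz', Int.cast_smul_eq_zsmul]
  have h6 : LinearIndependent ℚ (fun i : Fin (R + 1) => (g i : QL (pu p hp))) :=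
    hb3.comp g g.injective
  have h7 := Fintype.linearIndependent_iff.1 h6 (fun i => (a i : ℚ)) h5
  apply ha
  funext i
  have := h7 i
  exact_mod_cast this

lemma mulSpan_cls {q : ℂˣ} {S : Set ℂ} {γ : ℂˣ} (h : γ ∈ mulSpan S) : cls q γ ∈ vS q S := by
  rw [mulSpan] at h
  induction h using Subgroup.closure_induction with
  | mem x hx => exact mem_vS hx
  | one => rw [cls_one]; exact Submodule.zero_mem _
  | mul x y _ _ hx hy => rw [cls_mul]; exact Submodule.add_mem _ hx hy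
  | inv x _ hx => rw [cls_inv]; exact Submodule.neg_mem _ hx

/-- Clearing denominators. -/
lemma exists_mulSpan {q : ℂˣ} {S : Set ℂ} {x : QL q} (h : x ∈ vS q S) :
    ∃ (N : ℕ) (γ : ℂˣ), 0 < N ∧ γ ∈ mulSpan S ∧ (N : ℚ) • x = cls q γ := by
  rw [vS] at h
  induction h using Submodule.span_induction with
  | mem x hx =>
    obtain ⟨z, hz, rfl⟩ := hx
    exact ⟨1, z, one_pos, Subgroup.subset_closure hz, by rw [Nat.cast_one, one_smul]⟩
  | zero => exact ⟨1, 1, one_pos, Subgroup.one_mem _, by rw [smul_zero, cls_one]⟩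
  | add x y _ _ hx hy =>
    obtain ⟨N, γ, hN, hγ, h1⟩ := hx
    obtain ⟨N', γ', hN', hγ', h2⟩ := hy
    refine ⟨N * N', γ ^ N' * γ' ^ N, Nat.mul_pos hN hN',
      Subgroup.mul_mem _ (Subgroup.pow_mem _ hγ _) (Subgroup.pow_mem _ hγ' _), ?_⟩
    rw [cls_mul, cls_pow, cls_pow, ← h1, ← h2, smul_add, ← Nat.cast_smul_eq_nsmul ℚ,
      ← Nat.cast_smul_eq_nsmul ℚ, smul_smul, smul_smul]
    push_cast
    rw [mul_comm (N' : ℚ) N]
  | smul r x _ hx =>
    obtain ⟨N, γ, hN, hγ, h1⟩ := hx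
    refine ⟨r.den * N, γ ^ r.num, Nat.mul_pos r.den_pos hN, Subgroup.zpow_mem _ hγ _, ?_⟩
    rw [cls_zpow, ← h1, ← Int.cast_smul_eq_zsmul ℚ, smul_smul, smul_smul]
    congr 1
    push_cast
    have := Rat.mul_den_eq_num r
    rw [← this]
    ring

/-- Elements of the sum of several spans. -/
lemma exists_prod {q : ℂˣ} {I : Type w} [DecidableEq I] {S : I → Set ℂ} {i : I} {x : QL q}
    (h : x ∈ ⨆ j ≠ i, vS q (S j)) :
    ∃ (N : ℕ) (F : Finset I) (γ : I → ℂˣ), 0 < N ∧ i ∉ F ∧ (∀ j ∈ F, γ j ∈ mulSpan (S j)) ∧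
      (N : ℚ) • x = cls q (∏ j ∈ F, γ j) := by
  rw [iSup_subtype' (p := fun j => j ≠ i) (f := fun j _ => vS q (S j))] at h
  induction h using Submodule.iSup_induction' with
  | mem j x hx =>
    obtain ⟨N, γ, hN, hγ, h1⟩ := exists_mulSpan hx
    refine ⟨N, {(j : I)}, fun _ => γ, hN, ?_, ?_, ?_⟩
    · rw [Finset.mem_singleton]
      exact fun h => j.2 h.symm
    · intro l hl
      rw [Finset.mem_singleton] at hl
      rw [hl]
      exact hγ
    · rw [Finset.prod_singleton, h1]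
  | zero => exact ⟨1, ∅, fun _ => 1, one_pos, by simp, by simp, by simp [cls_one]⟩
  | add x y _ _ hx hy =>
    obtain ⟨N, F, γ, hN, hF, hγ, h1⟩ := hx
    obtain ⟨N', F', γ', hN', hF', hγ', h2⟩ := hy
    refine ⟨N * N', F ∪ F', fun j => (if j ∈ F then γ j else 1) ^ N' *
      (if j ∈ F' then γ' j else 1) ^ N, Nat.mul_pos hN hN', ?_, ?_, ?_⟩
    · rw [Finset.mem_union]
      rintro (h | h)
      · exact hF h
      · exact hF' h
    · intro j _
      refine Subgroup.mul_mem _ (Subgroup.pow_mem _ ?_ _) (Subgroup.pow_mem _ ?_ _)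
      · split_ifs with h
        · exact hγ j h
        · exact Subgroup.one_mem _
      · split_ifs with h
        · exact hγ' j h
        · exact Subgroup.one_mem _
    · rw [Finset.prod_mul_distrib, cls_mul, Finset.prod_pow, Finset.prod_pow, cls_pow, cls_pow]
      have e1 : ∏ j ∈ F ∪ F', (if j ∈ F then γ j else 1) = ∏ j ∈ F, γ j := by
        rw [Finset.prod_ite_mem]
        congr 1
        exact Finset.union_inter_cancel_left
      have e2 : ∏ j ∈ F ∪ F', (if j ∈ F' then γ' j else 1) = ∏ j ∈ F', γ' j := by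
        rw [Finset.prod_ite_mem]
        congr 1
        exact Finset.union_inter_cancel_right
      rw [e1, e2, ← h1, ← h2, smul_add, ← Nat.cast_smul_eq_nsmul ℚ,
        ← Nat.cast_smul_eq_nsmul ℚ, smul_smul, smul_smul]
      push_cast
      rw [mul_comm (N' : ℚ) N]

theorem iSupIndep_of {I : Type w} {S : I → Set ℂ}
    (h : IndependentModP p fun i => mulSpan (S i)) :
    iSupIndep fun i => vS (pu p hp) (S i) := by
  classical
  intro i
  rw [Submodule.disjoint_def]
  intro x hx hx'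
  obtain ⟨N, γ, hN, hγ, h1⟩ := exists_mulSpan hx
  obtain ⟨N', F, γ', hN', hF, hγ', h2⟩ := exists_prod hx'
  have h3 : cls (pu p hp) (γ ^ (N' : ℤ) * ∏ j ∈ F, (γ' j) ^ (-(N : ℤ))) = 0 := by
    rw [cls_mul, Finset.prod_zpow, cls_zpow, cls_zpow, ← h1, ← h2, ← Int.cast_smul_eq_zsmul ℚ,
      ← Int.cast_smul_eq_zsmul ℚ, smul_smul, smul_smul, ← add_smul]
    push_cast
    rw [show (N' : ℚ) * N + -(N : ℚ) * N' = 0 by ring, zero_smul]
  rw [cls_zero_iff] at h3
  have h4 := h (Finset.cons i F hF)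
    (fun j => if j = i then γ ^ (N' : ℤ) else (γ' j) ^ (-(N : ℤ))) ?_ ?_ i
    (Finset.mem_cons_self _ _)
  · rw [if_pos rfl, ← cls_zero_iff (hp := hp), cls_zpow, ← h1, ← Int.cast_smul_eq_zsmul ℚ,
      smul_smul] at h4
    rcases smul_eq_zero.1 h4 with h5 | h5
    · exfalso
      have h6 : ((N' : ℚ)) * N ≠ 0 := by positivity
      apply h6
      exact_mod_cast h5
    · exact h5
  · intro j hj
    by_cases hji : j = i
    · subst hji
      rw [if_pos rfl]
      exact Subgroup.zpow_mem _ hγ _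
    · rw [if_neg hji]
      exact Subgroup.zpow_mem _ (hγ' j ((Finset.mem_cons.1 hj).resolve_left hji)) _
  · rw [Finset.prod_cons, if_pos rfl]
    have e1 : ∏ j ∈ F, (if j = i then γ ^ (N' : ℤ) else (γ' j) ^ (-(N : ℤ))) =
        ∏ j ∈ F, (γ' j) ^ (-(N : ℤ)) := by
      refine Finset.prod_congr rfl fun j hj => ?_
      rw [if_neg]
      rintro rfl
      exact hF hj
    rw [e1]
    exact h3

end Pool.Agent.R919.FF
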