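import Pool.Agent.R919.FF.Def

/-!
# The rational vector space of the numbers modulo powers of `p`
-/

set_option autoImplicit false

open scoped TensorProduct

universe w

namespace Pool.Agent.R919.FF

section pivot

variable {K E : Type*} [Field K] [AddCommGroup E] [Module K E] {I : Type w}

/-- Independent subspaces meet a subspace of dimension `r`, apart from at most `r` of them, in zero. -/
theorem pivot (Wf : I → Submodule K E) (hW : iSupIndep Wf) (V : Submodule K E)
    [FiniteDimensional K V] :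
    ∀ (r : ℕ) (T : Set I), Module.finrank K (V ⊓ ⨆ i ∈ T, Wf i : Submodule K E) ≤ r →
      ∃ S : Finset I, S.card ≤ r ∧ V ⊓ (⨆ i ∈ T \ (S : Set I), Wf i) = ⊥ := by
  classical
  intro r
  induction r with
  | zero =>
    intro T hT
    have : FiniteDimensional K (V ⊓ ⨆ i ∈ T, Wf i : Submodule K E) :=
      Submodule.finiteDimensional_of_le inf_le_left
    refine ⟨∅, by simp, ?_⟩
    have h1 : (V ⊓ ⨆ i ∈ T, Wf i : Submodule K E) = ⊥ :=
      Submodule.finrank_eq_zero.1 (Nat.le_zero.1 hT)
    simpa using h1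
  | succ r ih =>
    intro T hT
    have hfd : FiniteDimensional K (V ⊓ ⨆ i ∈ T, Wf i : Submodule K E) :=
      Submodule.finiteDimensional_of_le inf_le_left
    by_cases hbot : (V ⊓ ⨆ i ∈ T, Wf i : Submodule K E) = ⊥
    · exact ⟨∅, by simp, by simpa using hbot⟩
    · obtain ⟨v, hv, hv0⟩ := Submodule.exists_mem_ne_zero_of_ne_bot hbot
      -- an index which is needed
      have hex : ∃ i ∈ T, v ∉ ⨆ j ∈ T \ {i}, Wf j := by
        by_contra hcon
        push Not at hcon
        apply hv0
        have hv2 : v ∈ ⨆ i ∈ T, Wf i := hv.2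
        rw [iSup_subtype', Submodule.mem_iSup_iff_exists_dfinsupp'] at hv2
        obtain ⟨f, hf⟩ := hv2
        have hz : ∀ i : T, (f i : E) = 0 := by
          intro i
          have h1 : v ∈ ⨆ j ∈ T \ {(i : I)}, Wf j := hcon i i.2
          have h2 : (f i : E) = v - ∑ j ∈ f.support.erase i, (f j : E) := by
            rw [← hf, DFinsupp.sum]
            by_cases hi : i ∈ f.support
            · rw [← Finset.add_sum_erase _ _ hi]
              abel
            · rw [Finset.erase_eq_of_notMem hi, sub_self]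
              rw [DFinsupp.notMem_support_iff.1 hi]
              rfl
          have h3 : (f i : E) ∈ ⨆ j ≠ (i : I), Wf j := by
            rw [h2]
            refine Submodule.sub_mem _ ?_ (Submodule.sum_mem _ fun j hj => ?_)
            · have hle : (⨆ j ∈ T \ {(i : I)}, Wf j) ≤ ⨆ j ≠ (i : I), Wf j :=
                iSup₂_le fun j hj => le_iSup₂_of_le (f := fun j (_ : j ≠ (i : I)) => Wf j) j
                  (fun h => hj.2 h) le_rfl
              exact hle h1
            · have hj' : (j : I) ≠ i := fun h => (Finset.ne_of_mem_erase hj) (Subtype.ext h)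
              exact (le_iSup₂_of_le (f := fun j (_ : j ≠ (i : I)) => Wf j) (j : I) hj' le_rfl)
                (f j).2
          exact (Submodule.disjoint_def.1 (hW i)) _ (f i).2 h3
        rw [← hf, DFinsupp.sum]
        exact Finset.sum_eq_zero fun j _ => hz j
      obtain ⟨i, hi, hvi⟩ := hex
      have hlt : (V ⊓ ⨆ j ∈ T \ {i}, Wf j : Submodule K E) < V ⊓ ⨆ j ∈ T, Wf j := by
        refine lt_of_le_of_ne (inf_le_inf_left _ (biSup_mono fun j hj => hj.1)) ?_
        intro h
        rw [← h] at hv
        exact hvi hv.2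
      have h4 := Submodule.finrank_lt_finrank_of_lt hlt
      obtain ⟨S, hS, hS'⟩ := ih (T \ {i}) (by omega)
      refine ⟨insert i S, (Finset.card_insert_le _ _).trans (by omega), ?_⟩
      rw [← hS']
      congr 2
      ext j
      have e1 : (T \ ((insert i S : Finset I) : Set I)) = (T \ {i}) \ (S : Set I) := by
        ext j
        simp only [Finset.coe_insert, Set.mem_sdiff, Set.mem_insert_iff, Set.mem_singleton_iff,
          not_or, and_assoc]
      rw [e1]

end pivot

section cls

/-- The rational vector space of the nonzero numbers. -/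
abbrev QV := ℚ ⊗[ℤ] Additive ℂˣ

/-- The rational vector space of the nonzero numbers, modulo the powers of `q`. -/
abbrev QL (q : ℂˣ) := QV ⧸ (Submodule.span ℚ {((1 : ℚ) ⊗ₜ[ℤ] Additive.ofMul q : QV)})

/-- The class of a number. -/
def cls (q : ℂˣ) (z : ℂˣ) : QL q := Submodule.Quotient.mk ((1 : ℚ) ⊗ₜ[ℤ] Additive.ofMul z)

variable {q : ℂˣ}

lemma cls_mul (x y : ℂˣ) : cls q (x * y) = cls q x + cls q y := by
  rw [cls, ofMul_mul, TensorProduct.tmul_add, Submodule.Quotient.mk_add]
  rfl

lemma cls_one : cls q 1 = 0 := by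
  rw [cls, ofMul_one, TensorProduct.tmul_zero, Submodule.Quotient.mk_zero]

/-- The class as a homomorphism. -/
def clsHom (q : ℂˣ) : ℂˣ →* Multiplicative (QL q) where
  toFun z := Multiplicative.ofAdd (cls q z)
  map_one' := by rw [cls_one]; rfl
  map_mul' x y := by rw [cls_mul]; rfl

lemma cls_zpow (x : ℂˣ) (n : ℤ) : cls q (x ^ n) = n • cls q x := by
  have h := (clsHom q).map_zpow x n
  exact congrArg Multiplicative.toAdd h

lemma cls_pow (x : ℂˣ) (n : ℕ) : cls q (x ^ n) = n • cls q x := by
  have h := (clsHom q).map_pow x n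
  exact congrArg Multiplicative.toAdd h

lemma cls_inv (x : ℂˣ) : cls q (x⁻¹) = -cls q x := by
  have h := (clsHom q).map_inv x
  exact congrArg Multiplicative.toAdd h

lemma cls_prod {ι : Type*} (s : Finset ι) (f : ι → ℂˣ) :
    cls q (∏ i ∈ s, f i) = ∑ i ∈ s, cls q (f i) := by
  classical
  induction s using Finset.induction_on with
  | empty => simp [cls_one]
  | insert a s ha ih => rw [Finset.prod_insert ha, Finset.sum_insert ha, cls_mul, ih]

lemma one_tmul_eq_zero {x : Additive ℂˣ} (h : ((1 : ℚ) ⊗ₜ[ℤ] x : QV) = 0) :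
    ∃ n : ℤ, n ≠ 0 ∧ n • x = 0 := by
  have h1 : IsLocalizedModule (nonZeroDivisors ℤ) (TensorProduct.mk ℤ ℚ (Additive ℂˣ) 1) :=
    (isLocalizedModule_iff_isBaseChange (nonZeroDivisors ℤ) ℚ _).2
      (TensorProduct.isBaseChange ℤ (Additive ℂˣ) ℚ)
  have h2 : TensorProduct.mk ℤ ℚ (Additive ℂˣ) 1 x = 0 := h
  rw [IsLocalizedModule.eq_zero_iff (nonZeroDivisors ℤ)] at h2
  obtain ⟨s, hs⟩ := h2
  exact ⟨s, nonZeroDivisors.ne_zero s.2, hs⟩

/-- The numbers of class zero. -/
lemma cls_eq_zero {z : ℂˣ} : cls q z = 0 ↔ ∃ M : ℕ, 0 < M ∧ ∃ c : ℤ, z ^ M = q ^ c := by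
  constructor
  · intro h
    rw [cls, Submodule.Quotient.mk_eq_zero, Submodule.mem_span_singleton] at h
    obtain ⟨r, hr⟩ := h
    -- clear the denominator
    have h1 : ((1 : ℚ) ⊗ₜ[ℤ] ((r.den : ℤ) • Additive.ofMul z - r.num • Additive.ofMul q) : QV) =
        0 := by
      rw [TensorProduct.tmul_sub, TensorProduct.tmul_smul, TensorProduct.tmul_smul, ← hr,
        sub_eq_zero]
      rw [TensorProduct.smul_tmul', TensorProduct.smul_tmul', TensorProduct.smul_tmul']
      congr 1
      rw [smul_eq_mul, mul_one, zsmul_eq_mul, zsmul_eq_mul, mul_one]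
      push_cast
      rw [mul_comm]
      exact Rat.mul_den_eq_num r
    obtain ⟨n, hn, h2⟩ := one_tmul_eq_zero h1
    have h3 : (z ^ (r.den : ℤ) * (q ^ r.num)⁻¹) ^ n = 1 := by
      have := congrArg Additive.toMul h2
      rw [← div_eq_mul_inv]
      exact this
    have h4 : z ^ ((r.den : ℤ) * n) = q ^ (r.num * n) := by
      rw [mul_zpow, ← zpow_mul, inv_zpow, ← zpow_mul, mul_inv_eq_one] at h3
      exact h3
    have hden : (0 : ℤ) < r.den := by exact_mod_cast r.den_pos
    rcases lt_trichotomy n 0 with hneg | h0 | hpos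
    · refine ⟨r.den * n.natAbs, Nat.mul_pos r.den_pos (Int.natAbs_pos.2 hn), -(r.num * n), ?_⟩
      rw [← zpow_natCast, zpow_neg, ← h4, ← zpow_neg]
      congr 1
      push_cast
      rw [abs_of_neg hneg]
      ring
    · exact absurd h0 hn
    · refine ⟨r.den * n.natAbs, Nat.mul_pos r.den_pos (Int.natAbs_pos.2 hn), r.num * n, ?_⟩
      rw [← zpow_natCast, ← h4]
      congr 1
      push_cast
      rw [abs_of_pos hpos]
  · rintro ⟨M, hM, c, h⟩
    have h1 : cls q q = 0 := by
      rw [cls, Submodule.Quotient.mk_eq_zero]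
      exact Submodule.mem_span_singleton_self _
    have h2 := congrArg (cls q) h
    rw [cls_pow, cls_zpow, h1, smul_zero, ← Nat.cast_smul_eq_nsmul ℚ] at h2
    rcases smul_eq_zero.1 h2 with h3 | h3
    · exact absurd h3 (by exact_mod_cast hM.ne')
    · exact h3

end cls

end Pool.Agent.R919.FF
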