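import Pool.Agent.R919.FF.Def
import Pool.Agent.TH132.P.Defs

/-!
# The defects in the formula of Tate for products with independent eigenvalues: definitions
-/

set_option autoImplicit false

open CategoryTheory AlgebraicGeometry

universe u v

namespace Pool.Agent.R919.FF

open Pool.Agent.H914 Pool.Agent.W534 VarClass Obj WeilCohomology Pool.Agent.TH132.P

variable {k : Type u} [Field k] {𝒱 : VarClass k} {ops : CycleOps 𝒱}
  {W : WeilCohomology.{u, v} ops} {p : ℕ}

/-- With the defects `δ j` of the formula of Tate for `U` in codimension `j`: for all
`c ≤ dim (X × U)` the rank of the cycles of codimension `c` on `X × U` modulo numerical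
equivalence is the sum over `i + j = c` of the products of the ranks for `X` in codimension `i` and
for `U` in codimension `j`, the defect of `X × U` in codimension `c` is the sum over `i + j = c` of
the products of the rank for `X` in codimension `i` and of `δ j`, and the formula of Tate holds
for `X × U` in codimension `c` if and only if it holds for `U` in codimension `j` for all
`i + j = c` such that there are cycles of codimension `i` on `X` which are not numerically
trivial. -/
def DefectsOf (Φ : FrobSystem W p) (σ : W.K →+* ℂ) (X U : 𝒱.Obj) : Prop :=
  ∃ δ : ℕ → ℕ, (∀ j ≤ U.dim, PoleDefect Φ σ U j (δ j)) ∧ ∀ c ≤ (X.prod U).dim,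
    numRank ops (X.prod U) c = conv X.dim U.dim (numRank ops X) (numRank ops U) c ∧
    PoleDefect Φ σ (X.prod U) c (conv X.dim U.dim (numRank ops X) δ c) ∧
    (PoleFormula Φ σ (X.prod U) c ↔ ∀ i ≤ X.dim, ∀ j ≤ U.dim, i + j = c →
      numRank ops X i ≠ 0 → PoleFormula Φ σ U j)

end Pool.Agent.R919.FF
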