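import Pool.Agent.R919.FF.Spl
import Pool.Agent.R919.FF.PoleDef
import Pool.Agent.R919.FF.Ell

/-!
# The defects in the formula of Tate for products with independent eigenvalues
-/

set_option autoImplicit false

open CategoryTheory AlgebraicGeometry Module
open scoped TensorProduct

universe u v w

namespace Pool.Agent.R919.FF

open Pool.Agent.H914 Pool.Agent.W534 VarClass Obj WeilCohomology Pool.Agent.H281R3.HT
  Pool.Agent.W458.RK Pool.Agent.W552 Pool.Agent.TH132.A
open Pool.Agent.Y163 (HBasis)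
open Pool.Agent.R940 (IsEig repr_zero root_charpoly exists_ebasis pole_of_semisimple)
open Pool.Agent.TH132.P

variable {k : Type u} [Field k] {𝒱 : VarClass k} {ops : CycleOps 𝒱}
  {W : WeilCohomology.{u, v} ops} {X Y Z U : 𝒱.Obj} {p : ℕ} {Φ : FrobSystem W p}
  {σ : W.K →+* ℂ}

section

variable [Fact p.Prime]

theorem defectsOf [IsAlgClosed W.K] (hRH : ∀ Z : 𝒱.Obj, RiemannHyp Φ σ Z)
    (hX : Sat Φ σ X) (hdis : Disjoint (vZ Φ σ X) (vZ Φ σ U)) : DefectsOf Φ σ X U := by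
  have hp : 1 < p := (Fact.out : p.Prime).one_lt
  have hD : HomEqNum W X := hX.homEqNum (hRH X)
  obtain ⟨κ, _, _, e, b, d, h⟩ := exists_hFam hD
  have hS : ∀ z, AS W (X.prod U) z → z ∈ tens W X U := fun z hz =>
    tens_of_splits (hRH X) hX hdis hz
  -- the ranks
  have hrank : ∀ c ≤ (X.prod U).dim, numRank ops (X.prod U) c =
      conv X.dim U.dim (numRank ops X) (numRank ops U) c := by
    intro c hc
    have h1 := finrank_nul (W := W) (Z := X.prod U) c
    rw [← numRank_eq (W := W) hc, h.nul_eq hS hc, h.span_eq hS,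
      h.finrank_combs' hD (fun j hj => nul_bot hj),
      h.finrank_combs' hD (fun j hj => spanCycles_bot hj)] at h1
    have h2 : conv X.dim U.dim (numRank ops X)
        (fun j => Module.finrank W.K (spanCycles W U (j : ℕ))) c =
        conv X.dim U.dim (numRank ops X)
          (fun j => numRank ops U j + Module.finrank W.K (nul W U j)) c :=
      conv_congr (fun _ _ => rfl) fun j hj => by
        rw [numRank_eq (W := W) hj]
        exact (finrank_nul (W := W) (Z := U) j).symm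
    rw [h2, conv_add] at h1
    exact Nat.add_right_cancel h1
  have hdef : ∀ c ≤ (X.prod U).dim, PoleDefect Φ σ (X.prod U) c
      (conv X.dim U.dim (numRank ops X) (defect Φ U) c) := by
    intro c hc
    refine poleDefect_of hp (hRH _) hc ?_
    rw [FF.genT_eq h (splits_of hX hdis), h.finrank_combs' hD (fun j hj => genT_bot hj), hrank c hc,
      ← conv_add]
    exact conv_congr (fun _ _ => rfl) fun j hj => (numRank_add_defect U hj).symm
  have hU' : ∀ j ≤ U.dim, PoleDefect Φ σ U j (defect Φ U j) := fun j hj =>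
    poleDefect_of hp (hRH _) hj (numRank_add_defect U hj).symm
  refine ⟨defect Φ U, hU', fun c hc => ⟨hrank c hc, hdef c hc, ?_⟩⟩
  rw [poleFormula_iff_of (hdef c hc), conv_eq_zero]
  refine forall_congr' fun i => forall_congr' fun hi => forall_congr' fun j =>
    forall_congr' fun hj => forall_congr' fun _ => forall_congr' fun _ => ?_
  exact (poleFormula_iff_of (hU' j hj)).symm

lemma generated_le [IsAlgClosed W.K] {V : 𝒱.Obj} (h : GeneratedBy Φ σ U V) :
    vZ Φ σ V ≤ vZ Φ σ U := by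
  rw [vZ, vS, Submodule.span_le]
  rintro _ ⟨u, hu, rfl⟩
  obtain ⟨M, hM, γ, hγ, h1⟩ := h _ hu
  have h2 : cls (pu p (pC Φ)) (u ^ M * γ) = 0 := by
    rw [cls_zero_iff, Units.val_mul, Units.val_pow_eq_pow_val]
    exact h1
  rw [cls_mul, cls_pow, ← Nat.cast_smul_eq_nsmul ℚ] at h2
  have h3 : cls (pu p (pC Φ)) u = (M : ℚ)⁻¹ • ((M : ℚ) • cls (pu p (pC Φ)) u) := by
    rw [smul_smul, inv_mul_cancel₀ (by exact_mod_cast hM.ne'), one_smul]
  rw [SetLike.mem_coe, h3, eq_neg_of_add_eq_zero_left h2]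
  exact Submodule.smul_mem _ _ (Submodule.neg_mem _ (mulSpan_cls hγ))

lemma generated_power [IsAlgClosed W.K] (U : 𝒱.Obj) (n : ℕ) :
    GeneratedBy Φ σ U (power U n) := by
  rintro z ⟨i, hz⟩
  obtain ⟨ι, hfin, B, lam, hB⟩ := exists_ebasis Φ (power U n)
  obtain ⟨l, hl⟩ := exists_letter hB hz
  have h1 := vZ_power (Φ := Φ) (σ := σ) U n (ul_mem hB l)
  obtain ⟨N, γ, hN, hγ, h2⟩ := exists_mulSpan h1
  refine ⟨N, hN, γ⁻¹, Subgroup.inv_mem _ hγ, ?_⟩
  have h3 : cls (pu p (pC Φ)) (ul σ hB l ^ N * γ⁻¹) = 0 := by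
    rw [cls_mul, cls_pow, cls_inv, ← h2, ← Nat.cast_smul_eq_nsmul ℚ, add_neg_cancel]
  rw [cls_zero_iff, Units.val_mul, Units.val_pow_eq_pow_val] at h3
  rw [← hl]
  exact h3

/-- The few members which are not independent of a given variety. -/
theorem exists_few [IsAlgClosed W.K] {I : Type w} {X : I → 𝒱.Obj}
    (hind : IndependentModP p fun i => mulSpan (eigenvalues Φ σ (X i))) {U : 𝒱.Obj} {R : ℕ}
    (hU : RankModLe p (eigenvalues Φ σ U) R) :
    ∃ S : Finset I, S.card ≤ R ∧ ∀ (F : Finset I) (Q : 𝒱.Obj), IsMixed X F Q → Disjoint F S →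
      ∀ V : 𝒱.Obj, GeneratedBy Φ σ U V → Disjoint (vZ Φ σ Q) (vZ Φ σ V) := by
  have h1 : iSupIndep fun i => vZ Φ σ (X i) := iSupIndep_of hind
  have hfin : (eigenvalues Φ σ U).Finite := eigenvalues_finite Φ σ U
  have : Finite (eigenvalues Φ σ U) := hfin
  have hfd : FiniteDimensional ℚ (vZ Φ σ U) := vS_finite
  obtain ⟨S, hS, hS'⟩ := pivot (fun i => vZ Φ σ (X i)) h1 (vZ Φ σ U) R Set.univ
    ((Submodule.finrank_mono inf_le_left).trans (finrank_vS hfin hU))
  refine ⟨S, hS, fun F Q hQ hFS V hV => ?_⟩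
  have h2 : vZ Φ σ Q ≤ ⨆ i ∈ Set.univ \ (S : Set I), vZ Φ σ (X i) := by
    refine (vZ_mixed hQ).trans (iSup₂_le fun i hi => ?_)
    exact le_iSup₂_of_le (f := fun i (_ : i ∈ Set.univ \ (S : Set I)) => vZ Φ σ (X i)) i
      ⟨Set.mem_univ _, fun h => Finset.disjoint_left.1 hFS hi h⟩ le_rfl
  exact Disjoint.mono h2 (generated_le hV) (disjoint_iff.2 hS').symm

end

/-- **Products of the powers of all but few members of a family with independent Frobenius
eigenvalues with all varieties.** -/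
theorem final_few (W : WeilCohomology.{u, v} ops) [IsAlgClosed W.K] (σ : W.K →+* ℂ)
    (p : ℕ) (hp : p.Prime) (Φ : FrobSystem W p) (hRH : ∀ Z : 𝒱.Obj, RiemannHyp Φ σ Z)
    {I : Type w} (X : I → 𝒱.Obj) (hfam : IndependentFamily Φ σ X) :
    (∀ (F : Finset I) (Q : 𝒱.Obj), IsMixed X F Q → ∀ c ≤ Q.dim, PoleFormula Φ σ Q c) ∧
    ∀ (U : 𝒱.Obj) (R : ℕ), RankModLe p (eigenvalues Φ σ U) R →
      ∃ S : Finset I, S.card ≤ R ∧ ∀ (F : Finset I) (Q : 𝒱.Obj), IsMixed X F Q → Disjoint F S →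
        (∀ V : 𝒱.Obj, GeneratedBy Φ σ U V → DefectsOf Φ σ Q V) ∧
        ∀ n : ℕ, DefectsOf Φ σ Q (power U n) := by
  have : Fact p.Prime := ⟨hp⟩
  obtain ⟨hind, hX⟩ := hfam.out hRH
  have hsat : ∀ i n, Sat Φ σ (power (X i) n) := fun i n =>
    sat_of_pole (hRH _) (hX i n).1 (hX i n).2
  have h1 : iSupIndep fun i => vZ Φ σ (X i) := iSupIndep_of hind
  refine ⟨fun F Q hQ c hc => (sat_mixed h1 hsat hQ).pole (hRH Q) hc, fun U R hU => ?_⟩
  obtain ⟨S, hS, h2⟩ := exists_few hind hU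
  refine ⟨S, hS, fun F Q hQ hFS => ?_⟩
  have h3 : ∀ V : 𝒱.Obj, GeneratedBy Φ σ U V → DefectsOf Φ σ Q V := fun V hV =>
    defectsOf hRH (sat_mixed h1 hsat hQ) (h2 F Q hQ hFS V hV)
  exact ⟨h3, fun n => h3 _ (generated_power U n)⟩

end Pool.Agent.R919.FF
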