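import Pool.Agent.R919.FF.Eig
import Pool.Agent.TH132.A.Tate

/-!
# Varieties all of whose eigenvectors with trivial eigenvalues are algebraic
-/

set_option autoImplicit false

open CategoryTheory AlgebraicGeometry Module
open scoped TensorProduct

universe u v w

namespace Pool.Agent.R919.FF

open Pool.Agent.H914 Pool.Agent.W534 VarClass Obj WeilCohomology Pool.Agent.H281R3.HT
open Pool.Agent.Y163 (HBasis)
open Pool.Agent.R940 (IsEig repr_zero root_charpoly exists_ebasis pole_of_semisimple)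
open Pool.Agent.TH132.P (exists_levels card_eq)
open Pool.Agent.Y133.Half (spanCycles_of_algSpan)
open Pool.Agent.W536.RR (algSpan_map algSpan_mul one_mem_algSpan)

variable {k : Type u} [Field k] {𝒱 : VarClass k} {ops : CycleOps 𝒱}
  {W : WeilCohomology.{u, v} ops} {X Y Z : 𝒱.Obj} {p : ℕ} {Φ : FrobSystem W p}
  {σ : W.K →+* ℂ} [Fact p.Prime]

/-- The generalised eigenvectors for eigenvalues a power of which is a power of `p` are
algebraic. -/
def Sat (Φ : FrobSystem W p) (σ : W.K →+* ℂ) (Z : 𝒱.Obj) : Prop :=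
  ∀ s, 0 < s → ∀ μ : W.K, PPower p (σ μ) → (frob Φ Z s).maxGenEigenspace μ ≤ algSpan W Z

omit [Fact p.Prime] in
lemma span_le_algSpan' {j : ℕ} {c : W.H Y} (hc : c ∈ spanCycles W Y j) : c ∈ algSpan W Y := by
  rw [spanCycles_eq] at hc
  exact Submodule.span_mono (Set.subset_iUnion _ j) hc

omit [Fact p.Prime] in
lemma ppower_of_pow {z : ℂ} {s : ℕ} (hs : 0 < s) (h : PPower p (z ^ s)) : PPower p z := by
  obtain ⟨M, hM, c, hc⟩ := h
  exact ⟨s * M, Nat.mul_pos hs hM, c, by rw [pow_mul, hc]⟩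

omit [Fact p.Prime] in
lemma PPower.pow {z : ℂ} (s : ℕ) (h : PPower p z) : PPower p (z ^ s) := by
  obtain ⟨M, hM, c, hc⟩ := h
  exact ⟨M, hM, c * s, by rw [← pow_mul, mul_comm, pow_mul, hc, zpow_mul, zpow_natCast]⟩

lemma PPower.ne {z : ℂ} (h : PPower p z) : z ≠ 0 := by
  obtain ⟨M, hM, c, hc⟩ := h
  rintro rfl
  rw [zero_pow hM.ne'] at hc
  exact zpow_ne_zero c (Nat.cast_ne_zero.2 (Fact.out : p.Prime).ne_zero) hc.symm

omit [Fact p.Prime] in
lemma ppower_card (s j : ℕ) : PPower p (σ ((card Φ Z s : W.K) ^ j)) := by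
  refine ⟨1, one_pos, ((Φ.e Z * s * j : ℕ) : ℤ), ?_⟩
  rw [pow_one, map_pow, map_natCast, zpow_natCast, W534.card, Nat.cast_pow, ← pow_mul]

/-- The pole formula and the absence of eigenvalues of odd weight. -/
theorem sat_of_pole [IsAlgClosed W.K] (hRH : RiemannHyp Φ σ Z)
    (hpole : ∀ j ≤ Z.dim, PoleFormula Φ σ Z j)
    (hodd : ∀ i, Odd i → ∀ z, (frobPoly Φ σ Z 1 i).IsRoot z → ¬ PPower p z) : Sat Φ σ Z := by
  obtain ⟨ι, hfin, B, lam, hB⟩ := exists_ebasis Φ Z
  have hft : Fintype ι := Fintype.ofFinite ι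
  -- the letters
  have key : ∀ l, PPower p (σ (lam l)) → B.b l ∈ algSpan W Z := by
    intro l hl
    have hroot : (frobPoly Φ σ Z 1 (B.deg l)).IsRoot (σ (lam l)) := by
      rw [frobPoly_eq]
      exact (root_charpoly hB l).map
    have heven : Even (B.deg l) := by
      by_contra hcon
      exact hodd _ (Nat.not_even_iff_odd.1 hcon) _ hroot hl
    obtain ⟨j, hj⟩ := heven
    have hj2 : B.deg l = 2 * j := by omega
    obtain ⟨M, hM, c, hc⟩ := hl
    have hnorm := hRH 1 one_pos _ _ hroot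
    have hp1 : (1 : ℝ) < p := by exact_mod_cast (Fact.out : p.Prime).one_lt
    have h1 : (c : ℤ) = ((Φ.e Z * j * M : ℕ) : ℤ) := by
      have h2 := congrArg (fun x : ℂ => ‖x‖ ^ 2) hc
      simp only [norm_pow, norm_zpow, Complex.norm_natCast] at h2
      rw [← pow_mul, mul_comm M 2, pow_mul, hnorm, W534.card, hj2, Nat.cast_pow, ← zpow_natCast,
        ← zpow_natCast, ← zpow_natCast, ← zpow_natCast, ← zpow_mul, ← zpow_mul, ← zpow_mul] at h2
      have h3 := zpow_right_injective₀ (zero_lt_one.trans hp1) hp1.ne' h2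
      push_cast at h3 ⊢
      linarith
    have h2 : lam l ^ M = (card Φ Z M : W.K) ^ j := by
      apply σ.injective
      rw [map_pow, hc, h1, zpow_natCast, map_pow, map_natCast, W534.card, Nat.cast_pow, ← pow_mul]
      congr 1
      ring
    have h3 : B.b l ∈ genTate Φ Z M j := by
      refine ⟨?_, ?_⟩
      · have := basis_gen hB M l
        rwa [h2] at this
      · have := B.mem l
        rwa [hj2] at this
    exact span_le_algSpan' (R940.semisimple_of_poles hRH hpole j M hM h3)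
  intro s hs μ hμ x hx
  rw [← B.b.sum_repr x]
  refine Submodule.sum_mem _ fun l _ => ?_
  by_cases h : lam l ^ s = μ
  · refine Submodule.smul_mem _ _ (key l (ppower_of_pow hs ?_))
    rw [← map_pow, h]
    exact hμ
  · rw [repr_zero (Module.End.independent_maxGenEigenspace (frob Φ Z s)) B.b
      (fun l => lam l ^ s) (fun l => basis_gen hB s l) hx h, zero_smul]
    exact Submodule.zero_mem _

/-- The external product of algebraic classes. -/
lemma ext_algSpan {x : W.H X} {y : W.H Y} (hx : x ∈ algSpan W X) (hy : y ∈ algSpan W Y) :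
    ext W x y ∈ algSpan W (X.prod Y) :=
  algSpan_mul (algSpan_map _ hx) (algSpan_map _ hy)

section prod

variable {ι κ : Type v} {B : HBasis W X ι} {B' : HBasis W Y κ} {lam : ι → W.K}
  {lam' : κ → W.K}

/-- A relation between independent eigenvalues is trivial. -/
lemma trivial_of_rel (hB : IsEig Φ B lam) (hB' : IsEig Φ B' lam')
    (hdis : Disjoint (vZ Φ σ X) (vZ Φ σ Y)) {l : ι} {m : κ} {b b' A : ℕ} (hb : 0 < b)
    (hb' : 0 < b') {μ : W.K} (hμ : PPower p (σ μ)) (h : lam l ^ b * lam' m ^ b' = μ ^ A) :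
    PPower p (σ (lam l)) ∧ PPower p (σ (lam' m)) := by
  set u : ℂˣ := Units.mk0 (σ μ) hμ.ne with hu
  have h1 := cls_rel (σ := σ) (u := u) hB hB' rfl h
  have h0 : cls (pu p (pC Φ)) u = 0 := cls_zero_iff.2 hμ
  rw [h0, smul_zero] at h1
  have h2 : (b : ℚ) • cls (pu p (pC Φ)) (ul σ hB l) ∈ vZ Φ σ X :=
    Submodule.smul_mem _ _ (ul_mem hB l)
  have h3 : (b : ℚ) • cls (pu p (pC Φ)) (ul σ hB l) ∈ vZ Φ σ Y := by
    rw [eq_neg_of_add_eq_zero_left h1]
    exact Submodule.neg_mem _ (Submodule.smul_mem _ _ (ul_mem hB' m))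
  have h4 := Submodule.disjoint_def.1 hdis _ h2 h3
  have h5 : cls (pu p (pC Φ)) (ul σ hB l) = 0 := by
    rcases smul_eq_zero.1 h4 with h5 | h5
    · exact absurd h5 (by exact_mod_cast hb.ne')
    · exact h5
  rw [h4, zero_add] at h1
  have h6 : cls (pu p (pC Φ)) (ul σ hB' m) = 0 := by
    rcases smul_eq_zero.1 h1 with h6 | h6
    · exact absurd h6 (by exact_mod_cast hb'.ne')
    · exact h6
  exact ⟨cls_zero_iff.1 h5, cls_zero_iff.1 h6⟩

end prod

/-- Products of varieties with independent eigenvalues. -/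
theorem sat_prod [IsAlgClosed W.K] (hX : Sat Φ σ X) (hY : Sat Φ σ Y)
    (hdis : Disjoint (vZ Φ σ X) (vZ Φ σ Y)) : Sat Φ σ (X.prod Y) := by
  obtain ⟨ι, hfin, B, lam, hB⟩ := exists_ebasis Φ X
  obtain ⟨κ, hfin', B', lam', hB'⟩ := exists_ebasis Φ Y
  obtain ⟨A, b, b', hA, hb, hb', -, -, h1⟩ := exists_levels Φ X Y
  intro s hs μ hμ z hz
  refine Submodule.span_le.2 ?_ (gen_prod hB hB' h1 hz)
  rintro _ ⟨l, m, h2, rfl⟩
  obtain ⟨h3, h4⟩ := trivial_of_rel hB hB' hdis (Nat.mul_pos hb hs) (Nat.mul_pos hb' hs) hμ h2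
  exact ext_algSpan (hX 1 one_pos _ h3 (hB l)) (hY 1 one_pos _ h4 (hB' m))

/-- Mixed products. -/
theorem sat_mixed [IsAlgClosed W.K] {I : Type w} {X : I → 𝒱.Obj}
    (hind : iSupIndep fun i => vZ Φ σ (X i)) (hsat : ∀ i n, Sat Φ σ (power (X i) n))
    {F : Finset I} {Q : 𝒱.Obj} (h : IsMixed X F Q) : Sat Φ σ Q := by
  induction h with
  | one i n => exact hsat i n
  | cons i n F Q hi hQ ih =>
    refine sat_prod (hsat i n) ih ?_
    refine Disjoint.mono (vZ_power (X i) n) (vZ_mixed hQ) ?_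
    refine (hind i).mono_right (iSup₂_le fun j hj => ?_)
    exact le_iSup₂_of_le (f := fun j (_ : j ≠ i) => vZ Φ σ (X j)) j
      (fun h => hi (h ▸ hj)) le_rfl

/-- The Tate conjecture and semisimplicity. -/
lemma Sat.semisimple (h : Sat Φ σ Z) (j : ℕ) : SemisimpleTateIn Φ Z j := by
  intro s hs c hc
  exact spanCycles_of_algSpan (h s hs _ (ppower_card s j) hc.1) hc.2

lemma Sat.pole (hRH : RiemannHyp Φ σ Z) (h : Sat Φ σ Z) {j : ℕ} (hj : j ≤ Z.dim) :
    PoleFormula Φ σ Z j :=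
  pole_of_semisimple hRH h.semisimple hj

lemma Sat.homEqNum (hRH : RiemannHyp Φ σ Z) (h : Sat Φ σ Z) : HomEqNum W Z := by
  intro j hj z hz hnum
  exact ((pole_iff_tate (Fact.out : p.Prime).one_lt hRH hj).1 (h.pole hRH hj)).2 z hz hnum

end Pool.Agent.R919.FF
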