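import Pool.Agent.R919.FF.Sat
import Pool.Agent.TH132.P.Main

/-!
# Splitting of classes on products with independent eigenvalues
-/

set_option autoImplicit false

open CategoryTheory AlgebraicGeometry Module
open scoped TensorProduct

universe u v w

namespace Pool.Agent.R919.FF

open Pool.Agent.H914 Pool.Agent.W534 VarClass Obj WeilCohomology Pool.Agent.H281R3.HT
  Pool.Agent.W458.RK Pool.Agent.W552 Pool.Agent.TH132.A
open Pool.Agent.Y163 (HBasis)
open Pool.Agent.R940 (IsEig repr_zero root_charpoly exists_ebasis pole_of_semisimple)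
open Pool.Agent.TH132.P
open Pool.Agent.Y133.Half (spanCycles_of_algSpan)

variable {k : Type u} [Field k] {𝒱 : VarClass k} {ops : CycleOps 𝒱}
  {W : WeilCohomology.{u, v} ops} {X Y Z U : 𝒱.Obj} {p : ℕ} {Φ : FrobSystem W p}
  {σ : W.K →+* ℂ} [Fact p.Prime]

/-- The vectors killed by powers split. -/
def Splits (Φ : FrobSystem W p) (X U : 𝒱.Obj) : Prop :=
  ∀ s t, 0 < s → 0 < t → Φ.e X * s = Φ.e U * t →
    TensorSplits (frob Φ X s) (frob Φ U t) (card Φ X s : W.K)
      fun i => {y | ∃ z, X.IsCyc i z ∧ y = W.cl X z}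

omit [Fact p.Prime] in
lemma ppower_card_zpow (s N : ℕ) (c : ℤ) : PPower p (σ (((card Φ Z s : W.K) ^ c) ^ N)) := by
  refine ⟨1, one_pos, ((Φ.e Z * s : ℕ) : ℤ) * c * N, ?_⟩
  rw [pow_one, map_pow, map_zpow₀, map_natCast, W534.card, Nat.cast_pow, zpow_mul, zpow_mul,
    zpow_natCast, zpow_natCast]

theorem splits_of [IsAlgClosed W.K] (hX : Sat Φ σ X) (hdis : Disjoint (vZ Φ σ X) (vZ Φ σ U)) :
    Splits Φ X U := by
  obtain ⟨ι, hfin, B, lam, hB⟩ := exists_ebasis Φ X
  obtain ⟨κ, hfin', B', lam', hB'⟩ := exists_ebasis Φ U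
  intro s t hs ht hst c a x
  have h1 := tensor_killed (F := frob Φ X s) (G := frob Φ U t) (card Φ X s : W.K) (card_ne Φ s) c
    (cycSub W X) (fun i y hy => cyc_killed Φ hy) ?_ a x
  · refine h1.trans ?_
    constructor
    · intro hx
      refine Submodule.span_le.2 ?_ hx
      rintro _ ⟨i, y, v, hy, hv, rfl⟩
      induction hy using Submodule.span_induction with
      | mem y hy =>
        obtain ⟨z, hz, rfl⟩ := hy
        exact Submodule.subset_span ⟨i, _, v, ⟨z, hz, rfl⟩, hv, rfl⟩
      | zero => rw [TensorProduct.zero_tmul]; exact Submodule.zero_mem _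
      | add y z _ _ hy hz => rw [TensorProduct.add_tmul]; exact Submodule.add_mem _ hy hz
      | smul t y _ hy => rw [← TensorProduct.smul_tmul']; exact Submodule.smul_mem _ _ hy
    · intro hx
      refine Submodule.span_mono ?_ hx
      rintro _ ⟨i, y, v, hy, hv, rfl⟩
      exact ⟨i, y, v, Submodule.subset_span hy, hv, rfl⟩
  · intro μ ν N hN hν hμν y hy
    by_cases hy0 : y = 0
    · rw [hy0]
      exact Submodule.zero_mem _
    obtain ⟨l, hl⟩ := exists_lam hB hy hy0
    obtain ⟨v, hv⟩ := hν.exists_hasEigenvector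
    have hv1 : v ∈ (frob Φ U t).maxGenEigenspace ν := by
      rw [Module.End.mem_maxGenEigenspace]
      refine ⟨1, ?_⟩
      rw [pow_one, LinearMap.sub_apply, LinearMap.smul_apply, Module.End.one_apply,
        Module.End.mem_eigenspace_iff.1 hv.1, sub_self]
    obtain ⟨m, hm⟩ := exists_lam hB' hv1 hv.2
    have h2 : lam l ^ (s * N) * lam' m ^ (t * N) = (((card Φ X s : W.K) ^ c) ^ N) ^ 1 := by
      rw [pow_one, pow_mul, pow_mul, hl, hm, ← mul_pow, hμν]
    obtain ⟨h3, -⟩ := trivial_of_rel hB hB' hdis (Nat.mul_pos hs hN) (Nat.mul_pos ht hN)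
      (ppower_card_zpow (σ := σ) (Φ := Φ) (Z := X) s N c) h2
    refine algSpan_le_cyc (hX s hs μ ?_ hy)
    rw [← hl, map_pow]
    exact h3.pow s

/-- The algebraic classes split. -/
theorem tens_of_splits [IsAlgClosed W.K] (hRH : RiemannHyp Φ σ X) (hX : Sat Φ σ X)
    (hdis : Disjoint (vZ Φ σ X) (vZ Φ σ U)) {z : W.H (X.prod U)} (hz : AS W (X.prod U) z) :
    z ∈ tens W X U := by
  obtain ⟨ι, hfin, B, lam, hB⟩ := exists_ebasis Φ X
  obtain ⟨κ, hfin', B', lam', hB'⟩ := exists_ebasis Φ U
  obtain ⟨A, b, b', hA, hb, hb', -, -, h1⟩ := exists_levels Φ X U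
  refine mem_tens (hX.homEqNum hRH) hz ?_
  refine AS.ind (p := fun z => z ∈ Submodule.span W.K {w | ∃ x y, AS W X x ∧ w = ext W x y})
    ?_ (fun x y hx hy => Submodule.add_mem _ hx hy) hz
  rintro c _ ⟨z, hz, rfl⟩
  obtain ⟨s, hs, h2⟩ := Φ.cyc hz
  have h3 : W.cl _ z ∈ (frob Φ (X.prod U) s).maxGenEigenspace
      ((card Φ (X.prod U) s : W.K) ^ c) := by
    rw [Module.End.mem_maxGenEigenspace]
    refine ⟨1, ?_⟩
    rw [pow_one, LinearMap.sub_apply, LinearMap.smul_apply, Module.End.one_apply, frob_apply, h2,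
      card_pow, sub_self]
  refine Submodule.span_le.2 ?_ (gen_prod hB hB' h1 h3)
  rintro _ ⟨l, m, h4, rfl⟩
  obtain ⟨h5, -⟩ := trivial_of_rel hB hB' hdis (Nat.mul_pos hb hs) (Nat.mul_pos hb' hs)
    (ppower_card s c) h4
  have h6 : B.b l ∈ algSpan W X := hX 1 one_pos _ h5 (hB l)
  rw [SetLike.mem_coe]
  generalize B.b l = x at h6
  rw [algSpan] at h6
  induction h6 using Submodule.span_induction with
  | mem x hx =>
    obtain ⟨j, hj⟩ := Set.mem_iUnion.1 hx
    exact Submodule.subset_span ⟨x, _, AS.of hj, rfl⟩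
  | zero =>
    rw [ext, map_zero, zero_mul]
    exact Submodule.zero_mem _
  | add x y _ _ hx hy =>
    rw [ext, map_add, add_mul]
    exact Submodule.add_mem _ hx hy
  | smul r x _ hx =>
    rw [ext, map_smul, smul_mul_assoc]
    exact Submodule.smul_mem _ _ hx

variable {κ : Type} [Fintype κ] [DecidableEq κ] {e b : κ → W.H X} {d : κ → ℕ}

/-- **The generalised Tate classes on the product.** -/
theorem genT_eq [IsAlgClosed W.K] (h : HFam W X e b d) (hT : Splits Φ X U) (c : ℕ) :
    genT Φ (X.prod U) c = combs e d (genT Φ U) c := by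
  obtain ⟨A, B, B', hA, hB, hB', e1, e2, h1⟩ := exists_levels Φ X U
  ext z
  constructor
  · intro hz
    obtain ⟨s, hs, hz'⟩ := (mem_genT Φ).1 hz
    obtain ⟨⟨n, hn⟩, hzg⟩ := (mem_genTate Φ).1 (genTate_mono' Φ s A c hz')
    obtain ⟨x, rfl⟩ := (W.kunneth X U).2 z
    rw [pow_kunneth h1] at hn
    have h2 : (((TensorProduct.map (frob Φ X (B * s)) (frob Φ U (B' * s)) -
        ((card Φ (X.prod U) (A * s) : W.K) ^ c) •
          (1 : Module.End W.K (W.H X ⊗[W.K] W.H U))) ^ n) x) = 0 := by
      apply (W.kunneth X U).1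
      rw [hn, map_zero]
    have ecc : card Φ X (B * s) = card Φ U (B' * s) := by
      rw [W534.card, W534.card, ← mul_assoc, ← e1, e2, mul_assoc]
    have h3 := (hT (B * s) (B' * s) (Nat.mul_pos hB hs) (Nat.mul_pos hB' hs)
      (by rw [← mul_assoc, ← e1, e2, mul_assoc]) (c : ℤ) n x).1 (by
      refine ⟨1, one_pos, ?_⟩
      rw [pow_one, pow_one, zpow_natCast]
      rw [card_eq e1 s] at h2
      exact h2)
    rw [ecc] at h3
    rw [h.mem_combs_iff]
    have hspan : kunnethMap (W.map (fst X U)) (W.map (snd X U)) x ∈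
        Submodule.span W.K {w | ∃ (i : ℕ) (x : W.H X) (y : W.H U), x ∈ algClasses W X i ∧
          Killed (frob Φ U (B' * s)) ((card Φ U (B' * s) : W.K) ^ ((c : ℤ) - i)) n y ∧
            w = ext W x y} := by
      clear h2 hn hzg hz hz'
      induction h3 using Submodule.span_induction with
      | mem w hw =>
        obtain ⟨i, y, v, ⟨z', hz', rfl⟩, hv, rfl⟩ := hw
        exact Submodule.subset_span ⟨i, _, v, ⟨z', hz', rfl⟩, hv, rfl⟩
      | zero => rw [map_zero]; exact Submodule.zero_mem _
      | add x y _ _ hx hy => rw [map_add]; exact Submodule.add_mem _ hx hy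
      | smul c x _ hx => rw [map_smul]; exact Submodule.smul_mem _ _ hx
    constructor
    · intro l
      have hdl := h.hd l
      have h4 : cf W (b l) (kunnethMap (W.map (fst X U)) (W.map (snd X U)) x) ∈
          Submodule.span W.K {v | Killed (frob Φ U (B' * s))
            ((card Φ U (B' * s) : W.K) ^ ((c : ℤ) - d l)) n v} := by
        generalize kunnethMap (W.map (fst X U)) (W.map (snd X U)) x = w at hspan
        induction hspan using Submodule.span_induction with
        | mem w hw =>
          obtain ⟨i, y, v, hy, hv, rfl⟩ := hw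
          rw [cf_ext (H914.span_gr (h.hb l))]
          by_cases hi : i = d l
          · subst hi
            exact Submodule.smul_mem _ _ (Submodule.subset_span hv)
          · rw [W.tr_eq_zero (W.mul_mem (alg_gr hy) (H914.span_gr (h.hb l))) (by omega),
              zero_smul]
            exact Submodule.zero_mem _
        | zero => rw [map_zero]; exact Submodule.zero_mem _
        | add x y _ _ hx hy => rw [map_add]; exact Submodule.add_mem _ hx hy
        | smul c x _ hx => rw [map_smul]; exact Submodule.smul_mem _ _ hx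
      by_cases hl : d l ≤ c
      · rw [comp, if_pos hl]
        obtain ⟨M, hM, h5⟩ := killed_span h4
        refine (mem_genT Φ).2 ⟨B' * s * M, Nat.mul_pos (Nat.mul_pos hB' hs) hM, ?_⟩
        refine (mem_genTate Φ).2 ⟨⟨n, ?_⟩, ?_⟩
        · rw [frob_mul_eq, card_mul_eq, Nat.cast_pow, pow_right_comm]
          rwa [show ((c : ℤ) - d l) = ((c - d l : ℕ) : ℤ) by omega, zpow_natCast] at h5
        · exact (cf_mem (H914.span_gr (h.hb l)) hzg).1 _ (by omega)
      · rw [comp, if_neg hl]
        rw [(cf_mem (H914.span_gr (h.hb l)) hzg).2 (by omega)]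
        exact Submodule.zero_mem _
    · refine h.rep ?_
      refine Submodule.span_mono ?_ hspan
      rintro _ ⟨i, x, y, hx, -, rfl⟩
      exact ⟨x, y, AS.of hx, rfl⟩
  · intro hz
    obtain ⟨v, hv, rfl⟩ := mem_combs.1 hz
    refine Submodule.sum_mem _ fun l _ => ?_
    have h2 := hv l
    by_cases hl : d l ≤ c
    · rw [comp, if_pos hl] at h2
      obtain ⟨s, hs, h3⟩ := (mem_genT Φ).1 h2
      obtain ⟨t, ht, h4⟩ := exists_span_eig Φ X (d l)
      have h5 := h4 _ (h.he l)
      have h6 := span_eig_mul' Φ h5 (B * s)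
      obtain ⟨⟨n, hn⟩, hvg⟩ := (mem_genTate Φ).1 (genTate_mono Φ s (B' * t) _ h3)
      rw [show s * (B' * t) = B' * (s * t) by ring] at hn
      rw [show B * s * t = B * (s * t) by ring] at h6
      refine (mem_genT Φ).2 ⟨A * (s * t), Nat.mul_pos hA (Nat.mul_pos hs ht), ?_⟩
      refine (mem_genTate Φ).2 ⟨⟨n, ?_⟩, ?_⟩
      · have e3 : ext W (e l) (v l) = kunnethMap (W.map (fst X U)) (W.map (snd X U))
            (e l ⊗ₜ[W.K] v l) := rfl
        rw [e3, pow_kunneth h1]
        have e4 : ∀ (n : ℕ) (y : W.H U), ((TensorProduct.map (frob Φ X (B * (s * t)))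
            (frob Φ U (B' * (s * t))) - ((card Φ (X.prod U) (A * (s * t)) : W.K) ^ c) •
              (1 : Module.End W.K (W.H X ⊗[W.K] W.H U))) ^ n) (e l ⊗ₜ[W.K] y) =
            ((card Φ X (B * (s * t)) : W.K) ^ (d l)) ^ n • (e l ⊗ₜ[W.K]
              (((frob Φ U (B' * (s * t)) - ((card Φ U (B' * (s * t)) : W.K) ^ (c - d l)) •
                (1 : Module.End W.K (W.H U))) ^ n) y)) := by
          intro n
          induction n with
          | zero => intro y; rw [pow_zero, pow_zero, pow_zero, one_smul]; rfl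
          | succ n ih =>
            intro y
            rw [pow_succ, Module.End.mul_apply]
            have e5 : (TensorProduct.map (frob Φ X (B * (s * t)))
                (frob Φ U (B' * (s * t))) - ((card Φ (X.prod U) (A * (s * t)) : W.K) ^ c) •
                (1 : Module.End W.K (W.H X ⊗[W.K] W.H U))) (e l ⊗ₜ[W.K] y) =
                ((card Φ X (B * (s * t)) : W.K) ^ (d l)) • (e l ⊗ₜ[W.K]
                ((frob Φ U (B' * (s * t)) - ((card Φ U (B' * (s * t)) : W.K) ^ (c - d l)) •
                (1 : Module.End W.K (W.H U))) y)) := by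
              rw [LinearMap.sub_apply, LinearMap.smul_apply, Module.End.one_apply,
                TensorProduct.map_tmul, h6, LinearMap.sub_apply, LinearMap.smul_apply,
                Module.End.one_apply, TensorProduct.tmul_sub, smul_sub,
                TensorProduct.smul_tmul', TensorProduct.tmul_smul, smul_smul]
              congr 2
              rw [card_eq e1 (s * t), ← card_eq e2 (s * t), card_eq e1 (s * t), ← pow_add,
                show d l + (c - d l) = c by omega]
            rw [e5, map_smul, ih, smul_smul, pow_succ' (((card Φ X (B * (s * t)) : W.K)) ^ d l),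
              pow_succ (frob Φ U (B' * (s * t)) - _), Module.End.mul_apply]
        rw [e4, hn, TensorProduct.tmul_zero, smul_zero, map_zero]
      · have := W.mul_mem (W.map_mem (fst X U) (H914.span_gr (h.he l)))
          (W.map_mem (snd X U) hvg)
        rwa [show 2 * d l + 2 * (c - d l) = 2 * c by omega] at this
    · rw [comp, if_neg hl] at h2
      rw [(Submodule.mem_bot _).1 h2, ext_zero_right]
      exact Submodule.zero_mem _

end Pool.Agent.R919.FF
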