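import Pool.Agent.R919.FF.Def
import Pool.Agent.H914R2.StdDefs

/-!
# Products of abelian varieties and elliptic curves over finite fields: definitions
-/

set_option autoImplicit false

open CategoryTheory AlgebraicGeometry

universe u v w

namespace Pool.Agent.R919.FF

open Pool.Agent.H914 Pool.Agent.W534 VarClass Obj WeilCohomology

variable {k : Type u} [Field k] {𝒱 : VarClass k} {ops : CycleOps 𝒱}

/-- The dimension of `H^1(A)` is `2 g`. -/
def BettiOne (W : WeilCohomology.{u, v} ops) (A : 𝒱.Obj) (g : ℕ) : Prop :=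
  Module.finrank W.K (W.gr A 1) = 2 * g

/-- The algebra `H(A)` is generated by `H^1(A)`. -/
def GeneratedInDegreeOne (W : WeilCohomology.{u, v} ops) (A : 𝒱.Obj) : Prop :=
  ∀ x : W.H A, x ∈ Algebra.adjoin W.K (W.gr A 1 : Set (W.H A))

/-- The cohomology of `A` is like the one of an abelian variety of dimension `g`: the dimension of `A`
is `g`, the dimension of `H^1(A)` is `2 g`, the algebra `H(A)` is generated by `H^1(A)`, and the hard
Lefschetz theorem holds for some divisor on `A`. -/
structure IsAbelian (W : WeilCohomology.{u, v} ops) (A : 𝒱.Obj) (g : ℕ) : Prop where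
  /-- the dimension -/
  dim : A.dim = g
  /-- the first Betti number -/
  betti : BettiOne W A g
  /-- the cohomology is generated in degree one -/
  gen : GeneratedInDegreeOne W A
  /-- hard Lefschetz -/
  lef : ∃ D, A.IsCyc 1 D ∧ HardLefschetz W A D

/-- The Tate conjecture for `Q × V` in codimension `c` is equivalent to the Tate conjecture for `V` in
the codimensions `j` with `c - dim Q ≤ j ≤ c`; this is true for all `c`. -/
def TateIff {W : WeilCohomology.{u, v} ops} {p : ℕ} (Φ : FrobSystem W p) (Q V : 𝒱.Obj) : Prop :=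
  ∀ c, TateIn Φ (Q.prod V) c ↔ ∀ j, j ≤ c → c ≤ j + Q.dim → TateIn Φ V j

/-- The `E i` are ordinary elliptic curves with traces `a i` and pairwise different quadratic fields,
the fields generated by the square roots of `a ^ 2 - 4 q`. -/
def EllipticFamily {W : WeilCohomology.{u, v} ops} {p : ℕ} (Φ : FrobSystem W p) (σ : W.K →+* ℂ)
    {I : Type w} (E : I → 𝒱.Obj) (a : I → ℤ) : Prop :=
  (∀ i, OrdinaryElliptic Φ σ (E i) (a i)) ∧
    ∀ i j, i ≠ j → ¬ IsSquare ((a i ^ 2 - 4 * (p : ℤ) ^ Φ.e (E i)) *
      (a j ^ 2 - 4 * (p : ℤ) ^ Φ.e (E j)))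

/-- There is a set `S` of at most `R` indices such that for all products `Q` of powers of the `E i`
with `i` not in `S`, all powers `V` of `U`, and all `V` with eigenvalues generated by those of `U`,
the Tate conjecture for `Q × V` is equivalent to the Tate conjecture for `V`, as in `TateIff`. -/
def SplitOff {W : WeilCohomology.{u, v} ops} {p : ℕ} (Φ : FrobSystem W p) (σ : W.K →+* ℂ)
    {I : Type w} (E : I → 𝒱.Obj) (U : 𝒱.Obj) (R : ℕ) : Prop :=
  ∃ S : Finset I, S.card ≤ R ∧ ∀ (F : Finset I) (Q : 𝒱.Obj), IsMixed E F Q → Disjoint F S →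
    (∀ n, TateIff Φ Q (power U n)) ∧ ∀ V, GeneratedBy Φ σ U V → TateIff Φ Q V

end Pool.Agent.R919.FF
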