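import Pool.Agent.R919.FF.Pole
import Pool.Agent.R919.FF.TateDef

/-!
# The Tate conjecture for products with independent Frobenius eigenvalues
-/

set_option autoImplicit false
set_option linter.unusedSectionVars false

open CategoryTheory AlgebraicGeometry Module
open scoped TensorProduct

universe u v w

namespace Pool.Agent.R919.FF

open Pool.Agent.H914 Pool.Agent.W534 VarClass Obj WeilCohomology Pool.Agent.H281R3.HT
  Pool.Agent.W458.RK Pool.Agent.W552 Pool.Agent.TH132.A
open Pool.Agent.Y163 (HBasis)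
open Pool.Agent.R940 (IsEig repr_zero root_charpoly exists_ebasis pole_of_semisimple)
open Pool.Agent.TH132.P
open Pool.Agent.Y133.Half (spanCycles_of_algSpan)
open Pool.Agent.W536.RR (algSpan_map algSpan_mul one_mem_algSpan algSpan_push)

variable {k : Type u} [Field k] {𝒱 : VarClass k} {ops : CycleOps 𝒱}
  {W : WeilCohomology.{u, v} ops} {X Y Z U Q V : 𝒱.Obj} {p : ℕ} {Φ : FrobSystem W p}
  {σ : W.K →+* ℂ} [Fact p.Prime]

variable {κ : Type} [Fintype κ] [DecidableEq κ] {e b : κ → W.H X} {d : κ → ℕ}

omit [Fact p.Prime] in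
lemma isTate_iff {j : ℕ} {z : W.H Z} : IsTate Φ Z j z ↔ z ∈ W.gr Z (2 * j) ∧ ∃ s, 0 < s ∧
    (frob Φ Z s - ((card Φ Z s : W.K) ^ j) • (1 : Module.End W.K (W.H Z))) z = 0 := by
  refine and_congr_right fun _ => exists_congr fun s => and_congr_right fun _ => ?_
  rw [LinearMap.sub_apply, LinearMap.smul_apply, Module.End.one_apply, sub_eq_zero, frob_apply,
    card_pow]

/-- **The Tate classes on the product.** -/
theorem tate_coef [IsAlgClosed W.K] (h : HFam W X e b d) (hT : Splits Φ X U) {c : ℕ}
    {z : W.H (X.prod U)} (hz : IsTate Φ (X.prod U) c z) :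
    z = ∑ l, ext W (e l) (cf W (b l) z) ∧ ∀ l, (d l ≤ c → IsTate Φ U (c - d l) (cf W (b l) z)) ∧
      (c < d l → cf W (b l) z = 0) := by
  obtain ⟨A, B, B', hA, hB, hB', e1, e2, h1⟩ := exists_levels Φ X U
  obtain ⟨hzg, s, hs, hn0⟩ := isTate_iff.1 hz
  have hn : ((frob Φ (X.prod U) (A * s) - ((card Φ (X.prod U) (A * s) : W.K) ^ c) •
      (1 : Module.End W.K (W.H (X.prod U)))) ^ 1) z = 0 := by
    have h2 : frob Φ (X.prod U) s z = ((card Φ (X.prod U) s : W.K) ^ c) • z := by
      rw [LinearMap.sub_apply, LinearMap.smul_apply, Module.End.one_apply, sub_eq_zero] at hn0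
      exact hn0
    have h3 : ∀ m : ℕ, ((frob Φ (X.prod U) s) ^ m) z = (((card Φ (X.prod U) s : W.K) ^ c) ^ m) • z := by
      intro m
      induction m with
      | zero => simp
      | succ m ih => rw [pow_succ', Module.End.mul_apply, ih, map_smul, h2, smul_smul, pow_succ]
    rw [pow_one, LinearMap.sub_apply, LinearMap.smul_apply, Module.End.one_apply, mul_comm A s,
      frob_mul_eq, h3, card_mul_eq, Nat.cast_pow, pow_right_comm, sub_self]
  obtain ⟨x, rfl⟩ := (W.kunneth X U).2 z
  rw [pow_kunneth h1] at hn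
  have h2 : (((TensorProduct.map (frob Φ X (B * s)) (frob Φ U (B' * s)) -
      ((card Φ (X.prod U) (A * s) : W.K) ^ c) •
        (1 : Module.End W.K (W.H X ⊗[W.K] W.H U))) ^ 1) x) = 0 := by
    apply (W.kunneth X U).1
    rw [hn, map_zero]
  have ecc : card Φ X (B * s) = card Φ U (B' * s) := by
    rw [W534.card, W534.card, ← mul_assoc, ← e1, e2, mul_assoc]
  have h3 := (hT (B * s) (B' * s) (Nat.mul_pos hB hs) (Nat.mul_pos hB' hs)
    (by rw [← mul_assoc, ← e1, e2, mul_assoc]) (c : ℤ) 1 x).1 (by
    refine ⟨1, one_pos, ?_⟩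
    rw [pow_one (TensorProduct.map _ _), pow_one ((_ : W.K) ^ (c : ℤ)), zpow_natCast]
    rw [card_eq e1 s] at h2
    exact h2)
  rw [ecc] at h3
  have hspan : kunnethMap (W.map (fst X U)) (W.map (snd X U)) x ∈
      Submodule.span W.K {w | ∃ (i : ℕ) (x : W.H X) (y : W.H U), x ∈ algClasses W X i ∧
        Killed (frob Φ U (B' * s)) ((card Φ U (B' * s) : W.K) ^ ((c : ℤ) - i)) 1 y ∧
          w = ext W x y} := by
    clear h2 hn hzg hz hn0
    induction h3 using Submodule.span_induction with
    | mem w hw =>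
      obtain ⟨i, y, v, ⟨z', hz', rfl⟩, hv, rfl⟩ := hw
      exact Submodule.subset_span ⟨i, _, v, ⟨z', hz', rfl⟩, hv, rfl⟩
    | zero => rw [map_zero]; exact Submodule.zero_mem _
    | add x y _ _ hx hy => rw [map_add]; exact Submodule.add_mem _ hx hy
    | smul c x _ hx => rw [map_smul]; exact Submodule.smul_mem _ _ hx
  constructor
  · refine h.rep ?_
    refine Submodule.span_mono ?_ hspan
    rintro _ ⟨i, x, y, hx, -, rfl⟩
    exact ⟨x, y, AS.of hx, rfl⟩
  · intro l
    have h4 : cf W (b l) (kunnethMap (W.map (fst X U)) (W.map (snd X U)) x) ∈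
        Submodule.span W.K {v | Killed (frob Φ U (B' * s))
          ((card Φ U (B' * s) : W.K) ^ ((c : ℤ) - d l)) 1 v} := by
      generalize kunnethMap (W.map (fst X U)) (W.map (snd X U)) x = w at hspan
      induction hspan using Submodule.span_induction with
      | mem w hw =>
        obtain ⟨i, y, v, hy, hv, rfl⟩ := hw
        rw [cf_ext (H914.span_gr (h.hb l))]
        by_cases hi : i = d l
        · subst hi
          exact Submodule.smul_mem _ _ (Submodule.subset_span hv)
        · have hdl := h.hd l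
          rw [W.tr_eq_zero (W.mul_mem (alg_gr hy) (H914.span_gr (h.hb l))) (by omega),
            zero_smul]
          exact Submodule.zero_mem _
      | zero => rw [map_zero]; exact Submodule.zero_mem _
      | add x y _ _ hx hy => rw [map_add]; exact Submodule.add_mem _ hx hy
      | smul c x _ hx => rw [map_smul]; exact Submodule.smul_mem _ _ hx
    have hdl := h.hd l
    constructor
    · intro hl
      obtain ⟨M, hM, h5⟩ := killed_span h4
      refine isTate_iff.2 ⟨(cf_mem (H914.span_gr (h.hb l)) hzg).1 _ (by omega), B' * s * M,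
        Nat.mul_pos (Nat.mul_pos hB' hs) hM, ?_⟩
      rw [frob_mul_eq, card_mul_eq, Nat.cast_pow, pow_right_comm]
      rw [pow_one, show ((c : ℤ) - d l) = ((c - d l : ℕ) : ℤ) by omega, zpow_natCast] at h5
      exact h5
    · intro hl
      exact (cf_mem (H914.span_gr (h.hb l)) hzg).2 (by omega)

/-- There are algebraic classes of all degrees which are not numerically trivial. -/
def HasAll (W : WeilCohomology.{u, v} ops) (Z : 𝒱.Obj) : Prop :=
  ∀ i ≤ Z.dim, ∃ y ∈ spanCycles W Z (i : ℕ), ∃ y' ∈ spanCycles W Z (Z.dim - i : ℕ),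
    W.tr Z (y * y') ≠ 0

omit [Fact p.Prime] in
lemma HasAll.prod (hX : HasAll W X) (hY : HasAll W Y) : HasAll W (X.prod Y) := by
  intro i hi
  rw [dim_prod] at hi
  obtain ⟨a, c, ha, hc, rfl⟩ : ∃ a c, a ≤ X.dim ∧ c ≤ Y.dim ∧ i = a + c := by
    by_cases h : i ≤ X.dim
    · exact ⟨i, 0, h, Nat.zero_le _, rfl⟩
    · exact ⟨X.dim, i - X.dim, le_rfl, by omega, by omega⟩
  obtain ⟨y, hy, y', hy', h1⟩ := hX a ha
  obtain ⟨z, hz, z', hz', h2⟩ := hY c hc
  have hy2 := H914.span_gr hy'
  have hz2 := H914.span_gr hz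
  have hmem : ∀ {a c : ℕ} {y : W.H X} {z : W.H Y}, y ∈ spanCycles W X (a : ℕ) →
      z ∈ spanCycles W Y (c : ℕ) → ext W y z ∈ spanCycles W (X.prod Y) (a + c : ℕ) := by
    intro a c y z hy hz
    refine spanCycles_of_algSpan (ext_algSpan (span_le_algSpan' hy) (span_le_algSpan' hz)) ?_
    have := W.mul_mem (W.map_mem (fst X Y) (H914.span_gr hy)) (W.map_mem (snd X Y) (H914.span_gr hz))
    rwa [show 2 * a + 2 * c = 2 * (a + c) by ring] at this
  refine ⟨ext W y z, hmem hy hz, ext W y' z', ?_, ?_⟩
  · have h3 := hmem hy' hz'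
    rwa [show X.dim - a + (Y.dim - c) = (X.prod Y).dim - (a + c) by rw [dim_prod]; omega] at h3
  · have h3 : ext W y z * ext W y' z' = ext W (y * y') (z * z') := by
      rw [ext, ext, ext, map_mul, map_mul, mul_assoc, mul_assoc]
      congr 1
      rw [← mul_assoc, ← mul_assoc, W.even_comm (W.map_mem (snd X Y) hz2)]
    rw [h3, ext, W.tr_prod]
    exact mul_ne_zero h1 h2

/-- **The Tate conjecture for the product.** -/
theorem tateIff_of [IsAlgClosed W.K] (hRH : ∀ Z : 𝒱.Obj, RiemannHyp Φ σ Z) (hX : Sat Φ σ X)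
    (hall : HasAll W X) (hdis : Disjoint (vZ Φ σ X) (vZ Φ σ U)) : TateIff Φ X U := by
  intro c
  obtain ⟨κ, _, _, e, b, d, h⟩ := exists_hFam (hX.homEqNum (hRH X))
  constructor
  · intro hT j hj hc t ht
    obtain ⟨y, hy, y', hy', h0⟩ := hall (c - j) (by omega)
    have h1 : IsTate Φ (X.prod U) c (ext W y t) := by
      obtain ⟨A, B, B', hA, hB, hB', e1, e2, h2⟩ := exists_levels Φ X U
      obtain ⟨s, hs, h3⟩ := exists_span_eig Φ X (c - j)
      obtain ⟨htg, s', hs', h4⟩ := ht
      have h3' := h3 _ hy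
      refine ⟨?_, A * (s * s'), Nat.mul_pos hA (Nat.mul_pos hs hs'), ?_⟩
      · have := W.mul_mem (W.map_mem (fst X U) (H914.span_gr hy)) (W.map_mem (snd X U) htg)
        rwa [show 2 * (c - j) + 2 * j = 2 * c by omega] at this
      · have h5 := h2 (s * s') (y ⊗ₜ[W.K] t)
        have h6 : kunnethMap (W.map (fst X U)) (W.map (snd X U)) (y ⊗ₜ[W.K] t) = ext W y t := rfl
        rw [h6, TensorProduct.map_tmul] at h5
        have h7 : frob Φ X (B * (s * s')) y = ((card Φ X (B * (s * s')) : W.K) ^ (c - j)) • y := by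
          have := span_eig_mul' Φ h3' (B * s')
          rwa [show B * s' * s = B * (s * s') by ring] at this
        have h8 : frob Φ U (B' * (s * s')) t = ((card Φ U (B' * (s * s')) : W.K) ^ j) • t := by
          have h9 : frob Φ U s' t = ((card Φ U s' : W.K) ^ j) • t := by
            rw [frob_apply, card_pow]
            exact h4
          have h10 : ∀ m : ℕ, ((frob Φ U s') ^ m) t = (((card Φ U s' : W.K) ^ j) ^ m) • t := by
            intro m
            induction m with
            | zero => simp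
            | succ m ih =>
              rw [pow_succ', Module.End.mul_apply, ih, map_smul, h9, smul_smul, pow_succ]
          rw [show B' * (s * s') = s' * (B' * s) by ring, frob_mul_eq, h10, card_mul_eq,
            Nat.cast_pow, pow_right_comm]
        rw [h7, h8] at h5
        have h11 : kunnethMap (W.map (fst X U)) (W.map (snd X U))
            ((((card Φ X (B * (s * s')) : W.K) ^ (c - j)) • y) ⊗ₜ[W.K]
              (((card Φ U (B' * (s * s')) : W.K) ^ j) • t)) =
            ((card Φ (X.prod U) (A * (s * s')) : W.K) ^ c) • ext W y t := by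
          rw [← card_eq e1 (s * s'), ← card_eq e2 (s * s'), card_eq e1 (s * s'),
            ← TensorProduct.smul_tmul', TensorProduct.tmul_smul, smul_smul, map_smul,
            ← pow_add, show c - j + j = c by omega, h6]
        rw [h11, frob_apply, card_pow] at h5
        exact h5
    have h2 := hT _ h1
    -- recover the class
    have h3 : W.push (snd X U) (W.map (fst X U) y' * ext W y t) = W.tr X (y' * y) • t := by
      rw [ext, ← mul_assoc, ← map_mul, push_snd]
    have h4 : W.push (snd X U) (W.map (fst X U) y' * ext W y t) ∈ algSpan W U :=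
      algSpan_push _ (algSpan_mul (algSpan_map _ (span_le_algSpan' hy')) (span_le_algSpan' h2))
    rw [h3, W.even_comm (H914.span_gr hy')] at h4
    have h5 := Submodule.smul_mem _ (W.tr X (y * y'))⁻¹ h4
    rw [smul_smul, inv_mul_cancel₀ h0, one_smul] at h5
    exact spanCycles_of_algSpan h5 ht.1
  · intro hT z hz
    obtain ⟨h1, h2⟩ := tate_coef h (splits_of hX hdis) hz
    refine spanCycles_of_algSpan ?_ hz.1
    rw [h1]
    refine Submodule.sum_mem _ fun l _ => ?_
    by_cases hl : d l ≤ c
    · refine ext_algSpan (span_le_algSpan' (h.he l)) (span_le_algSpan' (hT (c - d l) (by omega) ?_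
        _ ((h2 l).1 hl)))
      have := h.hd l
      omega
    · rw [(h2 l).2 (by omega), ext, map_zero, mul_zero]
      exact Submodule.zero_mem _

end Pool.Agent.R919.FF
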