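import Pool.Agent.R919.FF.Sat
import Pool.Agent.R936.Hel.Geo2

/-!
# Powers of varieties whose Frobenius eigenvalues have maximal rank
-/

set_option autoImplicit false
set_option linter.unusedSectionVars false

open CategoryTheory AlgebraicGeometry Module Polynomial
open scoped TensorProduct

universe u v w

namespace Pool.Agent.R919.FF

open Pool.Agent.H914 Pool.Agent.W534 VarClass Obj WeilCohomology Pool.Agent.H281R3.HT
open Pool.Agent.Y163 (HBasis)
open Pool.Agent.Y133.Half (PH xp corr_xp)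
open Pool.Agent.R940 (IsEig gen_semi gen_bilin frob_mul' repr_zero root_charpoly exists_ebasis)
open Pool.Agent.W536.RR (algSpan_map algSpan_mul one_mem_algSpan)
open Pool.Agent.R936.Hel

variable {k : Type u} [Field k] {𝒱 : VarClass k} {ops : CycleOps 𝒱}
  {W : WeilCohomology.{u, v} ops} {X Y Z U : 𝒱.Obj} {p : ℕ} {Φ : FrobSystem W p}
  {σ : W.K →+* ℂ} [Fact p.Prime]

section proj

variable {ι : Type v} [Finite ι] {B : HBasis W X ι} {lam : ι → W.K}

/-- A letter with a simple eigenvalue is an eigenvector. -/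
lemma eig_of_simple (hB : IsEig Φ B lam) {l : ι} (hl : ∀ m, lam m = lam l → m = l) :
    frob Φ X 1 (B.b l) = lam l • B.b l := by
  have hft : Fintype ι := Fintype.ofFinite ι
  have h1 : frob Φ X 1 (B.b l) ∈ (frob Φ X 1).maxGenEigenspace (lam l) :=
    Module.End.mapsTo_maxGenEigenspace_of_comm rfl (lam l) (hB l)
  have h2 : frob Φ X 1 (B.b l) = B.b.repr (frob Φ X 1 (B.b l)) l • B.b l := by
    conv_lhs => rw [← B.b.sum_repr (frob Φ X 1 (B.b l))]
    refine Finset.sum_eq_single l (fun m _ hm => ?_) (fun h => absurd (Finset.mem_univ l) h)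
    rw [repr_zero (Module.End.independent_maxGenEigenspace (frob Φ X 1)) B.b lam hB h1
      (fun h => hm (hl m h)), zero_smul]
  set c := B.b.repr (frob Φ X 1 (B.b l)) l with hc
  obtain ⟨n, hn⟩ := (Module.End.mem_maxGenEigenspace _ _ _).1 (hB l)
  have h3 : ((frob Φ X 1 - lam l • 1) ^ n) (B.b l) = (c - lam l) ^ n • B.b l := by
    clear hn
    induction n with
    | zero => simp
    | succ n ih =>
      rw [pow_succ', Module.End.mul_apply, ih, map_smul, LinearMap.sub_apply, h2,
        LinearMap.smul_apply, Module.End.one_apply, ← sub_smul, smul_smul, pow_succ]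
  rw [h3] at hn
  have h4 : c - lam l = 0 := by
    rcases smul_eq_zero.1 hn with h | h
    · by_contra hne
      exact pow_ne_zero n hne h
    · exact absurd h (B.b.ne_zero l)
  rw [h2, sub_eq_zero.1 h4]

/-- The projection to a letter with a simple eigenvalue is a polynomial in Frobenius. -/
lemma exists_proj (hB : IsEig Φ B lam) {l : ι} (hl : ∀ m, lam m = lam l → m = l) :
    ∃ Q : W.K[X], aeval (frob Φ X 1) Q (B.b l) = B.b l ∧
      ∀ n, n ≠ l → aeval (frob Φ X 1) Q (B.b n) = 0 := by
  classical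
  have hft : Fintype ι := Fintype.ofFinite ι
  have h1 : ∀ n, ∃ N : ℕ, ((frob Φ X 1 - lam n • 1) ^ N) (B.b n) = 0 := fun n =>
    (Module.End.mem_maxGenEigenspace _ _ _).1 (hB n)
  choose N hN using h1
  set Q : W.K[X] := ∏ n ∈ Finset.univ.erase l, (Polynomial.X - C (lam n)) ^ N n with hQ
  have h2 : ∀ n, n ≠ l → aeval (frob Φ X 1) Q (B.b n) = 0 := by
    intro n hn
    rw [hQ, ← Finset.prod_erase_mul _ _ (Finset.mem_erase.2 ⟨hn, Finset.mem_univ n⟩), map_mul,
      Module.End.mul_apply, map_pow, map_sub, aeval_X, aeval_C]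
    have h3 : (algebraMap W.K (Module.End W.K (W.H X))) (lam n) = lam n • 1 := by
      rw [Algebra.algebraMap_eq_smul_one]
    rw [h3, hN, map_zero]
  have h4 : aeval (frob Φ X 1) Q (B.b l) = (eval (lam l) Q) • B.b l :=
    Module.End.aeval_apply_of_hasEigenvector (μ := lam l)
      ⟨Module.End.mem_eigenspace_iff.2 (eig_of_simple hB hl), B.b.ne_zero l⟩
  have h5 : eval (lam l) Q ≠ 0 := by
    rw [hQ, eval_prod, Finset.prod_ne_zero_iff]
    intro n hn
    rw [eval_pow, eval_sub, eval_X, eval_C]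
    refine pow_ne_zero _ (sub_ne_zero.2 fun h => ?_)
    exact (Finset.mem_erase.1 hn).1 (hl n h.symm)
  refine ⟨C (eval (lam l) Q)⁻¹ * Q, ?_, fun n hn => ?_⟩
  · rw [map_mul, Module.End.mul_apply, h4, map_smul, aeval_C, Algebra.algebraMap_eq_smul_one,
      LinearMap.smul_apply, Module.End.one_apply, smul_smul, mul_inv_cancel₀ h5, one_smul]
  · rw [map_mul, Module.End.mul_apply, h2 n hn, map_zero]

/-- The polynomials in Frobenius are given by algebraic classes. -/
lemma class_of_poly (Φ : FrobSystem W p) (X : 𝒱.Obj) (Q : W.K[X]) :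
    ∃ γ ∈ algSpan W (X.prod X), W.corr γ = aeval (frob Φ X 1) Q := by
  induction Q using Polynomial.induction_on' with
  | add P Q hP hQ =>
    obtain ⟨γ, hγ, h1⟩ := hP
    obtain ⟨δ, hδ, h2⟩ := hQ
    exact ⟨γ + δ, Submodule.add_mem _ hγ hδ, by rw [W.corr_add, h1, h2, map_add]⟩
  | monomial n a =>
    refine ⟨a • W.cl _ (ops.push (Obj.lift (W534.iter (Φ.Fr X) n) (𝟙 X)) X.V.fundCycle),
      Submodule.smul_mem _ _ (Submodule.subset_span (Set.mem_iUnion.2 ⟨X.dim, _,
        ops.push_mem (p := 0) (q := X.dim) _ X.V.fundCycle_mem (by rw [dim_prod, zero_add]),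
          rfl⟩)), ?_⟩
    rw [W.corr_smul, corr_graph]
    have h1 : (W.map (W534.iter (Φ.Fr X) n)).toLinearMap = frob Φ X 1 ^ n := by
      rw [← frob_mul_eq, one_mul]
      rfl
    rw [h1, aeval_monomial, Algebra.algebraMap_eq_smul_one, smul_mul_assoc, one_mul]

lemma tr_rel (hB : IsEig Φ B lam) {m l : ι} (hm : W.tr X (B.b m * B.b l) ≠ 0) :
    lam m * lam l = (((p ^ Φ.e X) ^ X.dim : ℕ) : W.K) := by
  have h1 : B.b m * B.b l ∈ (frob Φ X 1).maxGenEigenspace (lam m * lam l) :=
    gen_bilin (β := LinearMap.mul W.K (W.H X)) (fun a b => (frob_mul' Φ _ a b).symm) (hB m) (hB l)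
  set Q : W.K := (((p ^ Φ.e X) ^ X.dim : ℕ) : W.K) with hQ
  have h2 : W.tr X (B.b m * B.b l) ∈
      (Q • (1 : Module.End W.K W.K)).maxGenEigenspace (lam m * lam l) := by
    refine gen_semi (f := frob Φ X 1) (θ := W.tr X) (fun x => ?_) h1
    rw [LinearMap.smul_apply, Module.End.one_apply, frob_apply, tr_iter, smul_eq_mul, hQ]
    congr 1
    push_cast
    rw [← pow_mul, mul_one]
  obtain ⟨n, hn⟩ := (Module.End.mem_maxGenEigenspace _ _ _).1 h2
  have hE : Q • (1 : Module.End W.K W.K) - (lam m * lam l) • (1 : Module.End W.K W.K) =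
      (Q - lam m * lam l) • (1 : Module.End W.K W.K) := by
    exact (_root_.sub_smul _ _ _).symm
  rw [hE, _root_.smul_pow, one_pow, LinearMap.smul_apply, Module.End.one_apply, smul_eq_mul] at hn
  rcases mul_eq_zero.1 hn with h3 | h3
  · have h4 : Q - lam m * lam l = 0 := by
      by_contra hne
      exact pow_ne_zero n hne h3
    exact (sub_eq_zero.1 h4).symm
  · exact absurd h3 hm

/-- The external product of the dual letter and a letter with a simple eigenvalue is algebraic. -/
lemma pair_alg (hB : IsEig Φ B lam) {l m : ι} (hl : ∀ m, lam m = lam l → m = l)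
    (hm : lam m * lam l = (((p ^ Φ.e X) ^ X.dim : ℕ) : W.K)) :
    ext W (B.b m) (B.b l) ∈ algSpan W (X.prod X) := by
  obtain ⟨Q, hQ1, hQ2⟩ := exists_proj hB hl
  obtain ⟨γ, hγ, h1⟩ := class_of_poly Φ X Q
  have hm0 : lam m ≠ 0 := lam_ne hB m
  set c : W.K := (-1 : W.K) ^ (B.deg l * B.deg l) * W.tr X (B.b m * B.b l) with hc
  have h2 : corrL W X X (ext W (B.b m) (B.b l)) = corrL W X X (c • γ) := by
    rw [map_smul, corrL_apply, corrL_apply, h1]
    refine B.b.ext fun n => ?_
    have h3 : W.corr (ext W (B.b m) (B.b l)) (B.b n) =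
        ((-1 : W.K) ^ (B.deg l * B.deg n) * W.tr X (B.b m * B.b n)) • B.b l :=
      corr_xp (b := B.deg l) (c := B.deg n) (B.b m) (PH.of (B.mem l)) (PH.of (B.mem n))
    rw [h3, LinearMap.smul_apply]
    by_cases hn : n = l
    · subst hn
      rw [hQ1]
    · rw [hQ2 n hn, smul_zero]
      have h4 : W.tr X (B.b m * B.b n) = 0 := by
        by_contra hne
        have h5 := tr_rel hB hne
        rw [← hm] at h5
        exact hn (hl n (mul_left_cancel₀ hm0 h5))
      rw [h4, mul_zero, zero_smul]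
  rw [corrL_injective h2]
  exact Submodule.smul_mem _ _ hγ

end proj

end Pool.Agent.R919.FF
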