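import Pool.Agent.R919.FF.Word

/-!
# Algebraic words for varieties whose Frobenius eigenvalues have maximal rank
-/

set_option autoImplicit false
set_option linter.unusedSectionVars false

open CategoryTheory AlgebraicGeometry Module
open scoped TensorProduct

universe u v w

namespace Pool.Agent.R919.FF

open Pool.Agent.H914 Pool.Agent.W534 VarClass Obj WeilCohomology Pool.Agent.H281R3.HT
open Pool.Agent.Y163 (HBasis)
open Pool.Agent.R940 (IsEig gen_semi gen_bilin frob_mul' repr_zero root_charpoly exists_ebasis)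
open Pool.Agent.W536.RR (algSpan_map algSpan_mul one_mem_algSpan)
open Pool.Agent.R936.Hel

variable {k : Type u} [Field k] {𝒱 : VarClass k} {ops : CycleOps 𝒱}
  {W : WeilCohomology.{u, v} ops} {X Y Z U : 𝒱.Obj} {p : ℕ} {Φ : FrobSystem W p}
  {σ : W.K →+* ℂ} [Fact p.Prime]

section

variable {ι : Type v} [Finite ι] {B : HBasis W X ι} {lam : ι → W.K}

/-- The letters. -/
abbrev Lr (ι : Type v) := Σ _ : Unit, ι

/-- The constant family. -/
abbrev cB (B : HBasis W X ι) : ∀ _ : Unit, HBasis W X ι := fun _ => B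

lemma alg_single {l : Lr ι} (h : B.b l.2 ∈ algSpan W X) :
    Alg (X := fun _ : Unit => X) (cB B) ({l} : Multiset (Lr ι)) := by
  intro Z N hN
  have h1 : N.map Sigma.fst = [l] := by
    have := Multiset.coe_eq_coe.1 (hN.trans (Multiset.coe_singleton l).symm)
    exact List.perm_singleton.1 this
  match N, h1 with
  | [y], h1 =>
    have h2 : y.1 = l := by
      rw [List.map_cons, List.map_nil] at h1
      exact (List.cons.inj h1).1
    subst h2
    rw [lwf_cons, lwf_nil, mul_one]
    exact algSpan_map _ h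

lemma alg_pair {l m : Lr ι} (h : ext W (B.b m.2) (B.b l.2) ∈ algSpan W (X.prod X)) :
    Alg (X := fun _ : Unit => X) (cB B) ({m, l} : Multiset (Lr ι)) := by
  intro Z N hN
  have h0 : (↑(N.map Sigma.fst) : Multiset (Lr ι)) = ↑[m, l] := by
    rw [hN]
    rfl
  obtain ⟨N', h1, h2⟩ := reorder _ N h0
  obtain ⟨ε, _, hε⟩ := lwf_perm (B := cB B) h1
  rw [hε]
  refine Submodule.smul_mem _ _ ?_
  match N', h2 with
  | [y, z], h2 =>
    have h3 : y.1 = m ∧ z.1 = l := by
      rw [List.map_cons, List.map_cons, List.map_nil] at h2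
      exact ⟨(List.cons.inj h2).1, (List.cons.inj (List.cons.inj h2).2).1⟩
    obtain ⟨rfl, rfl⟩ := h3
    rw [lwf_cons, lwf_cons, lwf_nil, mul_one]
    have h4 : W.map y.2 (B.b y.1.2) * W.map z.2 (B.b z.1.2) =
        W.map (Obj.lift y.2 z.2) (ext W (B.b y.1.2) (B.b z.1.2)) := by
      rw [ext, map_mul, ← W.map_comp, ← W.map_comp, Obj.lift_fst, Obj.lift_snd]
    exact h4 ▸ algSpan_map _ h

/-- A multiset of integers with sum zero and a positive element has a negative element. -/
lemma exists_neg {s : Multiset ℤ} (h : s.sum = 0) {a : ℤ} (ha : a ∈ s) (ha0 : 0 < a) :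
    ∃ b ∈ s, b < 0 := by
  by_contra hcon
  push Not at hcon
  have h1 := Multiset.single_le_sum hcon a ha
  omega

lemma exists_pos {s : Multiset ℤ} (h : s.sum = 0) {a : ℤ} (ha : a ∈ s) (ha0 : a < 0) :
    ∃ b ∈ s, 0 < b := by
  obtain ⟨b, hb, hb0⟩ := exists_neg (s := s.map fun x => -x) (by
    rw [Multiset.sum_map_neg', h, neg_zero]) (Multiset.mem_map.2 ⟨a, ha, rfl⟩) (by omega)
  obtain ⟨c, hc, rfl⟩ := Multiset.mem_map.1 hb
  exact ⟨c, hc, by omega⟩

/-- The vector of the exponents of a letter. -/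
def Expo (σ : W.K →+* ℂ) (lam : ι → W.K) (hB : IsEig Φ B lam) {g : ℕ} (x : Fin g → ℂˣ)
    (l : ι) (s : Fin g → ℤ) : Prop :=
  cls (pu p (pC Φ)) (ul σ hB l) = cls (pu p (pC Φ)) (∏ i, x i ^ s i) ∧
    ((PPower p (σ (lam l)) ∧ s = 0) ∨ ∃ i, (s = Pi.single i 1 ∧ σ (lam l) = x i) ∨
      (s = -Pi.single i 1 ∧ σ (lam l) * x i = ((p : ℂ) ^ Φ.e X) ^ X.dim))

lemma exists_expo (hB : IsEig Φ B lam) {g : ℕ} (x : Fin g → ℂˣ) {l : ι}
    (h : PPower p (σ (lam l)) ∨ ∃ i, σ (lam l) = x i ∨
      σ (lam l) * x i = ((p : ℂ) ^ Φ.e X) ^ X.dim) : ∃ s, Expo σ lam hB x l s := by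
  classical
  rcases h with h | ⟨i, h | h⟩
  · refine ⟨0, ?_, Or.inl ⟨h, rfl⟩⟩
    have h1 : cls (pu p (pC Φ)) (ul σ hB l) = 0 := cls_zero_iff.2 h
    rw [h1]
    simp [cls_one]
  · refine ⟨Pi.single i 1, ?_, Or.inr ⟨i, Or.inl ⟨rfl, h⟩⟩⟩
    congr 1
    rw [Finset.prod_eq_single i (fun j _ hj => by rw [Pi.single_eq_of_ne hj, zpow_zero])
      (fun h => absurd (Finset.mem_univ i) h), Pi.single_eq_same, zpow_one]
    exact Units.ext h
  · refine ⟨-Pi.single i 1, ?_, Or.inr ⟨i, Or.inr ⟨rfl, h⟩⟩⟩
    have h1 : ∏ j, x j ^ (-Pi.single i 1 : Fin g → ℤ) j = (x i)⁻¹ := by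
      rw [Finset.prod_eq_single i (fun j _ hj => by
        rw [Pi.neg_apply, Pi.single_eq_of_ne hj, neg_zero, zpow_zero])
        (fun h => absurd (Finset.mem_univ i) h), Pi.neg_apply, Pi.single_eq_same, zpow_neg_one]
    rw [h1, cls_inv, ← sub_eq_zero, sub_neg_eq_add, ← cls_mul, cls_zero_iff, Units.val_mul]
    refine ⟨1, one_pos, ((Φ.e X * X.dim : ℕ) : ℤ), ?_⟩
    rw [pow_one, zpow_natCast, pow_mul]
    exact h

/-- **The words whose eigenvalue is a power of `p` are algebraic.** -/
theorem alg_of_ppower (hB : IsEig Φ B lam)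
    (hS : ∀ l, PPower p (σ (lam l)) → B.b l ∈ algSpan W X)
    (hsimple : ∀ l m, ¬ PPower p (σ (lam l)) → lam m = lam l → m = l)
    {g : ℕ} (x : Fin g → ℂˣ)
    (hfree : ∀ a : Fin g → ℤ, PPower p ((∏ i, x i ^ a i : ℂˣ) : ℂ) → a = 0)
    (hval : ∀ l, PPower p (σ (lam l)) ∨ ∃ i, σ (lam l) = x i ∨
      σ (lam l) * x i = ((p : ℂ) ^ Φ.e X) ^ X.dim) (n : ℕ) :
    ∀ M : Multiset (Lr ι), Multiset.card M ≤ n →
      (M.map fun l => cls (pu p (pC Φ)) (ul σ hB l.2)).sum = 0 →
        Alg (X := fun _ : Unit => X) (cB B) M := by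
  classical
  choose s hs using fun l => exists_expo (σ := σ) hB x (hval l)
  induction n with
  | zero =>
    intro M hM _
    rw [Nat.le_zero, Multiset.card_eq_zero] at hM
    rw [hM]
    exact Alg.zero
  | succ n ih =>
    intro M hM h0
    by_cases hall : ∀ l ∈ M, PPower p (σ (lam l.2))
    · clear hM h0
      induction M using Multiset.induction_on with
      | empty => exact Alg.zero
      | cons a M ih =>
        rw [← Multiset.singleton_add]
        exact (alg_single (hS a.2 (hall a (Multiset.mem_cons_self a M)))).add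
          (ih fun l hl => hall l (Multiset.mem_cons_of_mem hl))
    · push Not at hall
      obtain ⟨l, hlM, hl⟩ := hall
      -- the sum of the exponents is zero
      have h1 : (M.map fun l => s l.2).sum = 0 := by
        apply hfree
        rw [← cls_zero_iff (hp := pC Φ), ← h0]
        clear h0 hM hlM
        induction M using Multiset.induction_on with
        | empty => simp [cls_one]
        | cons a M ih =>
          rw [Multiset.map_cons, Multiset.sum_cons, Multiset.map_cons, Multiset.sum_cons, ← ih,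
            (hs a.2).1, ← cls_mul, ← Finset.prod_mul_distrib]
          congr 2
          funext i
          rw [Pi.add_apply, zpow_add]
      have h2 : ∀ i, (M.map fun l => s l.2 i).sum = 0 := by
        intro i
        have h3 := congrFun h1 i
        rw [Pi.zero_apply] at h3
        rw [← h3]
        have h4 := (Pi.evalAddMonoidHom (fun _ : Fin g => ℤ) i).map_multiset_sum
          (M.map fun l => s l.2)
        rw [Multiset.map_map] at h4
        exact h4.symm
      have hmem : ∀ i, ∀ b ∈ M.map (fun l => s l.2 i), ∃ m ∈ M, s m.2 i = b := fun i b hb =>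
        Multiset.mem_map.1 hb
      -- the partner
      have key : ∃ m ∈ M, σ (lam m.2) * σ (lam l.2) = ((p : ℂ) ^ Φ.e X) ^ X.dim := by
        rcases (hs l.2).2 with h3 | ⟨i, ⟨h3, h4⟩ | ⟨h3, h4⟩⟩
        · exact absurd h3.1 hl
        · obtain ⟨b, hb, hb0⟩ := exists_neg (h2 i) (Multiset.mem_map.2 ⟨l, hlM, rfl⟩) (by
            rw [h3, Pi.single_eq_same]; omega)
          obtain ⟨m, hm, rfl⟩ := hmem i b hb
          refine ⟨m, hm, ?_⟩
          rcases (hs m.2).2 with h5 | ⟨j, ⟨h5, h6⟩ | ⟨h5, h6⟩⟩
          · rw [h5.2] at hb0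
            exact absurd hb0 (lt_irrefl _)
          · rw [h5] at hb0
            by_cases hij : i = j
            · subst hij
              rw [Pi.single_eq_same] at hb0
              omega
            · rw [Pi.single_eq_of_ne hij] at hb0
              exact absurd hb0 (lt_irrefl _)
          · rw [h5, Pi.neg_apply] at hb0
            by_cases hij : i = j
            · subst hij
              rw [h4]
              exact h6
            · rw [Pi.single_eq_of_ne hij, neg_zero] at hb0
              exact absurd hb0 (lt_irrefl _)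
        · obtain ⟨b, hb, hb0⟩ := exists_pos (h2 i) (Multiset.mem_map.2 ⟨l, hlM, rfl⟩) (by
            rw [h3, Pi.neg_apply, Pi.single_eq_same]; omega)
          obtain ⟨m, hm, rfl⟩ := hmem i b hb
          refine ⟨m, hm, ?_⟩
          rcases (hs m.2).2 with h5 | ⟨j, ⟨h5, h6⟩ | ⟨h5, h6⟩⟩
          · rw [h5.2] at hb0
            exact absurd hb0 (lt_irrefl _)
          · rw [h5] at hb0
            by_cases hij : i = j
            · subst hij
              rw [h6, mul_comm]
              exact h4
            · rw [Pi.single_eq_of_ne hij] at hb0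
              exact absurd hb0 (lt_irrefl _)
          · rw [h5, Pi.neg_apply] at hb0
            by_cases hij : i = j
            · subst hij
              rw [Pi.single_eq_same] at hb0
              omega
            · rw [Pi.single_eq_of_ne hij, neg_zero] at hb0
              exact absurd hb0 (lt_irrefl _)
      obtain ⟨m, hmM, hml⟩ := key
      have hml' : lam m.2 * lam l.2 = (((p ^ Φ.e X) ^ X.dim : ℕ) : W.K) := by
        apply σ.injective
        rw [map_mul, hml, map_natCast]
        push_cast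
        rfl
      have hcls : cls (pu p (pC Φ)) (ul σ hB m.2) + cls (pu p (pC Φ)) (ul σ hB l.2) = 0 := by
        rw [← cls_mul, cls_zero_iff, Units.val_mul]
        refine ⟨1, one_pos, ((Φ.e X * X.dim : ℕ) : ℤ), ?_⟩
        rw [pow_one, zpow_natCast, pow_mul]
        exact hml
      have hne : m ≠ l := by
        rintro rfl
        apply hl
        have h5 : (2 : ℚ) • cls (pu p (pC Φ)) (ul σ hB m.2) = 0 := by
          rw [two_smul]
          exact hcls
        rcases smul_eq_zero.1 h5 with h6 | h6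
        · norm_num at h6
        · exact cls_zero_iff.1 h6
      obtain ⟨M₁, hM₁⟩ := Multiset.exists_cons_of_mem hlM
      have hmM₁ : m ∈ M₁ := by
        rw [hM₁] at hmM
        exact (Multiset.mem_cons.1 hmM).resolve_left hne
      obtain ⟨M₂, hM₂⟩ := Multiset.exists_cons_of_mem hmM₁
      have hM' : M = {m, l} + M₂ := by
        rw [hM₁, hM₂, Multiset.insert_eq_cons, Multiset.cons_add, Multiset.singleton_add,
          Multiset.cons_swap]
      rw [hM']
      refine (alg_pair (pair_alg hB (fun a ha => hsimple l.2 a hl ha) hml')).add (ih M₂ ?_ ?_)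
      · rw [hM₁, hM₂, Multiset.card_cons, Multiset.card_cons] at hM
        omega
      · rw [hM₁, hM₂, Multiset.map_cons, Multiset.sum_cons, Multiset.map_cons, Multiset.sum_cons,
          ← add_assoc, add_comm (cls _ _) (cls _ _), hcls, zero_add] at h0
        exact h0

end

lemma power_eq (X : 𝒱.Obj) : ∀ n, power X n = prodOf (fun _ : Unit => X) () (List.replicate n ())
  | 0 => rfl
  | n + 1 => by
    rw [power, power_eq X n, List.replicate_succ]
    rfl

/-- **The generalised eigenvectors on the powers.** -/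
theorem sat_power_of_rank [IsAlgClosed W.K] {ι : Type v} [Finite ι] {B : HBasis W X ι}
    {lam : ι → W.K} (hB : IsEig Φ B lam)
    (hS : ∀ l, PPower p (σ (lam l)) → B.b l ∈ algSpan W X)
    (hsimple : ∀ l m, ¬ PPower p (σ (lam l)) → lam m = lam l → m = l)
    {g : ℕ} (x : Fin g → ℂˣ)
    (hfree : ∀ a : Fin g → ℤ, PPower p ((∏ i, x i ^ a i : ℂˣ) : ℂ) → a = 0)
    (hval : ∀ l, PPower p (σ (lam l)) ∨ ∃ i, σ (lam l) = x i ∨
      σ (lam l) * x i = ((p : ℂ) ^ Φ.e X) ^ X.dim) (n : ℕ) : Sat Φ σ (power X n) := by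
  rw [power_eq]
  set T := prodOf (fun _ : Unit => X) () (List.replicate n ()) with hT
  intro t ht μ hμ z hz
  obtain ⟨κ, hκ, b, F, N, hb⟩ := hasWords_prod (X := fun _ : Unit => X) (cB B)
    (fun _ => inferInstance) (List.replicate n ()) ()
  have := Fintype.ofFinite κ
  obtain ⟨S, S', hS1, hS', hSS, h1⟩ := frob_lt (X := fun _ : Unit => X) Φ (e := Φ.e X)
    (fun _ => rfl) (Φ.e_pos X) F
  rw [← b.sum_repr z]
  refine Submodule.sum_mem _ fun a _ => ?_
  by_cases h0 : b.repr z a = 0
  · rw [h0, zero_smul]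
    exact Submodule.zero_mem _
  · refine Submodule.smul_mem _ _ ?_
    rw [(hb a).1]
    have hz' : z ∈ (frob Φ T (S * t)).maxGenEigenspace (μ ^ S) := by
      have h3 := gen_mono (frob Φ T t) μ S hz
      rwa [← frob_mul_eq, mul_comm t S] at h3
    have h3 : ((N a).map fun y => lm (fun _ : Unit => lam) y.1).prod ^ (S' * t) = μ ^ S := by
      by_contra hne
      apply h0
      refine repr_zero (Module.End.independent_maxGenEigenspace (frob Φ T (S * t))) b
        (fun a => ((N a).map fun y => lm (fun _ : Unit => lam) y.1).prod ^ (S' * t)) (fun a => ?_)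
        hz' hne
      rw [(hb a).1]
      exact lwf_gen (X := fun _ : Unit => X) (B := cB B) (fun _ => hB) (N a)
        (fun y hy t x => h1 _ ((hb a).2 y hy) t x) t
    have h4 : PPower p (σ (((N a).map fun y => lm (fun _ : Unit => lam) y.1).prod)) := by
      refine ppower_of_pow (s := S' * t) (Nat.mul_pos hS' ht) ?_
      rw [← map_pow, h3, map_pow]
      exact hμ.pow S
    refine alg_of_ppower hB hS hsimple x hfree hval _ _ le_rfl ?_ _ _ rfl
    have h5 : ∀ L : List (Lt (fun _ : Unit => X) (fun _ : Unit => ι) T),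
        ∀ u : ℂˣ, (u : ℂ) = σ ((L.map fun y => lm (fun _ : Unit => lam) y.1).prod) →
          (((↑(L.map Sigma.fst) : Multiset (Lr ι)).map fun l =>
            cls (pu p (pC Φ)) (ul σ hB l.2)).sum) = cls (pu p (pC Φ)) u := by
      intro L
      induction L with
      | nil =>
        intro u hu
        have h6 : u = 1 := by
          apply Units.ext
          rw [hu, List.map_nil, List.prod_nil, map_one, Units.val_one]
        rw [h6, cls_one]
        rfl
      | cons y L ih =>
        intro u hu
        rw [List.map_cons, List.prod_cons, map_mul] at hu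
        rw [List.map_cons, ← Multiset.cons_coe, Multiset.map_cons, Multiset.sum_cons]
        have h6 : u = ul σ hB y.1.2 * ((ul σ hB y.1.2)⁻¹ * u) := by group
        rw [ih ((ul σ hB y.1.2)⁻¹ * u), ← cls_mul, ← h6]
        rw [Units.val_mul, Units.val_inv_eq_inv_val, hu]
        have h7 : ((ul σ hB y.1.2 : ℂˣ) : ℂ) ≠ 0 := Units.ne_zero _
        have h8 : ((ul σ hB y.1.2 : ℂˣ) : ℂ) = σ (lm (fun _ : Unit => lam) y.1) := rfl
        rw [← h8, inv_mul_cancel_left₀ h7]
    have hu : σ (((N a).map fun y => lm (fun _ : Unit => lam) y.1).prod) ≠ 0 := h4.ne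
    rw [h5 (N a) (Units.mk0 _ hu) rfl, cls_zero_iff]
    exact h4

end Pool.Agent.R919.FF
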